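import Pool.Agent.X320.OP.Interp
import Pool.Agent.W528.Ord.Engine

/-! The zeros of a polynomial function on a coset of the kernel of the residual representations. -/

set_option autoImplicit false
set_option linter.all false

namespace Pool.Agent.X320.OP

open MeasureTheory Topology Filter Polynomial
open Pool.Agent.W528.Ord (coset_of_pos)

variable {ℓ : ℕ} [hp : Fact ℓ.Prime] {G : Type} [Group G]

/-- the reduction modulo `ℓ` -/
noncomputable def red {n : ℕ} (ρ : G →* Matrix.GeneralLinearGroup (Fin n) ℤ_[ℓ]) :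
    G →* Matrix.GeneralLinearGroup (Fin n) (ZMod ℓ) :=
  (Matrix.GeneralLinearGroup.map PadicInt.toZMod).comp ρ

/-- the reduction modulo `ℓ` of a character -/
noncomputable def redChar (χ : G →* ℤ_[ℓ]ˣ) : G →* (ZMod ℓ)ˣ :=
  (Units.map (PadicInt.toZMod (p := ℓ)).toMonoidHom).comp χ

section

variable {ι : Type} [Fintype ι] {n : ι → ℕ}
  (ρ : ∀ i, G →* Matrix.GeneralLinearGroup (Fin (n i)) ℤ_[ℓ]) (χ : G →* ℤ_[ℓ]ˣ)

/-- the common kernel of the reductions -/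
noncomputable def resKer : Subgroup G := (⨅ i, (red (ρ i)).ker) ⊓ (redChar χ).ker

instance : (resKer ρ χ).Normal := by
  unfold resKer
  haveI : (⨅ i, (red (ρ i)).ker).Normal := Subgroup.normal_iInf_normal fun i => inferInstance
  infer_instance

theorem toZMod_eq {x y : ℤ_[ℓ]} (h : PadicInt.toZMod x = PadicInt.toZMod y) : ∃ c, x = y + ℓ * c := by
  have h1 : x - y ∈ RingHom.ker (PadicInt.toZMod (p := ℓ)) := by
    rw [RingHom.mem_ker, map_sub, h, sub_self]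
  rw [PadicInt.ker_toZMod, PadicInt.maximalIdeal_eq_span_p, Ideal.mem_span_singleton] at h1
  obtain ⟨c, hc⟩ := h1
  exact ⟨c, by rw [← hc]; ring⟩

theorem isOpen_toZMod (c : ZMod ℓ) : IsOpen {x : ℤ_[ℓ] | PadicInt.toZMod x = c} := by
  rw [isOpen_iff_mem_nhds]
  intro x hx
  have h1 : {y : ℤ_[ℓ] | ‖y - x‖ < 1} ⊆ {x : ℤ_[ℓ] | PadicInt.toZMod x = c} := by
    intro y hy
    rw [Set.mem_setOf_eq, PadicInt.norm_lt_one_iff_dvd, ← Ideal.mem_span_singleton,
      ← PadicInt.maximalIdeal_eq_span_p, ← PadicInt.ker_toZMod, RingHom.mem_ker, map_sub, sub_eq_zero] at hy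
    rw [Set.mem_setOf_eq, hy]
    exact hx
  refine Filter.mem_of_superset ?_ h1
  have h2 : {y : ℤ_[ℓ] | ‖y - x‖ < 1} = Metric.ball x 1 := by
    ext y
    rw [Metric.mem_ball, dist_eq_norm]
    rfl
  rw [h2]
  exact Metric.ball_mem_nhds x one_pos

theorem mem_red {n : ℕ} {ρ : G →* Matrix.GeneralLinearGroup (Fin n) ℤ_[ℓ]} {g : G} :
    g ∈ (red ρ).ker ↔ ∀ a b, PadicInt.toZMod ((ρ g : Matrix (Fin n) (Fin n) ℤ_[ℓ]) a b) =
      (1 : Matrix (Fin n) (Fin n) (ZMod ℓ)) a b := by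
  rw [MonoidHom.mem_ker, ← Units.val_inj, ← Matrix.ext_iff]
  rfl

theorem red_spec {n : ℕ} {ρ : G →* Matrix.GeneralLinearGroup (Fin n) ℤ_[ℓ]} {g : G} (h : g ∈ (red ρ).ker) :
    ∃ Y : Matrix (Fin n) (Fin n) ℤ_[ℓ], (ρ g : Matrix (Fin n) (Fin n) ℤ_[ℓ]) = 1 + (ℓ : ℤ_[ℓ]) • Y := by
  rw [mem_red] at h
  have h1 : ∀ a b, ∃ c, (ρ g : Matrix (Fin n) (Fin n) ℤ_[ℓ]) a b =
      (1 : Matrix (Fin n) (Fin n) ℤ_[ℓ]) a b + ℓ * c := by
    intro a b
    apply toZMod_eq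
    rw [h a b, Matrix.one_apply, Matrix.one_apply]
    split_ifs <;> simp
  choose Y hY using h1
  refine ⟨Matrix.of Y, ?_⟩
  ext a b
  rw [hY a b]
  rfl

theorem redChar_spec {χ : G →* ℤ_[ℓ]ˣ} {g : G} (h : g ∈ (redChar χ).ker) :
    ∃ y : ℤ_[ℓ], ((χ g : ℤ_[ℓ]ˣ) : ℤ_[ℓ]) = 1 + ℓ * y := by
  rw [MonoidHom.mem_ker, ← Units.val_inj] at h
  apply toZMod_eq
  rw [map_one]
  exact h

section top

variable [TopologicalSpace G] [IsTopologicalGroup G]

theorem isOpen_resKer (hρ : ∀ i a b, Continuous fun g : G => (ρ i g : Matrix (Fin (n i)) (Fin (n i)) ℤ_[ℓ]) a b)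
    (hχ : Continuous fun g : G => ((χ g : ℤ_[ℓ]ˣ) : ℤ_[ℓ])) : IsOpen (resKer ρ χ : Set G) := by
  have e : (resKer ρ χ : Set G) = (⋂ i, ⋂ a, ⋂ b, {g | PadicInt.toZMod ((ρ i g : Matrix (Fin (n i)) (Fin (n i)) ℤ_[ℓ]) a b) =
      (1 : Matrix (Fin (n i)) (Fin (n i)) (ZMod ℓ)) a b}) ∩ {g | PadicInt.toZMod ((χ g : ℤ_[ℓ]ˣ) : ℤ_[ℓ]) = 1} := by
    ext g
    simp only [resKer, Subgroup.coe_inf, Set.mem_inter_iff, SetLike.mem_coe, Subgroup.mem_iInf, Set.mem_iInter,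
      Set.mem_setOf_eq, mem_red]
    rw [MonoidHom.mem_ker, ← Units.val_inj]
    rfl
  rw [e]
  refine IsOpen.inter ?_ ((isOpen_toZMod 1).preimage hχ)
  refine isOpen_iInter_of_finite fun i => isOpen_iInter_of_finite fun a => isOpen_iInter_of_finite fun b => ?_
  exact (isOpen_toZMod _).preimage (hρ i a b)

end top

variable (H : Subgroup G)

/-- generators: matrix entries, the character, and the indicator functions of cosets -/
def Gen : Set (G → ℚ_[ℓ]) :=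
  {f | ∃ i a b, f = fun x => (((ρ i x : Matrix (Fin (n i)) (Fin (n i)) ℤ_[ℓ]) a b : ℤ_[ℓ]) : ℚ_[ℓ])} ∪
  {fun x => (((χ x : ℤ_[ℓ]ˣ) : ℤ_[ℓ]) : ℚ_[ℓ])} ∪
  {f | ∃ q : G ⧸ H, f = Set.indicator {x | (QuotientGroup.mk x : G ⧸ H) = q} 1}

/-- the algebra generated by them -/
noncomputable def alg : Subalgebra ℚ_[ℓ] (G → ℚ_[ℓ]) := Algebra.adjoin ℚ_[ℓ] (Gen ρ χ H)

theorem finite_Gen [Finite (G ⧸ H)] : (Gen ρ χ H).Finite := by
  refine Set.Finite.union (Set.Finite.union ?_ (Set.finite_singleton _)) ?_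
  · have : {f : G → ℚ_[ℓ] | ∃ i a b, f = fun x => (((ρ i x : Matrix (Fin (n i)) (Fin (n i)) ℤ_[ℓ]) a b : ℤ_[ℓ]) : ℚ_[ℓ])} =
        Set.range fun s : (Σ i, Fin (n i) × Fin (n i)) => fun x =>
          (((ρ s.1 x : Matrix (Fin (n s.1)) (Fin (n s.1)) ℤ_[ℓ]) s.2.1 s.2.2 : ℤ_[ℓ]) : ℚ_[ℓ]) := by
      ext f
      constructor
      · rintro ⟨i, a, b, rfl⟩
        exact ⟨⟨i, a, b⟩, rfl⟩
      · rintro ⟨⟨i, a, b⟩, rfl⟩
        exact ⟨i, a, b, rfl⟩
    rw [this]
    exact Set.finite_range _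
  · have : {f : G → ℚ_[ℓ] | ∃ q : G ⧸ H, f = Set.indicator {x | (QuotientGroup.mk x : G ⧸ H) = q} 1} =
        Set.range fun q : G ⧸ H => Set.indicator {x | (QuotientGroup.mk x : G ⧸ H) = q} 1 := by
      ext f
      constructor
      · rintro ⟨q, rfl⟩
        exact ⟨q, rfl⟩
      · rintro ⟨q, rfl⟩
        exact ⟨q, rfl⟩
    rw [this]
    exact Set.finite_range _

theorem noeth [Finite (G ⧸ H)] : IsNoetherianRing (alg ρ χ H) := by
  haveI : Algebra.FiniteType ℚ_[ℓ] (alg ρ χ H) := by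
    rw [← Subalgebra.fg_iff_finiteType]
    exact ⟨(finite_Gen ρ χ H).toFinset, by rw [Set.Finite.coe_toFinset]; rfl⟩
  exact Algebra.FiniteType.isNoetherianRing ℚ_[ℓ] _

theorem trans_mem (g : G) (F : G → ℚ_[ℓ]) (hF : F ∈ alg ρ χ H) : (fun x => F (g * x)) ∈ alg ρ χ H := by
  unfold alg at hF
  induction hF using Algebra.adjoin_induction with
  | mem f hf =>
    rcases hf with (⟨i, a, b, rfl⟩ | hf) | ⟨q, rfl⟩
    · have e : (fun x => (((ρ i (g * x) : Matrix (Fin (n i)) (Fin (n i)) ℤ_[ℓ]) a b : ℤ_[ℓ]) : ℚ_[ℓ])) =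
          ∑ c : Fin (n i), ((((ρ i g : Matrix (Fin (n i)) (Fin (n i)) ℤ_[ℓ]) a c : ℤ_[ℓ]) : ℚ_[ℓ])) •
            (fun x => (((ρ i x : Matrix (Fin (n i)) (Fin (n i)) ℤ_[ℓ]) c b : ℤ_[ℓ]) : ℚ_[ℓ])) := by
        funext x
        rw [Finset.sum_apply, map_mul, Units.val_mul, Matrix.mul_apply, PadicInt.coe_sum]
        apply Finset.sum_congr rfl
        intro c _
        rw [PadicInt.coe_mul]
        rfl
      rw [e]
      refine Subalgebra.sum_mem _ fun c _ => Subalgebra.smul_mem _ (Algebra.subset_adjoin ?_) _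
      exact Or.inl (Or.inl ⟨i, c, b, rfl⟩)
    · rw [Set.mem_singleton_iff] at hf
      subst hf
      have e : (fun x => (((χ (g * x) : ℤ_[ℓ]ˣ) : ℤ_[ℓ]) : ℚ_[ℓ])) =
          (((χ g : ℤ_[ℓ]ˣ) : ℤ_[ℓ]) : ℚ_[ℓ]) • (fun x => (((χ x : ℤ_[ℓ]ˣ) : ℤ_[ℓ]) : ℚ_[ℓ])) := by
        funext x
        rw [map_mul, Units.val_mul, PadicInt.coe_mul]
        rfl
      rw [e]
      exact Subalgebra.smul_mem _ (Algebra.subset_adjoin (s := Gen ρ χ H) (Or.inl (Or.inr rfl))) _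
    · refine Algebra.subset_adjoin (s := Gen ρ χ H) (Or.inr ⟨g⁻¹ • q, ?_⟩)
      funext x
      have e : ((QuotientGroup.mk (g * x) : G ⧸ H) = q) ↔ ((QuotientGroup.mk x : G ⧸ H) = g⁻¹ • q) := by
        have h1 : (QuotientGroup.mk (g * x) : G ⧸ H) = g • (QuotientGroup.mk x : G ⧸ H) := rfl
        rw [h1, eq_inv_smul_iff]
      by_cases h : (QuotientGroup.mk (g * x) : G ⧸ H) = q
      · rw [Set.indicator_of_mem (show g * x ∈ {x | (QuotientGroup.mk x : G ⧸ H) = q} from h),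
          Set.indicator_of_mem (show x ∈ {x | (QuotientGroup.mk x : G ⧸ H) = g⁻¹ • q} from e.1 h)]
        rfl
      · rw [Set.indicator_of_notMem (show g * x ∉ {x | (QuotientGroup.mk x : G ⧸ H) = q} from h),
          Set.indicator_of_notMem (show x ∉ {x | (QuotientGroup.mk x : G ⧸ H) = g⁻¹ • q} from fun h' => h (e.2 h'))]
  | algebraMap r => exact Subalgebra.algebraMap_mem _ r
  | add f f' _ _ h1 h2 => exact add_mem h1 h2
  | mul f f' _ _ h1 h2 => exact mul_mem h1 h2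

section top

variable [TopologicalSpace G] [IsTopologicalGroup G]

theorem isOpen_coset {H : Subgroup G} (hH : IsOpen (H : Set G)) (q : G ⧸ H) :
    IsOpen {x | (QuotientGroup.mk x : G ⧸ H) = q} := by
  obtain ⟨g, rfl⟩ := QuotientGroup.mk_surjective q
  have e : {x | (QuotientGroup.mk x : G ⧸ H) = QuotientGroup.mk g} = (fun x => g⁻¹ * x) ⁻¹' (H : Set G) := by
    ext x
    simp only [Set.mem_setOf_eq, Set.mem_preimage, SetLike.mem_coe]
    rw [eq_comm, QuotientGroup.eq]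
  rw [e]
  exact hH.preimage (continuous_const_mul _)

theorem isClosed_coset {H : Subgroup G} (hH : IsOpen (H : Set G)) (q : G ⧸ H) :
    IsClosed {x | (QuotientGroup.mk x : G ⧸ H) = q} := by
  have e : {x | (QuotientGroup.mk x : G ⧸ H) = q} = (⋃ q' ∈ ({q}ᶜ : Set (G ⧸ H)), {x | (QuotientGroup.mk x : G ⧸ H) = q'})ᶜ := by
    ext x
    simp only [Set.mem_setOf_eq, Set.mem_compl_iff, Set.mem_iUnion, Set.mem_singleton_iff, exists_prop, not_exists,
      not_and]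
    exact ⟨fun h i hi h' => hi (h'.symm.trans h), fun h => by_contra fun h' => h _ h' rfl⟩
  rw [e, isClosed_compl_iff]
  exact isOpen_biUnion fun q' _ => isOpen_coset hH q'

theorem cont_mem (hH : IsOpen (H : Set G))
    (hρ : ∀ i a b, Continuous fun g : G => (ρ i g : Matrix (Fin (n i)) (Fin (n i)) ℤ_[ℓ]) a b)
    (hχ : Continuous fun g : G => ((χ g : ℤ_[ℓ]ˣ) : ℤ_[ℓ]))
    (F : G → ℚ_[ℓ]) (hF : F ∈ alg ρ χ H) : Continuous F := by
  unfold alg at hF
  induction hF using Algebra.adjoin_induction with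
  | mem f hf =>
    rcases hf with (⟨i, a, b, rfl⟩ | hf) | ⟨q, rfl⟩
    · exact continuous_subtype_val.comp (hρ i a b)
    · rw [Set.mem_singleton_iff] at hf
      subst hf
      exact continuous_subtype_val.comp hχ
    · have hclopen : IsClopen {x | (QuotientGroup.mk x : G ⧸ H) = q} := ⟨isClosed_coset hH q, isOpen_coset hH q⟩
      exact (IsClopen.continuous_indicator hclopen continuous_one)
  | algebraMap r => exact continuous_const
  | add f f' _ _ h1 h2 => exact h1.add h2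
  | mul f f' _ _ h1 h2 => exact h1.mul h2

end top

theorem seq_mem (F : G → ℚ_[ℓ]) (hF : F ∈ alg ρ χ H) (γ h : G) (hh : h ∈ H) (hr : h ∈ resKer ρ χ) :
    Seq (fun k => F (γ * h ^ k)) := by
  unfold alg at hF
  induction hF using Algebra.adjoin_induction with
  | mem f hf =>
    rcases hf with (⟨i, a, b, rfl⟩ | hf) | ⟨q, rfl⟩
    · obtain ⟨Y, hY⟩ := red_spec ((Subgroup.mem_iInf.1 hr.1) i)
      have e : (fun k => (((ρ i (γ * h ^ k) : Matrix (Fin (n i)) (Fin (n i)) ℤ_[ℓ]) a b : ℤ_[ℓ]) : ℚ_[ℓ])) =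
          fun k => ∑ c : Fin (n i), ((((ρ i γ : Matrix (Fin (n i)) (Fin (n i)) ℤ_[ℓ]) a c : ℤ_[ℓ]) : ℚ_[ℓ])) *
            (((((ρ i h : Matrix (Fin (n i)) (Fin (n i)) ℤ_[ℓ]) ^ k) c b : ℤ_[ℓ]) : ℚ_[ℓ])) := by
        funext k
        rw [map_mul, map_pow, Units.val_mul, Units.val_pow_eq_pow_val, Matrix.mul_apply, PadicInt.coe_sum]
        apply Finset.sum_congr rfl
        intro c _
        rw [PadicInt.coe_mul]
      rw [e]
      exact Seq.sum _ _ fun c _ => (Seq.const _).mul (Seq.entry _ Y hY c b)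
    · rw [Set.mem_singleton_iff] at hf
      subst hf
      obtain ⟨y, hy⟩ := redChar_spec hr.2
      have h1 := Seq.entry (ℓ := ℓ) (n := 1) (Matrix.scalar (Fin 1) ((χ h : ℤ_[ℓ]ˣ) : ℤ_[ℓ]))
        (Matrix.scalar (Fin 1) y) (by
          rw [hy, map_add, map_one, map_mul]
          congr 1
          ext a b
          rw [Matrix.smul_apply, ← map_mul, Matrix.scalar_apply, Matrix.scalar_apply, Matrix.diagonal_apply,
            Matrix.diagonal_apply]
          split_ifs <;> simp) 0 0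
      have e : (fun k => (((χ (γ * h ^ k) : ℤ_[ℓ]ˣ) : ℤ_[ℓ]) : ℚ_[ℓ])) =
          fun k => (((χ γ : ℤ_[ℓ]ˣ) : ℤ_[ℓ]) : ℚ_[ℓ]) *
            ((((Matrix.scalar (Fin 1) ((χ h : ℤ_[ℓ]ˣ) : ℤ_[ℓ])) ^ k) 0 0 : ℤ_[ℓ]) : ℚ_[ℓ]) := by
        funext k
        rw [map_mul, map_pow, Units.val_mul, Units.val_pow_eq_pow_val, PadicInt.coe_mul, ← map_pow,
          Matrix.scalar_apply, Matrix.diagonal_apply_eq]
      rw [e]
      exact (Seq.const _).mul h1
    · have e : (fun k : ℕ => Set.indicator {x | (QuotientGroup.mk x : G ⧸ H) = q} (1 : G → ℚ_[ℓ]) (γ * h ^ k)) =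
          fun _ => Set.indicator {x | (QuotientGroup.mk x : G ⧸ H) = q} (1 : G → ℚ_[ℓ]) γ := by
        funext k
        have h1 : (QuotientGroup.mk (γ * h ^ k) : G ⧸ H) = QuotientGroup.mk γ := by
          rw [eq_comm, QuotientGroup.eq, inv_mul_cancel_left]
          exact H.pow_mem hh k
        by_cases hc : (QuotientGroup.mk γ : G ⧸ H) = q
        · rw [Set.indicator_of_mem (show γ * h ^ k ∈ {x | (QuotientGroup.mk x : G ⧸ H) = q} from h1.trans hc),
            Set.indicator_of_mem (show γ ∈ {x | (QuotientGroup.mk x : G ⧸ H) = q} from hc)]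
          rfl
        · rw [Set.indicator_of_notMem (show γ * h ^ k ∉ {x | (QuotientGroup.mk x : G ⧸ H) = q} from
            fun h' => hc (h1.symm.trans h')),
            Set.indicator_of_notMem (show γ ∉ {x | (QuotientGroup.mk x : G ⧸ H) = q} from hc)]
      rw [e]
      exact Seq.const _
  | algebraMap r => exact Seq.const _
  | add f f' _ _ h1 h2 => exact h1.add h2
  | mul f f' _ _ h1 h2 => exact h1.mul h2

section top

variable [TopologicalSpace G] [IsTopologicalGroup G] [CompactSpace G] [T2Space G]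
  [MeasurableSpace G] [BorelSpace G]

/-- **dichotomy**: a polynomial function vanishes on the coset `γ₀ H`, or only on a null set of it -/
theorem dichotomy (hℓ : ℓ ≠ 2) (hH : IsOpen (H : Set G)) (hHr : H ≤ resKer ρ χ)
    (hρ : ∀ i a b, Continuous fun g : G => (ρ i g : Matrix (Fin (n i)) (Fin (n i)) ℤ_[ℓ]) a b)
    (hχ : Continuous fun g : G => ((χ g : ℤ_[ℓ]ˣ) : ℤ_[ℓ]))
    (μ : Measure G) [IsProbabilityMeasure μ] [μ.IsMulLeftInvariant]
    (F : G → ℚ_[ℓ]) (hF : F ∈ alg ρ χ H) (γ₀ : G) :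
    (∀ h ∈ H, F (γ₀ * h) = 0) ∨ μ {x | (QuotientGroup.mk x : G ⧸ H) = QuotientGroup.mk γ₀ ∧ F x = 0} = 0 := by
  classical
  by_cases h0 : μ {x | (QuotientGroup.mk x : G ⧸ H) = QuotientGroup.mk γ₀ ∧ F x = 0} = 0
  · exact Or.inr h0
  left
  haveI : Finite (G ⧸ H) := Subgroup.quotient_finite_of_isOpen _ hH
  haveI := noeth ρ χ H
  set I : G → ℚ_[ℓ] := Set.indicator {x | (QuotientGroup.mk x : G ⧸ H) = QuotientGroup.mk γ₀} 1 with hI
  have hImem : I ∈ alg ρ χ H := Algebra.subset_adjoin (Or.inr ⟨_, rfl⟩)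
  have hF' : F * I + (1 - I) ∈ alg ρ χ H := add_mem (mul_mem hF hImem) (sub_mem (one_mem _) hImem)
  have hI1 : ∀ x, (QuotientGroup.mk x : G ⧸ H) = QuotientGroup.mk γ₀ → I x = 1 := fun x hx => by
    rw [hI, Set.indicator_of_mem (show x ∈ {x | (QuotientGroup.mk x : G ⧸ H) = QuotientGroup.mk γ₀} from hx)]
    rfl
  have hI0 : ∀ x, (QuotientGroup.mk x : G ⧸ H) ≠ QuotientGroup.mk γ₀ → I x = 0 := fun x hx => by
    rw [hI, Set.indicator_of_notMem (show x ∉ {x | (QuotientGroup.mk x : G ⧸ H) = QuotientGroup.mk γ₀} from hx)]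
  have hzero : ∀ x, (F * I + (1 - I)) x = 0 ↔ ((QuotientGroup.mk x : G ⧸ H) = QuotientGroup.mk γ₀ ∧ F x = 0) := by
    intro x
    by_cases hx : (QuotientGroup.mk x : G ⧸ H) = QuotientGroup.mk γ₀
    · have : (F * I + (1 - I)) x = F x := by
        rw [Pi.add_apply, Pi.mul_apply, Pi.sub_apply, hI1 x hx, Pi.one_apply]
        ring
      rw [this]
      exact ⟨fun h => ⟨hx, h⟩, fun h => h.2⟩
    · have : (F * I + (1 - I)) x = 1 := by
        rw [Pi.add_apply, Pi.mul_apply, Pi.sub_apply, hI0 x hx, Pi.one_apply]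
        ring
      rw [this]
      exact ⟨fun h => absurd h one_ne_zero, fun h => absurd h.1 hx⟩
  have hset : {x | (F * I + (1 - I)) x = 0} =
      {x | (QuotientGroup.mk x : G ⧸ H) = QuotientGroup.mk γ₀ ∧ F x = 0} := Set.ext hzero
  obtain ⟨U, γ, hU, hUγ⟩ := coset_of_pos μ (alg ρ χ H) (trans_mem ρ χ H) (cont_mem ρ χ H hH hρ hχ)
    (F * I + (1 - I)) hF' (by rw [hset]; exact h0)
  have hγ := (hzero _).1 (hUγ 1 U.one_mem)
  rw [mul_one] at hγ
  haveI : Finite (G ⧸ U) := Subgroup.quotient_finite_of_isOpen _ hU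
  have key : ∀ h ∈ H, F (γ * h) = 0 := by
    intro h hh
    obtain ⟨N, hN, hNU⟩ := Subgroup.exists_pow_mem_of_index_ne_zero (H := U) (Subgroup.index_ne_zero_of_finite) h
    have hs := seq_mem ρ χ H F hF γ h hh (hHr hh)
    have h1 := hs.vanish hℓ (N := N) (by omega) (fun k => by
      have h2 : h ^ (N * k) ∈ U := by
        rw [pow_mul]
        exact U.pow_mem hNU.2 k
      exact ((hzero _).1 (hUγ _ h2)).2) 1
    simpa using h1
  intro h hh
  have h1 : γ⁻¹ * γ₀ ∈ H := QuotientGroup.eq.1 hγ.1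
  have h2 := key (γ⁻¹ * γ₀ * h) (H.mul_mem h1 hh)
  have e : γ * (γ⁻¹ * γ₀ * h) = γ₀ * h := by group
  rwa [e] at h2

end top

end

end Pool.Agent.X320.OP
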