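import Pool.Agent.X320.OP.Coset
import Pool.Agent.W528.Ord.MotMain

/-! The places at which Newton polygons meet Hodge polygons at given vertices. -/

set_option autoImplicit false
set_option linter.all false

namespace Pool.Agent.X320.OP

open MeasureTheory Topology Filter Polynomial NumberField IsDedekindDomain
open Pool.Agent.W401.Cheb Pool.Agent.W528.Ord
open Pool.Agent.W528.Ord.MultSystem (IsDeg1)

/-- Data attached to a pure motive over `K` with rational coefficients and a point with integral coordinates on its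
Hodge polygon. -/
structure HodgePoint (K : Type) [Field K] [NumberField K] (ℓ : ℕ) [Fact ℓ.Prime] where
  /-- the rank -/
  n : ℕ
  /-- the weight -/
  w : ℕ
  /-- the first coordinate of the point -/
  k : ℕ
  /-- the second coordinate of the point: the sum of the `k` smallest Hodge slopes -/
  h : ℕ
  /-- the characteristic polynomials of the geometric Frobenius elements -/
  P : HeightOneSpectrum (𝓞 K) → ℤ[X]
  /-- the dual of the `ℓ`-adic realisation, with a stable lattice -/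
  ρ : GK K →* Matrix.GeneralLinearGroup (Fin n) ℤ_[ℓ]

namespace HodgePoint

variable {K : Type} [Field K] [NumberField K] {ℓ : ℕ} [hp : Fact ℓ.Prime]

/-- the Newton polygon at `v` (a place of degree one) meets the Hodge polygon in the point `(k, h)` -/
def Meets (A : HodgePoint K ℓ) (v : HeightOneSpectrum (𝓞 K)) : Prop :=
  (Ideal.absNorm v.asIdeal : ℤ) ^ A.h ∣ (A.P v).coeff (A.n - A.k) ∧
    ¬ (Ideal.absNorm v.asIdeal : ℤ) ^ (A.h + 1) ∣ (A.P v).coeff (A.n - A.k)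

/-- The properties of these data for a pure motive of weight `w` with good reduction outside `S`, and a point `(k, h)`
of its Hodge polygon which lies by `1 / 2` or `1` below the line with slope `w / 2`: the theorems of Deligne (`weil`)
and Mazur, Katz-Messing (`mazur`), continuity and compatibility of the `ℓ`-adic realisation. -/
structure IsPoint (A : HodgePoint K ℓ) (S : Finset ℕ) : Prop where
  k_pos : 0 < A.k
  k_lt : A.k < A.n
  depth : 2 * A.h < A.w * A.k ∧ A.w * A.k ≤ 2 * A.h + 2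
  cont : ∀ a b, Continuous fun g : GK K => (A.ρ g : Matrix (Fin A.n) (Fin A.n) ℤ_[ℓ]) a b
  monic : ∀ v, IsDeg1 S v → (A.P v).Monic ∧ (A.P v).natDegree = A.n
  weil : ∀ v, IsDeg1 S v → ∀ α : ℂ, ((A.P v).map (Int.castRingHom ℂ)).IsRoot α →
    ‖α‖ ^ 2 = (Ideal.absNorm v.asIdeal : ℝ) ^ A.w
  mazur : ∀ v, IsDeg1 S v → (Ideal.absNorm v.asIdeal : ℤ) ^ A.h ∣ (A.P v).coeff (A.n - A.k)
  compat : ∀ v, IsDeg1 S v → ∀ γ, IsFrob v γ →
    (A.ρ γ : Matrix (Fin A.n) (Fin A.n) ℤ_[ℓ]).charpoly = (A.P v).map (Int.castRingHom ℤ_[ℓ])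

end HodgePoint

section dens

variable {K : Type} [Field K] [NumberField K]

theorem dens_congr_null {P Q : HeightOneSpectrum (𝓞 K) → Prop} {c : ℝ} (hP : Tendsto (dens P) atTop (𝓝 c))
    (h : Tendsto (dens fun v => ¬ (P v ↔ Q v)) atTop (𝓝 0)) : Tendsto (dens Q) atTop (𝓝 c) := by
  have h1 : ∀ N, dens Q N ≤ dens P N + dens (fun v => ¬ (P v ↔ Q v)) N := fun N =>
    (dens_mono (Q := fun v => P v ∨ ¬ (P v ↔ Q v)) (fun v hv => by tauto) N).trans (dens_or _ _ N)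
  have h2 : ∀ N, dens P N - dens (fun v => ¬ (P v ↔ Q v)) N ≤ dens Q N := fun N => by
    have := (dens_mono (P := P) (Q := fun v => Q v ∨ ¬ (P v ↔ Q v)) (fun v hv => by tauto) N).trans (dens_or _ _ N)
    linarith
  refine tendsto_of_tendsto_of_tendsto_of_le_of_le (g := fun N => dens P N - dens (fun v => ¬ (P v ↔ Q v)) N)
    (h := fun N => dens P N + dens (fun v => ¬ (P v ↔ Q v)) N) ?_ ?_ h2 h1
  · simpa using hP.sub h
  · simpa using hP.add h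

theorem ratio_of_dens {P : HeightOneSpectrum (𝓞 K) → Prop} {c : ℝ} (hP : Tendsto (dens P) atTop (𝓝 c)) :
    Tendsto (ratio P) atTop (𝓝 c) := by
  have h1 := hP.div (dens_true' (K := K)) one_ne_zero
  rw [div_one] at h1
  refine h1.congr' ?_
  filter_upwards [ratio_eq P] with N hN using hN.symm

end dens

section main

variable {K : Type} [Field K] [NumberField K] {ℓ : ℕ} [hp : Fact ℓ.Prime] {ι : Type} [Fintype ι]
  (A : ι → HodgePoint K ℓ) (χ : GK K →* ℤ_[ℓ]ˣ)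

/-- the elements which act trivially on the lattices modulo `ℓ` and on the `ℓ`-th roots of unity -/
noncomputable def ker : Subgroup (GK K) := resKer (fun i => (A i).ρ) χ

instance : (ker A χ).Normal := by
  unfold ker
  infer_instance

/-- the function whose zeros are considered -/
noncomputable def Fs (i : ι) (s : ℕ) (g : GK K) : ℚ_[ℓ] :=
  (((A i).ρ g : Matrix (Fin (A i).n) (Fin (A i).n) ℤ_[ℓ]).charpoly.coeff ((A i).n - (A i).k) : ℚ_[ℓ]) ^ 2 -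
    (s : ℚ_[ℓ]) * (((χ g : ℤ_[ℓ]ˣ) : ℤ_[ℓ]) : ℚ_[ℓ]) ^ ((A i).w * (A i).k)

theorem Fs_mem (H : Subgroup (GK K)) (i : ι) (s : ℕ) : Fs A χ i s ∈ alg (fun i => (A i).ρ) χ H := by
  have h1 : (fun g : GK K => (((A i).ρ g : Matrix (Fin (A i).n) (Fin (A i).n) ℤ_[ℓ]).charpoly.coeff
      ((A i).n - (A i).k) : ℚ_[ℓ])) ∈ alg (fun i => (A i).ρ) χ H := by
    have h2 := coeff_mem (alg (fun i => (A i).ρ) χ H)
      (fun g : GK K => ((A i).ρ g : Matrix (Fin (A i).n) (Fin (A i).n) ℤ_[ℓ]).map (algebraMap ℤ_[ℓ] ℚ_[ℓ]))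
      (fun a b => Algebra.subset_adjoin (s := Gen (fun i => (A i).ρ) χ H) (Or.inl (Or.inl ⟨i, a, b, rfl⟩)))
      ((A i).n - (A i).k)
    have e : (fun g : GK K => (((A i).ρ g : Matrix (Fin (A i).n) (Fin (A i).n) ℤ_[ℓ]).charpoly.coeff
        ((A i).n - (A i).k) : ℚ_[ℓ])) =
        (fun g : GK K => (((A i).ρ g : Matrix (Fin (A i).n) (Fin (A i).n) ℤ_[ℓ]).map
          (algebraMap ℤ_[ℓ] ℚ_[ℓ])).charpoly.coeff ((A i).n - (A i).k)) := by
      funext g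
      rw [Matrix.charpoly_map, coeff_map]
      rfl
    rw [e]
    exact h2
  have h3 : (fun g : GK K => (((χ g : ℤ_[ℓ]ˣ) : ℤ_[ℓ]) : ℚ_[ℓ])) ∈ alg (fun i => (A i).ρ) χ H :=
    Algebra.subset_adjoin (s := Gen (fun i => (A i).ρ) χ H) (Or.inl (Or.inr rfl))
  have e : Fs A χ i s = (fun g : GK K => (((A i).ρ g : Matrix (Fin (A i).n) (Fin (A i).n) ℤ_[ℓ]).charpoly.coeff
      ((A i).n - (A i).k) : ℚ_[ℓ])) ^ 2 - (s : ℚ_[ℓ]) • (fun g : GK K => (((χ g : ℤ_[ℓ]ˣ) : ℤ_[ℓ]) : ℚ_[ℓ])) ^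
        ((A i).w * (A i).k) := rfl
  rw [e]
  exact sub_mem (pow_mem h1 2) (Subalgebra.smul_mem _ (pow_mem h3 _) _)

theorem Fs_conj (i : ι) (s : ℕ) (σ τ : GK K) : Fs A χ i s (τ * σ * τ⁻¹) = Fs A χ i s σ := by
  unfold Fs
  have h1 : χ (τ * σ * τ⁻¹) = χ σ := by
    rw [map_mul, map_mul, map_inv, mul_comm, inv_mul_cancel_left]
  have h2 : ((A i).ρ (τ * σ * τ⁻¹) : Matrix (Fin (A i).n) (Fin (A i).n) ℤ_[ℓ]).charpoly =
      ((A i).ρ σ : Matrix (Fin (A i).n) (Fin (A i).n) ℤ_[ℓ]).charpoly := by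
    have h : ((A i).ρ (τ * σ * τ⁻¹) : Matrix (Fin (A i).n) (Fin (A i).n) ℤ_[ℓ]) =
        ((A i).ρ τ).val * ((A i).ρ σ).val * ((A i).ρ τ)⁻¹.val := by
      rw [map_mul, map_mul, map_inv, Units.val_mul, Units.val_mul]
    rw [h, Matrix.coe_units_inv, Matrix.charpoly_units_conj]
  rw [h1, h2]

theorem Fs_one (i : ι) (s : ℕ) (h : Fs A χ i s 1 = 0) : s = ((A i).n.choose ((A i).n - (A i).k)) ^ 2 := by
  unfold Fs at h
  rw [map_one, map_one, Units.val_one, Units.val_one, PadicInt.coe_one, one_pow, mul_one, Matrix.charpoly_one,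
    Fintype.card_fin, show (X - 1 : Polynomial ℤ_[ℓ]) = X + C (-1) by rw [C_neg, C_1, sub_eq_add_neg],
    coeff_X_add_C_pow, PadicInt.coe_mul, mul_pow, PadicInt.coe_pow, PadicInt.coe_neg, PadicInt.coe_one, ← pow_mul,
    mul_comm _ 2, pow_mul, neg_one_sq, one_pow, one_mul, sub_eq_zero] at h
  have h2 : ((((A i).n.choose ((A i).n - (A i).k)) ^ 2 : ℕ) : ℚ_[ℓ]) = (s : ℕ) := by
    rw [← h]
    push_cast
    rfl
  exact (Nat.cast_injective h2).symm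

/-- a prime power dividing a square -/
theorem dvd_of_sq {p : ℕ} (hp : p.Prime) {h : ℕ} {c : ℤ} (hc : (p : ℤ) ^ (2 * h + 1) ∣ c ^ 2) :
    (p : ℤ) ^ (h + 1) ∣ c := by
  have h1 : (p : ℤ) ^ h ∣ c := by
    have : ((p : ℤ) ^ h) ^ 2 ∣ c ^ 2 := by
      rw [← pow_mul, mul_comm h 2]
      exact (pow_dvd_pow _ (by omega)).trans hc
    exact (Int.pow_dvd_pow_iff (by norm_num)).1 this
  obtain ⟨d, rfl⟩ := h1
  have hp0 : (p : ℤ) ^ (2 * h) ≠ 0 := by
    have := hp.pos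
    positivity
  have h2 : (p : ℤ) ∣ d ^ 2 := by
    have e : ((p : ℤ) ^ h * d) ^ 2 = (p : ℤ) ^ (2 * h) * d ^ 2 := by ring
    rw [e, pow_succ, mul_dvd_mul_iff_left hp0] at hc
    exact hc
  have h3 : (p : ℤ) ∣ d := (Nat.prime_iff_prime_int.1 hp).dvd_of_dvd_pow h2
  rw [pow_succ]
  exact mul_dvd_mul_left _ h3

variable {A χ} {S : Finset ℕ}

/-- the value at Frobenius elements -/
theorem Fs_frob (hA : ∀ i, (A i).IsPoint S)
    (hχ : ∀ v, IsDeg1 S v → ∀ γ, IsFrob v γ → ((χ γ : ℤ_[ℓ]ˣ) : ℤ_[ℓ]) = (Ideal.absNorm v.asIdeal : ℤ_[ℓ]))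
    (i : ι) (s : ℕ) {v : HeightOneSpectrum (𝓞 K)} (hv : IsDeg1 S v) {γ : GK K} (hγ : IsFrob v γ) :
    Fs A χ i s γ = 0 ↔ (((A i).P v).coeff ((A i).n - (A i).k)) ^ 2 =
      (s : ℤ) * (Ideal.absNorm v.asIdeal : ℤ) ^ ((A i).w * (A i).k) := by
  unfold Fs
  rw [(hA i).compat v hv γ hγ, hχ v hv γ hγ, coeff_map, sub_eq_zero]
  constructor
  · intro h
    have h2 : ((((((A i).P v).coeff ((A i).n - (A i).k)) ^ 2 : ℤ)) : ℚ_[ℓ]) =
        (((s : ℤ) * (Ideal.absNorm v.asIdeal : ℤ) ^ ((A i).w * (A i).k) : ℤ) : ℚ_[ℓ]) := by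
      push_cast
      rw [eq_intCast, PadicInt.coe_intCast, PadicInt.coe_natCast] at h
      exact h
    exact_mod_cast h2
  · intro h
    have h2 : ((((((A i).P v).coeff ((A i).n - (A i).k)) ^ 2 : ℤ)) : ℚ_[ℓ]) =
        (((s : ℤ) * (Ideal.absNorm v.asIdeal : ℤ) ^ ((A i).w * (A i).k) : ℤ) : ℚ_[ℓ]) := by
      rw [h]
    push_cast at h2
    rw [eq_intCast, PadicInt.coe_intCast, PadicInt.coe_natCast]
    exact h2

theorem bad_iff (hA : ∀ i, (A i).IsPoint S)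
    (hχ : ∀ v, IsDeg1 S v → ∀ γ, IsFrob v γ → ((χ γ : ℤ_[ℓ]ˣ) : ℤ_[ℓ]) = (Ideal.absNorm v.asIdeal : ℤ_[ℓ]))
    (i : ι) {v : HeightOneSpectrum (𝓞 K)} (hv : IsDeg1 S v) {γ : GK K} (hγ : IsFrob v γ) :
    ¬ (A i).Meets v ↔ ∃ s ≤ ((A i).n.choose (A i).k) ^ 2, Fs A χ i s γ = 0 := by
  have hbd : ((((A i).P v).coeff ((A i).n - (A i).k) : ℤ) : ℝ) ^ 2 ≤
      ((((A i).n.choose (A i).k) ^ 2 : ℕ) : ℝ) * (Ideal.absNorm v.asIdeal : ℝ) ^ ((A i).w * (A i).k) := by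
    have h := norm_coeff_sq_le (((A i).P v).map (Int.castRingHom ℂ)) (A i).n (A i).k (hA i).k_lt.le
      (((hA i).monic v hv).1.map _) (by rw [((hA i).monic v hv).1.natDegree_map, ((hA i).monic v hv).2])
      ((Ideal.absNorm v.asIdeal : ℝ) ^ (A i).w) ((hA i).weil v hv)
    rw [coeff_map, eq_intCast, Complex.norm_intCast, sq_abs, ← pow_mul] at h
    push_cast
    exact h
  constructor
  · intro h
    have h1 : (Ideal.absNorm v.asIdeal : ℤ) ^ ((A i).h + 1) ∣ ((A i).P v).coeff ((A i).n - (A i).k) := by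
      by_contra hcon
      exact h ⟨(hA i).mazur v hv, hcon⟩
    obtain ⟨s, hs, hsN⟩ := value (Ideal.absNorm v.asIdeal) hv.1 ((A i).h + 1) ((A i).w * (A i).k)
      (((A i).n.choose (A i).k) ^ 2) _ (by have := (hA i).depth.2; omega) h1 hbd
    exact ⟨s, hs, (Fs_frob hA hχ i s hv hγ).2 hsN⟩
  · rintro ⟨s, -, hs⟩ ⟨-, h2⟩
    apply h2
    apply dvd_of_sq hv.1
    rw [(Fs_frob hA hχ i s hv hγ).1 hs]
    exact Dvd.dvd.mul_left (pow_dvd_pow _ (by have := (hA i).depth.1; omega)) _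

/-- the set `Σ` -/
def Sig (A : ι → HodgePoint K ℓ) (χ : GK K →* ℤ_[ℓ]ˣ) : Set (GK K) :=
  {g | ∀ i, ∀ s ≤ ((A i).n.choose (A i).k) ^ 2, ∃ h ∈ ker A χ, Fs A χ i s (g * h) ≠ 0}

/-- the exceptional set -/
def Exc (A : ι → HodgePoint K ℓ) (χ : GK K →* ℤ_[ℓ]ˣ) (i : ι) (s : ℕ) : Set (GK K) :=
  {g | Fs A χ i s g = 0 ∧ ∃ h ∈ ker A χ, Fs A χ i s (g * h) ≠ 0}

theorem Sig_conj (σ : GK K) (hσ : σ ∈ Sig A χ) (τ : GK K) : τ * σ * τ⁻¹ ∈ Sig A χ := by
  intro i s hs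
  obtain ⟨h, hh, h1⟩ := hσ i s hs
  refine ⟨τ * h * τ⁻¹, (inferInstance : (ker A χ).Normal).conj_mem h hh τ, ?_⟩
  have e : τ * σ * τ⁻¹ * (τ * h * τ⁻¹) = τ * (σ * h) * τ⁻¹ := by group
  rw [e, Fs_conj]
  exact h1

theorem Sig_mul (σ : GK K) (hσ : σ ∈ Sig A χ) (u : GK K) (hu : u ∈ ker A χ) : σ * u ∈ Sig A χ := by
  intro i s hs
  obtain ⟨h, hh, h1⟩ := hσ i s hs
  refine ⟨u⁻¹ * h, (ker A χ).mul_mem ((ker A χ).inv_mem hu) hh, ?_⟩
  rwa [mul_assoc, mul_inv_cancel_left]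

theorem Exc_conj (i : ι) (s : ℕ) (σ : GK K) (hσ : σ ∈ Exc A χ i s) (τ : GK K) : τ * σ * τ⁻¹ ∈ Exc A χ i s := by
  obtain ⟨h0, h, hh, h1⟩ := hσ
  refine ⟨by rw [Fs_conj]; exact h0, τ * h * τ⁻¹, (inferInstance : (ker A χ).Normal).conj_mem h hh τ, ?_⟩
  have e : τ * σ * τ⁻¹ * (τ * h * τ⁻¹) = τ * (σ * h) * τ⁻¹ := by group
  rw [e, Fs_conj]
  exact h1

theorem isOpen_ker (hA : ∀ i, (A i).IsPoint S) (hχc : Continuous fun g : GK K => ((χ g : ℤ_[ℓ]ˣ) : ℤ_[ℓ])) :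
    IsOpen (ker A χ : Set (GK K)) :=
  isOpen_resKer _ _ (fun i => (hA i).cont) hχc

theorem Exc_null (hℓ : ℓ ≠ 2) (hA : ∀ i, (A i).IsPoint S)
    (hχc : Continuous fun g : GK K => ((χ g : ℤ_[ℓ]ˣ) : ℤ_[ℓ])) (i : ι) (s : ℕ)
    [MeasurableSpace (GK K)] [BorelSpace (GK K)] (μ : Measure (GK K)) [IsProbabilityMeasure μ]
    [μ.IsMulLeftInvariant] : IsClosed (Exc A χ i s) ∧ μ (Exc A χ i s) = 0 := by
  have hH := isOpen_ker (χ := χ) hA hχc
  haveI : Finite (GK K ⧸ ker A χ) := Subgroup.quotient_finite_of_isOpen _ hH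
  set T : Set (GK K ⧸ ker A χ) := {q | ∃ y, (QuotientGroup.mk y : GK K ⧸ ker A χ) = q ∧ Fs A χ i s y ≠ 0} with hT
  have e : Exc A χ i s = ⋃ q ∈ T, {x | (QuotientGroup.mk x : GK K ⧸ ker A χ) = q ∧ Fs A χ i s x = 0} := by
    ext x
    simp only [Set.mem_iUnion, Set.mem_setOf_eq, exists_prop]
    constructor
    · rintro ⟨h0, h, hh, h1⟩
      refine ⟨QuotientGroup.mk x, ⟨x * h, ?_, h1⟩, rfl, h0⟩
      rw [eq_comm, QuotientGroup.eq, inv_mul_cancel_left]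
      exact hh
    · rintro ⟨q, ⟨y, hy, h1⟩, hx, h0⟩
      refine ⟨h0, x⁻¹ * y, QuotientGroup.eq.1 (hx.trans hy.symm), ?_⟩
      rwa [mul_inv_cancel_left]
  have hF : Continuous (Fs A χ i s) := cont_mem (fun i => (A i).ρ) χ (ker A χ) hH (fun i => (hA i).cont) hχc _
    (Fs_mem A χ (ker A χ) i s)
  constructor
  · rw [e]
    refine Set.Finite.isClosed_biUnion (Set.toFinite T) fun q _ => ?_
    exact (isClosed_coset hH q).inter (isClosed_eq hF continuous_const)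
  · rw [e, measure_biUnion_null_iff (Set.toFinite T).countable]
    rintro q ⟨y, hy, h1⟩
    obtain ⟨γ, rfl⟩ := QuotientGroup.mk_surjective q
    rcases dichotomy (fun i => (A i).ρ) χ (ker A χ) hℓ hH le_rfl (fun i => (hA i).cont) hχc μ _
      (Fs_mem A χ (ker A χ) i s) γ with h2 | h2
    · exfalso
      apply h1
      have h3 := h2 (γ⁻¹ * y) (QuotientGroup.eq.1 hy.symm)
      rwa [mul_inv_cancel_left] at h3
    · exact h2

/-- some Frobenius polynomial at an element of the kernel is not the power of a linear polynomial -/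
def NonScalar (A : ι → HodgePoint K ℓ) (χ : GK K →* ℤ_[ℓ]ˣ) (S : Finset ℕ) (i : ι) : Prop :=
  ∃ v, IsDeg1 S v ∧ (∃ γ ∈ ker A χ, IsFrob v γ) ∧
    ∀ α : ℂ, ((A i).P v).map (Int.castRingHom ℂ) ≠ (X - C α) ^ (A i).n

theorem one_mem_Sig (hA : ∀ i, (A i).IsPoint S)
    (hχ : ∀ v, IsDeg1 S v → ∀ γ, IsFrob v γ → ((χ γ : ℤ_[ℓ]ˣ) : ℤ_[ℓ]) = (Ideal.absNorm v.asIdeal : ℤ_[ℓ]))
    (hns : ∀ i, NonScalar A χ S i) : (1 : GK K) ∈ Sig A χ := by
  intro i s hs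
  by_contra hcon
  push Not at hcon
  have h1 := hcon 1 (ker A χ).one_mem
  rw [mul_one] at h1
  have hs' := Fs_one A χ i s h1
  rw [Nat.choose_symm (hA i).k_lt.le] at hs'
  obtain ⟨v, hv, ⟨γ, hγk, hγ⟩, hne⟩ := hns i
  have h2 := hcon γ hγk
  rw [one_mul] at h2
  have h3 := (Fs_frob hA hχ i s hv hγ).1 h2
  obtain ⟨α, hα⟩ := scalar_of_norm_coeff (((A i).P v).map (Int.castRingHom ℂ)) (A i).n (A i).k (hA i).k_pos
    (hA i).k_lt (((hA i).monic v hv).1.map _)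
    (by rw [((hA i).monic v hv).1.natDegree_map, ((hA i).monic v hv).2])
    ((Ideal.absNorm v.asIdeal : ℝ) ^ (A i).w) (by
      have := hv.1.pos
      positivity) ((hA i).weil v hv) (by
      rw [coeff_map, eq_intCast, Complex.norm_intCast, sq_abs, ← pow_mul]
      have h4 : ((((A i).P v).coeff ((A i).n - (A i).k) : ℤ) : ℝ) ^ 2 =
          (s : ℝ) * (Ideal.absNorm v.asIdeal : ℝ) ^ ((A i).w * (A i).k) := by exact_mod_cast congrArg (Int.cast : ℤ → ℝ) h3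
      rw [h4, hs']
      push_cast
      rfl)
  exact hne α hα

theorem dens_exc (hℓ : ℓ ≠ 2) (hA : ∀ i, (A i).IsPoint S)
    (hχc : Continuous fun g : GK K => ((χ g : ℤ_[ℓ]ˣ) : ℤ_[ℓ]))
    (hχ : ∀ v, IsDeg1 S v → ∀ γ, IsFrob v γ → ((χ γ : ℤ_[ℓ]ˣ) : ℤ_[ℓ]) = (Ideal.absNorm v.asIdeal : ℤ_[ℓ])) :
    Tendsto (dens fun v : HeightOneSpectrum (𝓞 K) => IsDeg1 S v ∧ ∃ γ, IsFrob v γ ∧
      ¬ (γ ∈ Sig A χ ↔ ∀ i, (A i).Meets v)) atTop (𝓝 0) := by
  classical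
  letI : MeasurableSpace (GK K) := borel (GK K)
  haveI : BorelSpace (GK K) := ⟨rfl⟩
  let μ : Measure (GK K) := Measure.haarMeasure ⊤
  haveI : IsProbabilityMeasure μ := ⟨Measure.haarMeasure_self (K₀ := (⊤ : TopologicalSpace.PositiveCompacts (GK K)))⟩
  set Z : Set (GK K) := ⋃ i, ⋃ s ∈ Finset.range (((A i).n.choose (A i).k) ^ 2 + 1), Exc A χ i s with hZ
  have hZc : IsClosed Z := isClosed_iUnion_of_finite fun i => isClosed_biUnion_finset fun s _ =>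
    (Exc_null hℓ hA hχc i s μ).1
  have hZ0 : μ Z = 0 := by
    rw [hZ, measure_iUnion_null_iff]
    intro i
    rw [measure_iUnion_null_iff]
    intro s
    rw [measure_iUnion_null_iff]
    exact fun _ => (Exc_null hℓ hA hχc i s μ).2
  have hZconj : ∀ σ ∈ Z, ∀ τ : GK K, τ * σ * τ⁻¹ ∈ Z := by
    intro σ hσ τ
    rw [hZ] at hσ ⊢
    simp only [Set.mem_iUnion] at hσ ⊢
    obtain ⟨i, s, hs, h⟩ := hσ
    exact ⟨i, s, hs, Exc_conj i s σ h τ⟩
  refine squeeze_zero (fun N => dens_nonneg _ _) (fun N => dens_mono ?_ N) (dens_null μ Z hZc hZconj hZ0)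
  rintro v ⟨hv, γ, hγ, hne⟩
  refine ⟨γ, ?_, hγ⟩
  rw [hZ]
  simp only [Set.mem_iUnion]
  by_cases hgood : ∀ i, (A i).Meets v
  · have h1 : γ ∉ Sig A χ := fun h => hne ⟨fun _ => hgood, fun _ => h⟩
    unfold Sig at h1
    rw [Set.mem_setOf_eq] at h1
    push Not at h1
    obtain ⟨i, s, hs, h2⟩ := h1
    have h3 := h2 1 (ker A χ).one_mem
    rw [mul_one] at h3
    exact absurd (hgood i) ((bad_iff hA hχ i hv hγ).2 ⟨s, hs, h3⟩)
  · have h1 : γ ∈ Sig A χ := by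
      by_contra h
      exact hne ⟨fun h' => absurd h' h, fun h' => absurd h' hgood⟩
    push Not at hgood
    obtain ⟨i, hi⟩ := hgood
    obtain ⟨s, hs, h2⟩ := (bad_iff hA hχ i hv hγ).1 hi
    exact ⟨i, s, Finset.mem_range.2 (by omega), h2, h1 i s hs⟩

theorem dens_good (hℓ : ℓ ≠ 2) (hA : ∀ i, (A i).IsPoint S)
    (hχc : Continuous fun g : GK K => ((χ g : ℤ_[ℓ]ˣ) : ℤ_[ℓ]))
    (hχ : ∀ v, IsDeg1 S v → ∀ γ, IsFrob v γ → ((χ γ : ℤ_[ℓ]ˣ) : ℤ_[ℓ]) = (Ideal.absNorm v.asIdeal : ℤ_[ℓ])) :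
    Tendsto (dens fun v : HeightOneSpectrum (𝓞 K) => IsDeg1 S v ∧ ∀ i, (A i).Meets v) atTop
      (𝓝 ((((QuotientGroup.mk : GK K → GK K ⧸ ker A χ) '' Sig A χ).ncard : ℝ) / (Nat.card (GK K ⧸ ker A χ) : ℝ))) := by
  have hH := isOpen_ker (χ := χ) hA hχc
  have key := chebK K (ker A χ) hH (Sig A χ) Sig_conj Sig_mul
  refine dens_congr_null key ?_
  have h1 := dens_exc hℓ hA hχc hχ
  have h2 := dens_not_prime (K := K)
  have h3 := dens_finite _ (finite_norm_mem (K := K) S)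
  have h4 := h1.add (h2.add h3)
  rw [add_zero, add_zero] at h4
  refine squeeze_zero (fun N => dens_nonneg _ _) (fun N => ?_) h4
  refine le_trans (dens_mono (Q := fun v => _ ∨ (_ ∨ _)) ?_ N)
      (le_trans (dens_or _ _ N) (add_le_add_right (dens_or _ _ N) _))
  intro v hv
  by_cases hp : (Ideal.absNorm v.asIdeal).Prime
  · by_cases hS : Ideal.absNorm v.asIdeal ∈ S
    · exact Or.inr (Or.inr hS)
    · left
      have hd : IsDeg1 S v := ⟨hp, hS⟩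
      refine ⟨hd, ?_⟩
      by_contra hcon
      push Not at hcon
      apply hv
      constructor
      · rintro ⟨σ, hσ, hσv⟩
        exact ⟨hd, (hcon σ hσv).1 hσ⟩
      · rintro ⟨-, hg⟩
        obtain ⟨σ, hσ⟩ := exists_isFrob v
        exact ⟨σ, (hcon σ hσ).2 hg, hσ⟩
  · exact Or.inr (Or.inl hp)

/-- the index of the kernel -/
theorem card_le (A : ι → HodgePoint K ℓ) (χ : GK K →* ℤ_[ℓ]ˣ) : Nat.card (GK K ⧸ ker A χ) ≤ ℓ ^ (1 + ∑ i, (A i).n ^ 2) := by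
  classical
  let T := (∀ i, Matrix (Fin (A i).n) (Fin (A i).n) (ZMod ℓ)) × ZMod ℓ
  let f : GK K → T := fun g => (fun i => (red (A i).ρ g : Matrix (Fin (A i).n) (Fin (A i).n) (ZMod ℓ)),
    (redChar χ g : ZMod ℓ))
  have hf : ∀ x y : GK K, f x = f y → (QuotientGroup.mk x : GK K ⧸ ker A χ) = QuotientGroup.mk y := by
    intro x y h
    rw [QuotientGroup.eq]
    have h1 := Prod.ext_iff.1 h
    refine ⟨Subgroup.mem_iInf.2 fun i => ?_, ?_⟩
    · rw [MonoidHom.mem_ker, map_mul, map_inv, inv_mul_eq_one]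
      exact Units.ext (congrFun h1.1 i)
    · change redChar χ (x⁻¹ * y) = 1
      rw [map_mul, map_inv, inv_mul_eq_one]
      exact Units.ext h1.2
  have hinj : Function.Injective fun q : GK K ⧸ ker A χ => f (Quotient.out q) := by
    intro q q' h
    have := hf _ _ h
    rwa [QuotientGroup.out_eq', QuotientGroup.out_eq'] at this
  haveI : Fintype (ZMod ℓ) := ZMod.fintype ℓ
  have h1 := Nat.card_le_card_of_injective _ hinj
  refine h1.trans (le_of_eq ?_)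
  rw [Nat.card_eq_fintype_card, Fintype.card_prod, Fintype.card_pi, ZMod.card, pow_add, pow_one, mul_comm,
    ← Finset.prod_pow_eq_pow_sum]
  congr 1
  apply Finset.prod_congr rfl
  intro i _
  change Fintype.card (Fin (A i).n → Fin (A i).n → ZMod ℓ) = _
  rw [Fintype.card_fun, Fintype.card_fun, ZMod.card, Fintype.card_fin, ← pow_mul, sq]

theorem proportion_ge (hA : ∀ i, (A i).IsPoint S) (hχc : Continuous fun g : GK K => ((χ g : ℤ_[ℓ]ˣ) : ℤ_[ℓ]))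
    {D : Set (GK K)} (h1 : (1 : GK K) ∈ D) : 1 / (ℓ : ℝ) ^ (1 + ∑ i, (A i).n ^ 2) ≤
    (((QuotientGroup.mk : GK K → GK K ⧸ ker A χ) '' D).ncard : ℝ) / (Nat.card (GK K ⧸ ker A χ) : ℝ) := by
  haveI : Finite (GK K ⧸ ker A χ) := Subgroup.quotient_finite_of_isOpen _ (isOpen_ker (χ := χ) hA hχc)
  have h2 : 0 < ((QuotientGroup.mk : GK K → GK K ⧸ ker A χ) '' D).ncard := by
    rw [Set.ncard_pos (Set.toFinite _)]
    exact ⟨_, 1, h1, rfl⟩
  have h3 : 0 < Nat.card (GK K ⧸ ker A χ) := Nat.card_pos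
  have h4 := card_le A χ
  apply div_le_div₀ (Nat.cast_nonneg _)
  · exact_mod_cast h2
  · exact_mod_cast h3
  · exact_mod_cast h4

end main

end Pool.Agent.X320.OP
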