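import Pool.Agent.W528.Ord.Arith

/-! The characteristic polynomial of a power (copied from the starting library, `Pool.Agent.W63.HS.TR`), and matrices
with a large coefficient of the characteristic polynomial of a power. -/

set_option autoImplicit false
set_option linter.all false

namespace Pool.Agent.X320.OP

open Polynomial

section pow

variable {ι : Type} [Fintype ι] [DecidableEq ι] {K : Type} [Field K] [IsAlgClosed K]

lemma charpoly_prod (A : Matrix ι ι K) : A.charpoly = (A.charpoly.roots.map fun a => X - C a).prod :=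
  (IsAlgClosed.splits A.charpoly).eq_prod_roots_of_monic A.charpoly_monic

lemma card_roots' (A : Matrix ι ι K) : A.charpoly.roots.card = Fintype.card ι := by
  rw [← (IsAlgClosed.splits A.charpoly).natDegree_eq_card_roots, A.charpoly_natDegree_eq_dim]

lemma det_scalar_sub (A : Matrix ι ι K) (r : K) :
    (Matrix.scalar ι r - A).det = (A.charpoly.roots.map fun a => r - a).prod := by
  rw [← Matrix.eval_charpoly]
  conv_lhs => rw [charpoly_prod A]
  rw [eval_multiset_prod, Multiset.map_map]
  congr 1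
  refine Multiset.map_congr rfl fun a _ => ?_
  simp

lemma prod_neg_map (s : Multiset K) (f : K → K) :
    (s.map fun a => - f a).prod = (-1) ^ s.card * (s.map f).prod := by
  induction s using Multiset.induction_on with
  | empty => simp
  | cons a s ih => rw [Multiset.map_cons, Multiset.prod_cons, ih, Multiset.map_cons,
      Multiset.prod_cons, Multiset.card_cons, pow_succ]; ring

lemma det_sub_scalar (A : Matrix ι ι K) (r : K) :
    (A - Matrix.scalar ι r).det = (A.charpoly.roots.map fun a => a - r).prod := by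
  have h1 : A - Matrix.scalar ι r = - (Matrix.scalar ι r - A) := by abel
  rw [h1, Matrix.det_neg, det_scalar_sub, ← card_roots' A, ← prod_neg_map]
  congr 1
  refine Multiset.map_congr rfl fun a _ => by ring

lemma det_aeval (A : Matrix ι ι K) {p : K[X]} (hp : p.Monic) :
    (aeval A p).det = (A.charpoly.roots.map fun a => p.eval a).prod := by
  let φ : K[X] →* K := Matrix.detMonoidHom.comp (aeval A : K[X] →ₐ[K] Matrix ι ι K).toMonoidHom
  have hφ : ∀ q, φ q = (aeval A q).det := fun q => rfl
  have hp2 := (IsAlgClosed.splits p).eq_prod_roots_of_monic hp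
  rw [← hφ]
  conv_lhs => rw [hp2]
  rw [map_multiset_prod, Multiset.map_map]
  have h1 : (p.roots.map (φ ∘ fun a => X - C a)) =
      p.roots.map fun r => (A.charpoly.roots.map fun a => a - r).prod := by
    refine Multiset.map_congr rfl fun r _ => ?_
    rw [Function.comp_apply, hφ, ← det_sub_scalar]
    congr 1
    simp [Matrix.algebraMap_eq_diagonal, Matrix.scalar_apply]
  rw [h1, Multiset.prod_map_prod_map]
  congr 1
  refine Multiset.map_congr rfl fun a _ => ?_
  conv_rhs => rw [hp2]
  rw [eval_multiset_prod, Multiset.map_map]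
  congr 1
  refine Multiset.map_congr rfl fun r _ => ?_
  simp

lemma charpoly_pow (A : Matrix ι ι K) {n : ℕ} (hn : n ≠ 0) :
    (A ^ n).charpoly = (A.charpoly.roots.map fun a => X - C (a ^ n)).prod := by
  apply Polynomial.funext
  intro s
  rw [Matrix.eval_charpoly, eval_multiset_prod, Multiset.map_map]
  have h1 : Matrix.scalar ι s - A ^ n = - (aeval A (X ^ n - C s)) := by
    simp [Matrix.algebraMap_eq_diagonal, Matrix.scalar_apply]
  rw [h1, Matrix.det_neg, det_aeval A (monic_X_pow_sub_C s hn), ← card_roots' A, ← prod_neg_map]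
  congr 1
  refine Multiset.map_congr rfl fun a _ => ?_
  simp

end pow

open Pool.Agent.W528.Ord (norm_coeff_sq_le scalar_of_norm_coeff)


theorem isoclinic {F : Type} [Field F] [CharZero F] {n : ℕ} (M : Matrix (Fin n) (Fin n) F) (P : ℤ[X])
    (hm : P.Monic) (hn : P.natDegree = n) (hM : M.charpoly = P.map (Int.castRingHom F)) {k : ℕ} (hk0 : 0 < k)
    (hkn : k < n) {q : ℕ} (hq : 0 < q) {w e : ℕ} (hw : w * k ≤ 2 * e)
    (weil : ∀ α : ℂ, (P.map (Int.castRingHom ℂ)).IsRoot α → ‖α‖ ^ 2 = (q : ℝ) ^ w) {N : ℕ} (hN : 0 < N)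
    (h : (M ^ N).charpoly.coeff (n - k) = (-1) ^ k * (n.choose k : F) * (q : F) ^ (N * e)) (a b : ℂ)
    (ha : (P.map (Int.castRingHom ℂ)).IsRoot a) (hb : (P.map (Int.castRingHom ℂ)).IsRoot b) : a ^ N = b ^ N := by
  classical
  letI i1 : Algebra ℚ (AlgebraicClosure ℚ) := AlgebraicClosure.instAlgebra ℚ
  haveI : Algebra.IsAlgebraic ℚ (AlgebraicClosure ℚ) := AlgebraicClosure.isAlgebraic ℚ
  have ι : (AlgebraicClosure ℚ) →ₐ[ℚ] (AlgebraicClosure F) := IsAlgClosed.lift
  have j : (AlgebraicClosure ℚ) →ₐ[ℚ] ℂ := IsAlgClosed.lift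
  set PQ := P.map (Int.castRingHom (AlgebraicClosure ℚ)) with hPQ
  have hPι : PQ.map (ι : (AlgebraicClosure ℚ) →+* (AlgebraicClosure F)) = P.map (Int.castRingHom (AlgebraicClosure F)) := by
    rw [hPQ, Polynomial.map_map]
    congr 1
    exact RingHom.ext_int _ _
  have hPj : PQ.map (j : (AlgebraicClosure ℚ) →+* ℂ) = P.map (Int.castRingHom ℂ) := by
    rw [hPQ, Polynomial.map_map]
    congr 1
    exact RingHom.ext_int _ _
  have hPm : PQ.Monic := hm.map _
  have hsp := (IsAlgClosed.splits PQ).eq_prod_roots_of_monic hPm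
  set R := PQ.roots with hR
  set QN : (AlgebraicClosure ℚ)[X] := (R.map fun a => X - C (a ^ N)).prod with hQN
  have hcard : R.card = n := by
    rw [hR, ← (IsAlgClosed.splits PQ).natDegree_eq_card_roots, hPQ, hm.natDegree_map, hn]
  have hQNm : QN.Monic := by
    rw [hQN]
    exact monic_multiset_prod_of_monic _ _ fun a _ => monic_X_sub_C _
  have hQNn : QN.natDegree = n := by
    rw [hQN, natDegree_multiset_prod_of_monic _ (by
      intro f hf
      obtain ⟨a, -, rfl⟩ := Multiset.mem_map.1 hf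
      exact monic_X_sub_C _), Multiset.map_map]
    have : R.map (natDegree ∘ fun a => X - C (a ^ N)) = R.map fun _ => 1 := by
      refine Multiset.map_congr rfl fun a _ => ?_
      rw [Function.comp_apply, natDegree_X_sub_C]
    rw [this, Multiset.map_const', Multiset.sum_replicate, hcard, smul_eq_mul, mul_one]
  -- the characteristic polynomial of the power
  have hroots : (M.map (algebraMap F (AlgebraicClosure F))).charpoly.roots = R.map ι := by
    rw [Matrix.charpoly_map, hM, Polynomial.map_map]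
    have e1 : (algebraMap F (AlgebraicClosure F)).comp (Int.castRingHom F) = Int.castRingHom (AlgebraicClosure F) := RingHom.ext_int _ _
    rw [e1, ← hPι, (IsAlgClosed.splits PQ).roots_map]
    rfl
  have hpow : (M ^ N).charpoly.map (algebraMap F (AlgebraicClosure F)) = QN.map (ι : (AlgebraicClosure ℚ) →+* (AlgebraicClosure F)) := by
    rw [← Matrix.charpoly_map, Matrix.map_pow, charpoly_pow _ hN.ne', hroots, Multiset.map_map, hQN,
      Polynomial.map_multiset_prod, Multiset.map_map]
    congr 1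
    refine Multiset.map_congr rfl fun a _ => ?_
    simp
  have hco : QN.coeff (n - k) = (-1) ^ k * (n.choose k : (AlgebraicClosure ℚ)) * (q : (AlgebraicClosure ℚ)) ^ (N * e) := by
    apply (ι : (AlgebraicClosure ℚ) →+* (AlgebraicClosure F)).injective
    rw [← coeff_map, ← hpow, coeff_map, h]
    simp
  -- the archimedean estimate
  have hrt : ∀ α : ℂ, (QN.map (j : (AlgebraicClosure ℚ) →+* ℂ)).IsRoot α → ∃ a ∈ R, α = j a ^ N := by
    intro α hα
    rw [hQN, Polynomial.map_multiset_prod, Multiset.map_map, IsRoot, eval_multiset_prod, Multiset.map_map,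
      Multiset.prod_eq_zero_iff, Multiset.mem_map] at hα
    obtain ⟨a, ha, h0⟩ := hα
    refine ⟨a, ha, ?_⟩
    simpa [sub_eq_zero] using h0
  have hrP : ∀ a ∈ R, (P.map (Int.castRingHom ℂ)).IsRoot (j a) := by
    intro a ha
    rw [← hPj]
    have h1 : PQ.IsRoot a := (mem_roots hPm.ne_zero).1 ha
    exact h1.map
  have hnorm : ∀ α : ℂ, (QN.map (j : (AlgebraicClosure ℚ) →+* ℂ)).IsRoot α → ‖α‖ ^ 2 = ((q : ℝ) ^ w) ^ N := by
    intro α hα
    obtain ⟨a, ha, rfl⟩ := hrt α hα
    rw [norm_pow, ← pow_mul, mul_comm, pow_mul, weil _ (hrP a ha)]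
  have hcn : ‖(QN.map (j : (AlgebraicClosure ℚ) →+* ℂ)).coeff (n - k)‖ ^ 2 = (n.choose k : ℝ) ^ 2 * ((q : ℝ) ^ (2 * e)) ^ N := by
    rw [coeff_map, hco]
    simp only [map_mul, map_pow, map_neg, map_one, map_natCast, norm_mul, norm_pow, norm_neg, norm_one, one_pow,
      one_mul, Complex.norm_natCast]
    ring
  have hq1 : (1 : ℝ) ≤ q := by exact_mod_cast hq
  have hle := norm_coeff_sq_le (QN.map (j : (AlgebraicClosure ℚ) →+* ℂ)) n k hkn.le (hQNm.map _)
    (by rw [hQNm.natDegree_map, hQNn]) _ hnorm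
  have hle2 : (((q : ℝ) ^ w) ^ N) ^ k ≤ ((q : ℝ) ^ (2 * e)) ^ N := by
    have e1 : (((q : ℝ) ^ w) ^ N) ^ k = ((q : ℝ) ^ (w * k)) ^ N := by ring
    rw [e1]
    exact pow_le_pow_left₀ (by positivity) (pow_le_pow_right₀ hq1 hw) N
  have hch : (0 : ℝ) < (n.choose k : ℝ) ^ 2 := by
    have : 0 < n.choose k := Nat.choose_pos hkn.le
    positivity
  have heq : ‖(QN.map (j : (AlgebraicClosure ℚ) →+* ℂ)).coeff (n - k)‖ ^ 2 = (n.choose k : ℝ) ^ 2 * (((q : ℝ) ^ w) ^ N) ^ k := by
    apply le_antisymm hle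
    rw [hcn]
    exact mul_le_mul_of_nonneg_left hle2 hch.le
  obtain ⟨c, hc⟩ := scalar_of_norm_coeff (QN.map (j : (AlgebraicClosure ℚ) →+* ℂ)) n k hk0 hkn (hQNm.map _)
    (by rw [hQNm.natDegree_map, hQNn]) _ (by positivity) hnorm heq
  have hall : ∀ α : ℂ, (P.map (Int.castRingHom ℂ)).IsRoot α → α ^ N = c := by
    intro α hα
    rw [← hPj] at hα
    have h1 : α ∈ (PQ.map (j : (AlgebraicClosure ℚ) →+* ℂ)).roots := (mem_roots (hPm.map _).ne_zero).2 hα
    rw [(IsAlgClosed.splits PQ).roots_map, Multiset.mem_map] at h1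
    obtain ⟨x, hx, rfl⟩ := h1
    have h2 : (QN.map (j : (AlgebraicClosure ℚ) →+* ℂ)).IsRoot (j x ^ N) := by
      rw [hQN, Polynomial.map_multiset_prod, Multiset.map_map, IsRoot, eval_multiset_prod, Multiset.map_map]
      apply Multiset.prod_eq_zero
      rw [Multiset.mem_map]
      exact ⟨x, hx, by simp⟩
    rw [hc, IsRoot, eval_pow, eval_sub, eval_X, eval_C] at h2
    have h3 := pow_eq_zero_iff (by omega) |>.1 h2
    exact sub_eq_zero.1 h3
  rw [hall a ha, hall b hb]

end Pool.Agent.X320.OP
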