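import Pool.Agent.X320.OP.Minors
import Pool.Agent.X320.OP.Pow
import Pool.Agent.X320.OP.Main
import Pool.Agent.X320.DS.Noeth
import Pool.Agent.X320.DS.Pos

/-! Functions whose translates span a space of small dimension and which take few values. -/

set_option autoImplicit false
set_option linter.all false

namespace Pool.Agent.X320.OP

open MeasureTheory Topology Filter Polynomial NumberField IsDedekindDomain Module
open Pool.Agent.W401.Cheb Pool.Agent.W528.Ord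
open Pool.Agent.W528.Ord.MultSystem (IsDeg1)

section gen

variable {G : Type} [Group G] [TopologicalSpace G] [IsTopologicalGroup G] [CompactSpace G] [T2Space G]
  [MeasurableSpace G] [BorelSpace G] {Ω : Type} [Field Ω] [TopologicalSpace Ω] [T2Space Ω]

theorem dims (μ : Measure G) [IsProbabilityMeasure μ] [μ.IsMulLeftInvariant]
    (A : Subalgebra Ω (G → Ω)) [IsNoetherianRing A] (hcont : ∀ f ∈ A, Continuous f)
    (htr : ∀ g : G, ∀ f ∈ A, (fun x => f (g * x)) ∈ A) (f : G → Ω) (hf : f ∈ A) (χ : G →* Ωˣ)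
    (hχ : (fun x => (χ x : Ω)) ∈ A) (e : ℕ) (W : Submodule Ω (G → Ω)) [FiniteDimensional Ω W]
    (hW : ∀ g, (fun x => f (g * x)) ∈ W) (Y : Finset Ω) {δ : ℝ} (hδ0 : 0 ≤ δ) (hδ1 : δ ≤ 1)
    (hδ : (1 - δ) * (finrank Ω W : ℝ) < 1)
    (hμ : ENNReal.ofReal δ ≤ μ {x | ∃ y ∈ Y, f x = y * (χ x : Ω) ^ e}) :
    ∃ U : Subgroup G, IsOpen (U : Set G) ∧ ∃ c, ∀ u ∈ U, f u = c * (χ u : Ω) ^ e := by
  classical
  set L : G → (G → Ω) := fun g x => f (g * x) with hL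
  have hsW : Submodule.span Ω (Set.range L) ≤ W := Submodule.span_le.2 (by rintro _ ⟨g, rfl⟩; exact hW g)
  haveI : FiniteDimensional Ω (Submodule.span Ω (Set.range L)) := Submodule.finiteDimensional_of_le hsW
  obtain ⟨m, b, hmW, hb1, hb2⟩ : ∃ (m : ℕ) (b : Fin m → (G → Ω)), (m : ℝ) ≤ finrank Ω W ∧
      (∀ i, b i ∈ Set.range L) ∧ Submodule.span Ω (Set.range b) = Submodule.span Ω (Set.range L) := by
    obtain ⟨b, hb1, hb2, -⟩ := Submodule.exists_fun_fin_finrank_span_eq Ω (Set.range L)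
    exact ⟨_, b, by exact_mod_cast Submodule.finrank_mono hsW, hb1, hb2⟩
  choose g hg using hb1
  set C : Set G := {x | ∃ y ∈ Y, f x = y * (χ x : Ω) ^ e} with hC
  have hzc : ∀ F ∈ A, IsClosed {x | F x = 0} := fun F hF => isClosed_eq (hcont F hF) continuous_const
  have hFy : ∀ y : Ω, (fun x => f x - y * (χ x : Ω) ^ e) ∈ A := by
    intro y
    have e1 : (fun x => f x - y * (χ x : Ω) ^ e) = f - y • (fun x => (χ x : Ω)) ^ e := rfl
    rw [e1]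
    exact sub_mem hf (Subalgebra.smul_mem _ (pow_mem hχ e) _)
  have hCcl : IsClosed C := by
    have e1 : C = ⋃ y ∈ Y, {x | (fun x => f x - y * (χ x : Ω) ^ e) x = 0} := by
      ext x
      simp [hC, sub_eq_zero]
    rw [e1]
    exact isClosed_biUnion_finset fun y _ => hzc _ (hFy y)
  set D : Set G := ⋂ i, (fun x => g i * x) ⁻¹' C with hD
  have hDcl : IsClosed D := isClosed_iInter fun i => hCcl.preimage (continuous_const_mul _)
  have hDpos : μ D ≠ 0 := by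
    intro h0
    have h1 : μ Dᶜ ≤ m * ENNReal.ofReal (1 - δ) := by
      have e1 : Dᶜ = ⋃ i, ((fun x => g i * x) ⁻¹' C)ᶜ := by rw [hD, Set.compl_iInter]
      rw [e1]
      refine (measure_iUnion_fintype_le _ _).trans ?_
      have h2 : ∀ i, μ ((fun x => g i * x) ⁻¹' C)ᶜ ≤ ENNReal.ofReal (1 - δ) := by
        intro i
        rw [← Set.preimage_compl, measure_preimage_mul, prob_compl_eq_one_sub hCcl.measurableSet,
          ENNReal.ofReal_sub _ hδ0, ENNReal.ofReal_one]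
        exact tsub_le_tsub_left hμ 1
      refine (Finset.sum_le_sum fun i _ => h2 i).trans ?_
      rw [Finset.sum_const, Finset.card_univ, Fintype.card_fin, nsmul_eq_mul]
    rw [prob_compl_eq_one_sub hDcl.measurableSet, h0, tsub_zero] at h1
    have h2 := (ENNReal.toReal_le_toReal ENNReal.one_ne_top (ENNReal.mul_ne_top (ENNReal.natCast_ne_top _)
      ENNReal.ofReal_ne_top)).2 h1
    rw [ENNReal.toReal_one, ENNReal.toReal_mul, ENNReal.toReal_natCast, ENNReal.toReal_ofReal (by linarith)] at h2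
    have h3 : (m : ℝ) * (1 - δ) ≤ (finrank Ω W : ℝ) * (1 - δ) := mul_le_mul_of_nonneg_right hmW (by linarith)
    nlinarith
  -- pigeonhole
  obtain ⟨y, hy⟩ : ∃ y : Fin m → Y, μ {x | ∀ i, f (g i * x) = (y i : Ω) * (χ (g i * x) : Ω) ^ e} ≠ 0 := by
    by_contra hcon
    push Not at hcon
    apply hDpos
    refine measure_mono_null ?_ ((measure_iUnion_null_iff (μ := μ)
      (s := fun y : Fin m → Y => {x | ∀ i, f (g i * x) = (y i : Ω) * (χ (g i * x) : Ω) ^ e})).2 hcon)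
    intro x hx
    rw [hD, Set.mem_iInter] at hx
    have h1 : ∀ i, ∃ y : Y, f (g i * x) = (y : Ω) * (χ (g i * x) : Ω) ^ e := fun i => by
      obtain ⟨y, hy, h⟩ := hx i
      exact ⟨⟨y, hy⟩, h⟩
    choose y hy using h1
    exact Set.mem_iUnion.2 ⟨y, hy⟩
  obtain ⟨H, hH, x0, hx0⟩ := Pool.Agent.X320.DS.exists_coset μ A hzc htr
    (Set.range fun i : Fin m => fun x => f (g i * x) - (y i : Ω) * (χ (g i * x) : Ω) ^ e)
    (by
      rintro _ ⟨i, rfl⟩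
      exact htr (g i) _ (hFy (y i)))
    (by
      have e1 : {x | ∀ F ∈ Set.range (fun i : Fin m => fun x => f (g i * x) - (y i : Ω) * (χ (g i * x) : Ω) ^ e),
          F x = 0} = {x | ∀ i, f (g i * x) = (y i : Ω) * (χ (g i * x) : Ω) ^ e} := by
        ext x
        simp [sub_eq_zero]
      rw [e1]
      exact hy)
  -- all translates
  have hall : ∀ F ∈ Submodule.span Ω (Set.range L), ∃ c, ∀ h ∈ H, F (h * x0) = c * (χ h : Ω) ^ e := by
    intro F hF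
    rw [← hb2] at hF
    refine Submodule.span_induction (p := fun F _ => ∃ c, ∀ h ∈ H, F (h * x0) = c * (χ h : Ω) ^ e)
      ?_ ?_ ?_ ?_ hF
    · rintro _ ⟨i, rfl⟩
      refine ⟨(y i : Ω) * (χ (g i) : Ω) ^ e * (χ x0 : Ω) ^ e, fun h hh => ?_⟩
      have h1 := hx0 h hh _ ⟨i, rfl⟩
      have h2 : b i (h * x0) = f (g i * (h * x0)) := by rw [← hg i]
      rw [h2, sub_eq_zero.1 h1, map_mul, map_mul, Units.val_mul, Units.val_mul]
      ring
    · exact ⟨0, fun h _ => by simp⟩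
    · rintro a a' _ _ ⟨c, hc⟩ ⟨c', hc'⟩
      exact ⟨c + c', fun h hh => by rw [Pi.add_apply, hc h hh, hc' h hh]; ring⟩
    · rintro a a' _ ⟨c, hc⟩
      exact ⟨a * c, fun h hh => by rw [Pi.smul_apply, hc h hh, smul_eq_mul]; ring⟩
  obtain ⟨c, hc⟩ := hall (L x0⁻¹) (Submodule.subset_span ⟨_, rfl⟩)
  refine ⟨H.comap (MulAut.conj x0).toMonoidHom, ?_, c, fun u hu => ?_⟩
  · rw [Subgroup.coe_comap]
    apply hH.preimage
    change Continuous fun x => x0 * x * x0⁻¹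
    fun_prop
  · have hu' : x0 * u * x0⁻¹ ∈ H := hu
    have h1 := hc _ hu'
    have e1 : L x0⁻¹ (x0 * u * x0⁻¹ * x0) = f u := by
      rw [hL]
      change f (x0⁻¹ * (x0 * u * x0⁻¹ * x0)) = f u
      congr 1
      group
    have e2 : χ (x0 * u * x0⁻¹) = χ u := by
      rw [map_mul, map_mul, map_inv, mul_comm, inv_mul_cancel_left]
    rw [e1, e2] at h1
    exact h1

end gen

section field

variable {K : Type} [Field K] [NumberField K]

theorem measure_ge_freq' [MeasurableSpace (GK K)] [BorelSpace (GK K)] (μ : Measure (GK K))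
    [IsProbabilityMeasure μ] [μ.IsMulLeftInvariant] [μ.Regular]
    {δ : ℝ} (Good : HeightOneSpectrum (𝓞 K) → Prop)
    (hG : ∃ᶠ N in atTop, δ ≤ dens Good N) (H : Set (GK K)) (hH : IsClosed H)
    (hconj : ∀ σ ∈ H, ∀ τ : GK K, τ * σ * τ⁻¹ ∈ H)
    (hX : ∀ v, Good v → ∀ σ, IsFrob v σ → σ ∈ H) : ENNReal.ofReal δ ≤ μ H := by
  refine Pool.Agent.X320.DS.measure_closed μ H hH δ fun U hUn hU => ?_
  haveI := hUn
  have h1 := Pool.Agent.X320.DS.cheb_count_freq Good hG U hU {x | x⁻¹ ∈ H} (fun σ hσ τ => by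
    have e : (τ * σ * τ⁻¹)⁻¹ = τ * σ⁻¹ * τ⁻¹ := by group
    rw [Set.mem_setOf_eq, e]
    exact hconj _ hσ τ) (fun v hv σ hσ => by
    rw [Set.mem_setOf_eq, inv_inv]
    exact hX v hv σ hσ)
  have hinv : ((QuotientGroup.mk : GK K → GK K ⧸ U) '' {x | x⁻¹ ∈ H}).ncard =
      ((QuotientGroup.mk : GK K → GK K ⧸ U) '' H).ncard := by
    have e : (QuotientGroup.mk : GK K → GK K ⧸ U) '' {x | x⁻¹ ∈ H} =
        (fun q : GK K ⧸ U => q⁻¹) '' ((QuotientGroup.mk : GK K → GK K ⧸ U) '' H) := by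
      ext q
      constructor
      · rintro ⟨σ, hσ, rfl⟩
        exact ⟨QuotientGroup.mk σ⁻¹, ⟨σ⁻¹, hσ, rfl⟩, by simp⟩
      · rintro ⟨q', ⟨τ, hτ, rfl⟩, rfl⟩
        exact ⟨τ⁻¹, by rw [Set.mem_setOf_eq, inv_inv]; exact hτ, rfl⟩
    rw [e, Set.ncard_image_of_injective _ inv_injective]
  rwa [hinv] at h1

variable {ℓ : ℕ} [hp : Fact ℓ.Prime]

/-- some Frobenius polynomial has two roots whose quotient is not a root of unity -/
def NotIsoclinic (A : HodgePoint K ℓ) (S : Finset ℕ) : Prop :=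
  ∃ v, IsDeg1 S v ∧ ∀ N : ℕ, 0 < N → ∃ a b : ℂ, ((A.P v).map (Int.castRingHom ℂ)).IsRoot a ∧
    ((A.P v).map (Int.castRingHom ℂ)).IsRoot b ∧ a ^ N ≠ b ^ N

theorem lower {A : HodgePoint K ℓ} {χ : GK K →* ℤ_[ℓ]ˣ} {S : Finset ℕ} (hA : A.IsPoint S)
    (hχc : Continuous fun g : GK K => ((χ g : ℤ_[ℓ]ˣ) : ℤ_[ℓ]))
    (hχ : ∀ v, IsDeg1 S v → ∀ γ, IsFrob v γ → ((χ γ : ℤ_[ℓ]ˣ) : ℤ_[ℓ]) = (Ideal.absNorm v.asIdeal : ℤ_[ℓ]))
    (hns : NotIsoclinic A S) {δ : ℝ} (hδ1 : δ ≤ 1) (hδ : (1 - δ) * ((A.n.choose A.k : ℕ) : ℝ) ^ 2 < 1) :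
    ¬ ∃ᶠ N in atTop, δ ≤ dens (fun v : HeightOneSpectrum (𝓞 K) => IsDeg1 S v ∧ ¬ A.Meets v) N := by
  classical
  intro hfreq
  letI : MeasurableSpace (GK K) := borel _
  haveI : BorelSpace (GK K) := ⟨rfl⟩
  set μ : Measure (GK K) := Measure.haarMeasure (⊤ : TopologicalSpace.PositiveCompacts (GK K)) with hμ
  haveI : IsProbabilityMeasure μ := ⟨by
    have := Measure.haarMeasure_self (K₀ := (⊤ : TopologicalSpace.PositiveCompacts (GK K)))
    rw [hμ]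
    rwa [TopologicalSpace.PositiveCompacts.coe_top] at this⟩
  have hkn := hA.k_lt
  set ρ : Unit → (GK K →* Matrix.GeneralLinearGroup (Fin A.n) ℤ_[ℓ]) := fun _ => A.ρ with hρ
  haveI : Finite (GK K ⧸ (⊤ : Subgroup (GK K))) := inferInstance
  set 𝒜 := alg ρ χ (⊤ : Subgroup (GK K)) with h𝒜
  haveI := noeth ρ χ (⊤ : Subgroup (GK K))
  let M : GK K → Matrix (Fin A.n) (Fin A.n) ℚ_[ℓ] := fun g =>
    (A.ρ g : Matrix (Fin A.n) (Fin A.n) ℤ_[ℓ]).map (algebraMap ℤ_[ℓ] ℚ_[ℓ])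
  have hM : ∀ x y, M (x * y) = M x * M y := by
    intro x y
    change (A.ρ (x * y) : Matrix (Fin A.n) (Fin A.n) ℤ_[ℓ]).map (algebraMap ℤ_[ℓ] ℚ_[ℓ]) = _
    rw [map_mul, Units.val_mul, Matrix.map_mul]
  let f : GK K → ℚ_[ℓ] := fun g => (M g).charpoly.coeff (A.n - A.k)
  have hf : f ∈ 𝒜 := coeff_mem 𝒜 M
    (fun a b => Algebra.subset_adjoin (s := Gen ρ χ (⊤ : Subgroup (GK K))) (Or.inl (Or.inl ⟨(), a, b, rfl⟩))) _
  let χ' : GK K →* ℚ_[ℓ]ˣ := (Units.map (algebraMap ℤ_[ℓ] ℚ_[ℓ]).toMonoidHom).comp χ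
  have hχ' : (fun x => (χ' x : ℚ_[ℓ])) ∈ 𝒜 :=
    Algebra.subset_adjoin (s := Gen ρ χ (⊤ : Subgroup (GK K))) (Or.inl (Or.inr rfl))
  have hcont : ∀ F ∈ 𝒜, Continuous F := cont_mem ρ χ ⊤ isOpen_univ (fun _ => hA.cont) hχc
  set W : Submodule ℚ_[ℓ] (GK K → ℚ_[ℓ]) := Submodule.span ℚ_[ℓ] (Set.range fun s : Sub A.n A.k × Sub A.n A.k =>
      fun x => ((M x).submatrix (s.1.1.orderEmbOfFin s.1.2) (s.2.1.orderEmbOfFin s.2.2)).det) with hW
  haveI : FiniteDimensional ℚ_[ℓ] W := FiniteDimensional.span_of_finite _ (Set.finite_range _)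
  have hWr : (finrank ℚ_[ℓ] W : ℝ) ≤ ((A.n.choose A.k : ℕ) : ℝ) ^ 2 := by
    have h1 : finrank ℚ_[ℓ] W ≤ (A.n.choose A.k) ^ 2 := by
      refine (finrank_range_le_card _).trans (le_of_eq ?_)
      rw [Fintype.card_prod, card_Sub, sq]
    exact_mod_cast h1
  set B : ℤ := ((A.n.choose A.k : ℕ) : ℤ) with hB
  set Y : Finset ℚ_[ℓ] := (Finset.Icc (-B) B).image fun y : ℤ => (y : ℚ_[ℓ]) with hY
  set C : Set (GK K) := {x | ∃ y ∈ Y, f x = y * (χ' x : ℚ_[ℓ]) ^ (A.h + 1)} with hC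
  have hfconj : ∀ σ τ, f (τ * σ * τ⁻¹) = f σ := by
    intro σ τ
    change (M (τ * σ * τ⁻¹)).charpoly.coeff _ = (M σ).charpoly.coeff _
    have h1 : (A.ρ (τ * σ * τ⁻¹) : Matrix (Fin A.n) (Fin A.n) ℤ_[ℓ]).charpoly =
        (A.ρ σ : Matrix (Fin A.n) (Fin A.n) ℤ_[ℓ]).charpoly := by
      have h : (A.ρ (τ * σ * τ⁻¹) : Matrix (Fin A.n) (Fin A.n) ℤ_[ℓ]) =
          (A.ρ τ).val * (A.ρ σ).val * (A.ρ τ)⁻¹.val := by
        rw [map_mul, map_mul, map_inv, Units.val_mul, Units.val_mul]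
      rw [h, Matrix.coe_units_inv, Matrix.charpoly_units_conj]
    change ((A.ρ (τ * σ * τ⁻¹) : Matrix (Fin A.n) (Fin A.n) ℤ_[ℓ]).map (algebraMap ℤ_[ℓ] ℚ_[ℓ])).charpoly.coeff _ =
      ((A.ρ σ : Matrix (Fin A.n) (Fin A.n) ℤ_[ℓ]).map (algebraMap ℤ_[ℓ] ℚ_[ℓ])).charpoly.coeff _
    rw [Matrix.charpoly_map, Matrix.charpoly_map, h1]
  have hfrobf : ∀ v, IsDeg1 S v → ∀ γ, IsFrob v γ → f γ = (((A.P v).coeff (A.n - A.k) : ℤ) : ℚ_[ℓ]) := by
    intro v hv γ hγ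
    change ((A.ρ γ : Matrix (Fin A.n) (Fin A.n) ℤ_[ℓ]).map (algebraMap ℤ_[ℓ] ℚ_[ℓ])).charpoly.coeff _ = _
    rw [Matrix.charpoly_map, hA.compat v hv γ hγ, coeff_map, coeff_map, eq_intCast, map_intCast]
  have hfrobχ : ∀ v, IsDeg1 S v → ∀ γ, IsFrob v γ → (χ' γ : ℚ_[ℓ]) = (Ideal.absNorm v.asIdeal : ℚ_[ℓ]) := by
    intro v hv γ hγ
    change algebraMap ℤ_[ℓ] ℚ_[ℓ] ((χ γ : ℤ_[ℓ]ˣ) : ℤ_[ℓ]) = _
    rw [hχ v hv γ hγ, map_natCast]
  have hCcl : IsClosed C := by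
    have e1 : C = ⋃ y ∈ Y, {x | f x = y * (χ' x : ℚ_[ℓ]) ^ (A.h + 1)} := by
      ext x
      simp [hC]
    rw [e1]
    exact isClosed_biUnion_finset fun y _ => isClosed_eq (hcont f hf)
      (continuous_const.mul ((hcont _ hχ').pow _))
  have hCconj : ∀ σ ∈ C, ∀ τ : GK K, τ * σ * τ⁻¹ ∈ C := by
    rintro σ ⟨y, hy, h⟩ τ
    refine ⟨y, hy, ?_⟩
    have e2 : χ' (τ * σ * τ⁻¹) = χ' σ := by
      rw [map_mul, map_mul, map_inv, mul_comm, inv_mul_cancel_left]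
    rw [hfconj, e2]
    exact h
  have hbadC : ∀ v, (IsDeg1 S v ∧ ¬ A.Meets v) → ∀ σ, IsFrob v σ → σ ∈ C := by
    rintro v ⟨hv, hbad⟩ σ hσ
    have h1 : (Ideal.absNorm v.asIdeal : ℤ) ^ (A.h + 1) ∣ (A.P v).coeff (A.n - A.k) := by
      by_contra hcon
      exact hbad ⟨hA.mazur v hv, hcon⟩
    obtain ⟨y, hy⟩ := h1
    have hbd := norm_coeff_sq_le ((A.P v).map (Int.castRingHom ℂ)) A.n A.k hkn.le
      ((hA.monic v hv).1.map _) (by rw [(hA.monic v hv).1.natDegree_map, (hA.monic v hv).2])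
      ((Ideal.absNorm v.asIdeal : ℝ) ^ A.w) (hA.weil v hv)
    rw [coeff_map, eq_intCast, Complex.norm_intCast, sq_abs, ← pow_mul, hy] at hbd
    have hq1 : (1 : ℝ) ≤ (Ideal.absNorm v.asIdeal : ℝ) := by exact_mod_cast hv.1.one_le
    have h2 : (Ideal.absNorm v.asIdeal : ℝ) ^ (A.w * A.k) ≤ ((Ideal.absNorm v.asIdeal : ℝ) ^ (A.h + 1)) ^ 2 := by
      rw [← pow_mul]
      exact pow_le_pow_right₀ hq1 (by have := hA.depth.2; omega)
    have hq0 : (0 : ℝ) < ((Ideal.absNorm v.asIdeal : ℝ) ^ (A.h + 1)) ^ 2 := by positivity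
    have h3 : ((y : ℝ)) ^ 2 ≤ ((A.n.choose A.k : ℕ) : ℝ) ^ 2 := by
      push_cast at hbd
      rw [mul_pow] at hbd
      have h4 : ((Ideal.absNorm v.asIdeal : ℝ) ^ (A.h + 1)) ^ 2 * (y : ℝ) ^ 2 ≤
          ((Ideal.absNorm v.asIdeal : ℝ) ^ (A.h + 1)) ^ 2 * ((A.n.choose A.k : ℕ) : ℝ) ^ 2 := by
        refine hbd.trans ?_
        rw [mul_comm (((Ideal.absNorm v.asIdeal : ℝ) ^ (A.h + 1)) ^ 2) (((A.n.choose A.k : ℕ) : ℝ) ^ 2)]
        exact mul_le_mul_of_nonneg_left h2 (by positivity)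
      exact le_of_mul_le_mul_left h4 hq0
    have h5 : |(y : ℝ)| ≤ ((A.n.choose A.k : ℕ) : ℝ) := abs_le_of_sq_le_sq h3 (Nat.cast_nonneg _)
    have h6 : |y| ≤ B := by
      rw [hB]
      exact_mod_cast h5
    refine ⟨(y : ℚ_[ℓ]), Finset.mem_image.2 ⟨y, Finset.mem_Icc.2 (abs_le.1 h6), rfl⟩, ?_⟩
    rw [hfrobf v hv σ hσ, hfrobχ v hv σ hσ, hy]
    push_cast
    ring
  have hδ0 : 0 ≤ δ := by
    by_contra hneg
    push Not at hneg
    have h1 : (1 : ℝ) ≤ ((A.n.choose A.k : ℕ) : ℝ) ^ 2 := by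
      have : 1 ≤ A.n.choose A.k := Nat.choose_pos hkn.le
      have h2 : (1 : ℝ) ≤ ((A.n.choose A.k : ℕ) : ℝ) := by exact_mod_cast this
      nlinarith
    nlinarith
  have hμC := measure_ge_freq' μ _ hfreq C hCcl hCconj hbadC
  obtain ⟨U, hU, c, hc⟩ := dims μ 𝒜 hcont (trans_mem ρ χ ⊤) f hf χ' hχ' (A.h + 1) W
    (fun g => translates hkn.le M hM g) Y hδ0 hδ1
    (lt_of_le_of_lt (mul_le_mul_of_nonneg_left hWr (by linarith)) hδ) hμC
  -- the constant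
  have hM1 : M 1 = 1 := by
    change (A.ρ 1 : Matrix (Fin A.n) (Fin A.n) ℤ_[ℓ]).map (algebraMap ℤ_[ℓ] ℚ_[ℓ]) = 1
    rw [map_one, Units.val_one]
    exact Matrix.map_one _ (map_zero _) (map_one _)
  have hc1 : c = (-1) ^ A.k * (A.n.choose A.k : ℚ_[ℓ]) := by
    have h1 := hc 1 U.one_mem
    rw [map_one, Units.val_one, one_pow, mul_one] at h1
    rw [← h1]
    change (M 1).charpoly.coeff (A.n - A.k) = _
    rw [hM1, Matrix.charpoly_one, Fintype.card_fin,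
      show (X - 1 : Polynomial ℚ_[ℓ]) = X + Polynomial.C (-1) by rw [C_neg, C_1, sub_eq_add_neg], coeff_X_add_C_pow,
      Nat.choose_symm hkn.le]
    congr 2
    omega
  -- the contradiction
  obtain ⟨v, hv, hroots⟩ := hns
  obtain ⟨γ, hγ⟩ := exists_isFrob v
  haveI : Finite (GK K ⧸ U) := Subgroup.quotient_finite_of_isOpen _ hU
  obtain ⟨N, hN, hNU⟩ := Subgroup.exists_pow_mem_of_index_ne_zero (H := U) (Subgroup.index_ne_zero_of_finite) γ
  obtain ⟨a, b, ha, hb, hab⟩ := hroots N (by omega)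
  apply hab
  have hMN : ∀ j : ℕ, M (γ ^ j) = M γ ^ j := by
    intro j
    induction j with
    | zero => rw [pow_zero, pow_zero, hM1]
    | succ j ih => rw [pow_succ, pow_succ, hM, ih]
  refine isoclinic (M γ) (A.P v) (hA.monic v hv).1 (hA.monic v hv).2 ?_ hA.k_pos hkn hv.1.pos (w := A.w)
    (e := A.h + 1) (by have := hA.depth.2; omega) (hA.weil v hv) (by omega : 0 < N) ?_ a b ha hb
  · change ((A.ρ γ : Matrix (Fin A.n) (Fin A.n) ℤ_[ℓ]).map (algebraMap ℤ_[ℓ] ℚ_[ℓ])).charpoly = _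
    rw [Matrix.charpoly_map, hA.compat v hv γ hγ, Polynomial.map_map]
    congr 1
  · have h1 := hc (γ ^ N) hNU.2
    change (M (γ ^ N)).charpoly.coeff (A.n - A.k) = _ at h1
    rw [hMN, map_pow, Units.val_pow_eq_pow_val, hfrobχ v hv γ hγ, ← pow_mul, hc1] at h1
    exact h1

end field

end Pool.Agent.X320.OP
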