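import Mathlib

/-! The functional equation of a polynomial with real coefficients all of whose roots have the same absolute value. -/

set_option autoImplicit false
set_option linter.all false

namespace Pool.Agent.X320.OP

open Polynomial

/-- the functional equation -/
theorem func_eq (f : ℂ[X]) (n : ℕ) (hm : f.Monic) (hn : f.natDegree = n) (Q : ℝ)
    (hreal : f.map (starRingEnd ℂ) = f) (hroot : ∀ a : ℂ, f.IsRoot a → ‖a‖ ^ 2 = Q) (k : ℕ) (hk : k ≤ n) :
    f.coeff (n - k) * (Q : ℂ) ^ (n - k) = f.coeff 0 * f.coeff k := by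
  classical
  have hcard : Multiset.card f.roots = n := by
    rw [← hn]
    exact splits_iff_card_roots.1 (IsAlgClosed.splits f)
  have hprod : f = (f.roots.map fun y => X - C y).prod := by
    conv_lhs => rw [(IsAlgClosed.splits f).eq_prod_roots, hm.leadingCoeff, C_1, one_mul]
  have hconj : (f.roots.map (starRingEnd ℂ)) = f.roots := by
    have h1 := Splits.roots_map (IsAlgClosed.splits f) (starRingEnd ℂ)
    rw [hreal] at h1
    exact h1.symm
  -- the polynomial `∏ (Q - a X)`
  have hG : ((f.roots.map fun y => C (Q : ℂ) - C y * X).prod : ℂ[X]) = C (f.coeff 0) * f := by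
    have h1 : (f.roots.map fun y => (C (Q : ℂ) - C y * X : ℂ[X])) =
        f.roots.map fun y => C (-y) * (X - C ((starRingEnd ℂ) y)) := by
      refine Multiset.map_congr rfl fun y hy => ?_
      have h2 := hroot y (isRoot_of_mem_roots hy)
      have h3 : (Q : ℂ) = y * (starRingEnd ℂ) y := by
        rw [Complex.mul_conj, Complex.normSq_eq_norm_sq, h2]
      rw [h3, C_mul, C_neg]
      ring
    rw [h1, Multiset.prod_map_mul]
    have h2 : (f.roots.map fun y => (X - C ((starRingEnd ℂ) y) : ℂ[X])).prod = f := by
      have h3 : (f.roots.map fun y => (X - C ((starRingEnd ℂ) y) : ℂ[X])) =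
          (f.roots.map (starRingEnd ℂ)).map fun y => X - C y := by
        rw [Multiset.map_map]
        rfl
      rw [h3, hconj]
      exact hprod.symm
    rw [h2]
    congr 1
    have h4 : f.coeff 0 = (f.roots.map fun y => -y).prod := by
      conv_lhs => rw [hprod]
      rw [coeff_zero_eq_eval_zero, eval_multiset_prod, Multiset.map_map]
      congr 1
      refine Multiset.map_congr rfl fun y _ => ?_
      simp
    rw [h4]
    have h5 := map_multiset_prod (C : ℂ →+* ℂ[X]) (f.roots.map fun y => -y)
    rw [h5, Multiset.map_map]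
    rfl
  -- the polynomial `X ^ n f (Q / X)`
  have hH : ((f.roots.map fun y => C (Q : ℂ) - C y * X).prod : ℂ[X]) =
      ∑ i ∈ Finset.range (n + 1), C (f.coeff i * (Q : ℂ) ^ i) * X ^ (n - i) := by
    apply eq_of_infinite_eval_eq
    apply Set.Infinite.mono (s := {x : ℂ | x ≠ 0})
    · intro t ht
      have ht : t ≠ 0 := ht
      rw [Set.mem_setOf_eq]
      have e1 : eval t ((f.roots.map fun y => (C (Q : ℂ) - C y * X : ℂ[X])).prod) = t ^ n * eval (Q / t) f := by
        conv_rhs => rw [hprod]
        rw [eval_multiset_prod, eval_multiset_prod, Multiset.map_map, Multiset.map_map]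
        have e2 : t ^ n = (f.roots.map fun _ => t).prod := by
          rw [Multiset.map_const', Multiset.prod_replicate, hcard]
        rw [e2, ← Multiset.prod_map_mul]
        congr 1
        refine Multiset.map_congr rfl fun y _ => ?_
        simp only [Function.comp_apply, eval_sub, eval_C, eval_mul, eval_X]
        field_simp
      rw [e1, eval_eq_sum_range, hn, Finset.mul_sum, eval_finset_sum]
      refine Finset.sum_congr rfl fun i hi => ?_
      rw [Finset.mem_range] at hi
      rw [eval_mul, eval_C, eval_pow, eval_X, div_pow]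
      have e3 : t ^ n = t ^ (n - i) * t ^ i := by
        rw [← pow_add]
        congr 1
        omega
      rw [e3]
      have := pow_ne_zero i ht
      field_simp
    · exact (Set.finite_singleton (0 : ℂ)).infinite_compl
  rw [hG] at hH
  have h6 := congrArg (fun P : ℂ[X] => P.coeff k) hH
  simp only [coeff_C_mul, finset_sum_coeff, coeff_X_pow] at h6
  rw [h6, Finset.sum_eq_single (n - k)]
  · rw [if_pos (by omega), mul_one]
  · intro i hi hne
    rw [Finset.mem_range] at hi
    rw [if_neg (by omega), mul_zero]
  · intro h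
    exact absurd (Finset.mem_range.2 (by omega)) h

/-- the functional equation for integral polynomials -/
theorem func_eq_int (f : ℤ[X]) (n : ℕ) (hm : f.Monic) (hn : f.natDegree = n) (q w : ℕ)
    (hroot : ∀ a : ℂ, (f.map (Int.castRingHom ℂ)).IsRoot a → ‖a‖ ^ 2 = (q : ℝ) ^ w) :
    (∀ k ≤ n, f.coeff (n - k) * (q : ℤ) ^ (w * (n - k)) = f.coeff 0 * f.coeff k) ∧
      f.coeff 0 ^ 2 = (q : ℤ) ^ (w * n) := by
  have hn' : (f.map (Int.castRingHom ℂ)).natDegree = n := by rw [hm.natDegree_map, hn]
  have hreal : (f.map (Int.castRingHom ℂ)).map (starRingEnd ℂ) = f.map (Int.castRingHom ℂ) := by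
    rw [Polynomial.map_map]
    congr 1
    exact RingHom.ext_int _ _
  have key : ∀ k ≤ n, f.coeff (n - k) * (q : ℤ) ^ (w * (n - k)) = f.coeff 0 * f.coeff k := by
    intro k hk
    have h1 := func_eq (f.map (Int.castRingHom ℂ)) n (hm.map _) hn' ((q : ℝ) ^ w) hreal hroot k hk
    rw [coeff_map, coeff_map, coeff_map] at h1
    simp only [eq_intCast, Complex.ofReal_pow, Complex.ofReal_natCast] at h1
    rw [← pow_mul] at h1
    exact_mod_cast h1
  refine ⟨key, ?_⟩
  have h1 := key n le_rfl
  rw [Nat.sub_self, Nat.mul_zero, pow_zero, mul_one] at h1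
  have h2 := key 0 (Nat.zero_le n)
  rw [Nat.sub_zero] at h2
  have h3 : f.coeff n = 1 := by
    rw [← hn]
    exact hm.coeff_natDegree
  rw [h3, one_mul] at h2
  rw [sq, h2]

end Pool.Agent.X320.OP
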