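import Mathlib

/-! Sequences `φ ((1 + ℓ Y) ^ k)`: if such a sequence vanishes at all multiples of `N` it vanishes. (The Zariski
closure of a group of matrices congruent to `1` modulo an odd prime `ℓ` is connected.) -/

set_option autoImplicit false

namespace Pool.Agent.X320.OP

open Polynomial

variable {ℓ : ℕ} [hp : Fact ℓ.Prime]

theorem isUnit_natCast {u : ℕ} (h : ¬ ℓ ∣ u) : IsUnit (u : ℤ_[ℓ]) := by
  rw [PadicInt.isUnit_iff]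
  have h1 : ‖((u : ℤ) : ℤ_[ℓ])‖ = 1 := by
    by_contra hne
    have h2 : ‖((u : ℤ) : ℤ_[ℓ])‖ < 1 := lt_of_le_of_ne (PadicInt.norm_le_one _) hne
    rw [PadicInt.norm_int_lt_one_iff_dvd] at h2
    exact h (by exact_mod_cast h2)
  simpa using h1

theorem pow_gt (hℓ : ℓ ≠ 2) (v : ℕ) : v + 1 ≤ ℓ ^ v ∧ (1 ≤ v → v + 2 ≤ ℓ ^ v) := by
  have h3 : 3 ≤ ℓ := by
    have := hp.out.two_le
    omega
  induction v with
  | zero => simp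
  | succ v ih =>
    obtain ⟨h1, h2⟩ := ih
    have h4 : ℓ ^ (v + 1) = ℓ ^ v * ℓ := pow_succ _ _
    have h5 : (v + 1) * 3 ≤ ℓ ^ v * ℓ := Nat.mul_le_mul h1 h3
    constructor
    · rw [h4]; omega
    · intro _
      rw [h4]; omega

theorem dvd_choose (hℓ : ℓ ≠ 2) (N j : ℕ) (hj : 2 ≤ j) :
    ((N : ℤ_[ℓ]) * (ℓ : ℤ_[ℓ]) ^ 2) ∣ ((N.choose j : ℕ) : ℤ_[ℓ]) * (ℓ : ℤ_[ℓ]) ^ j := by
  rcases Nat.eq_zero_or_pos N with h0 | hN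
  · subst h0
    rw [Nat.choose_eq_zero_of_lt (by omega)]
    simp
  obtain ⟨n, rfl⟩ : ∃ n, N = n + 1 := ⟨N - 1, by omega⟩
  obtain ⟨i, rfl⟩ : ∃ i, j = i + 1 := ⟨j - 1, by omega⟩
  obtain ⟨v, u, hu, hju⟩ := Nat.exists_eq_pow_mul_and_not_dvd (n := i + 1) (by omega) ℓ hp.out.ne_one
  have hv : v + 2 ≤ i + 1 := by
    have hu0 : 0 < u := by
      rcases Nat.eq_zero_or_pos u with h | h
      · subst h; simp at hju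
      · exact h
    have h1 : ℓ ^ v ≤ i + 1 := by
      rw [hju]
      exact Nat.le_mul_of_pos_right _ hu0
    rcases Nat.eq_zero_or_pos v with h | h
    · omega
    · have := (pow_gt (ℓ := ℓ) hℓ v).2 h
      omega
  have h1 : (n + 1) * n.choose i = (n + 1).choose (i + 1) * (ℓ ^ v * u) := by
    rw [← hju]
    exact Nat.add_one_mul_choose_eq n i
  have h2 : ((n + 1 : ℕ) : ℤ_[ℓ]) * ((n.choose i : ℕ) : ℤ_[ℓ]) =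
      (((n + 1).choose (i + 1) : ℕ) : ℤ_[ℓ]) * ((ℓ : ℤ_[ℓ]) ^ v * (u : ℤ_[ℓ])) := by exact_mod_cast congrArg (Nat.cast : ℕ → ℤ_[ℓ]) h1
  have hun := isUnit_natCast (ℓ := ℓ) hu
  have hl0 : (ℓ : ℤ_[ℓ]) ≠ 0 := by exact_mod_cast hp.out.ne_zero
  obtain ⟨m, hm⟩ : ∃ m, i + 1 = v + 2 + m := ⟨i + 1 - (v + 2), by omega⟩
  have h3 : (u : ℤ_[ℓ]) * ((((n + 1).choose (i + 1) : ℕ) : ℤ_[ℓ]) * (ℓ : ℤ_[ℓ]) ^ (i + 1)) =
      (((n + 1 : ℕ) : ℤ_[ℓ]) * (ℓ : ℤ_[ℓ]) ^ 2) * (((n.choose i : ℕ) : ℤ_[ℓ]) * (ℓ : ℤ_[ℓ]) ^ m) := by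
    have h4 : (u : ℤ_[ℓ]) * ((((n + 1).choose (i + 1) : ℕ) : ℤ_[ℓ]) * (ℓ : ℤ_[ℓ]) ^ (i + 1)) =
        ((((n + 1).choose (i + 1) : ℕ) : ℤ_[ℓ]) * ((ℓ : ℤ_[ℓ]) ^ v * (u : ℤ_[ℓ]))) * (ℓ : ℤ_[ℓ]) ^ (2 + m) := by
      rw [hm]
      ring
    rw [h4, ← h2]
    ring
  have h5 : ((n + 1 : ℕ) : ℤ_[ℓ]) * (ℓ : ℤ_[ℓ]) ^ 2 ∣
      (u : ℤ_[ℓ]) * ((((n + 1).choose (i + 1) : ℕ) : ℤ_[ℓ]) * (ℓ : ℤ_[ℓ]) ^ (i + 1)) := ⟨_, h3⟩
  exact (hun.dvd_mul_left).1 h5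

/-- the polynomial `1 + ℓ X` -/
noncomputable def B : ℤ_[ℓ][X] := 1 + C (ℓ : ℤ_[ℓ]) * X

theorem exists_G (hℓ : ℓ ≠ 2) (N : ℕ) : ∃ G : ℤ_[ℓ][X],
    (B : ℤ_[ℓ][X]) ^ N = 1 + C ((N : ℤ_[ℓ]) * ℓ) * (X + C (ℓ : ℤ_[ℓ]) * G) := by
  choose g hg using fun j : ℕ => fun hj : 2 ≤ j => dvd_choose (ℓ := ℓ) hℓ N j hj
  refine ⟨∑ j ∈ Finset.range (N + 1), if hj : 2 ≤ j then C (g j hj) * X ^ j else 0, ?_⟩
  have h1 : (B : ℤ_[ℓ][X]) ^ N = ∑ j ∈ Finset.range (N + 1), C (((N.choose j : ℕ) : ℤ_[ℓ]) * (ℓ : ℤ_[ℓ]) ^ j) * X ^ j := by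
    unfold B
    rw [add_comm, add_pow]
    apply Finset.sum_congr rfl
    intro j _
    rw [one_pow, mul_one, mul_pow, C_mul, C_pow, C_eq_natCast]
    simp only [map_natCast]
    ring
  rw [h1]
  have h2 : ∀ j, C (((N.choose j : ℕ) : ℤ_[ℓ]) * (ℓ : ℤ_[ℓ]) ^ j) * X ^ j =
      (if j = 0 then (1 : ℤ_[ℓ][X]) else 0) + (if j = 1 then C ((N : ℤ_[ℓ]) * ℓ) * X else 0) +
      C ((N : ℤ_[ℓ]) * ℓ) * (C (ℓ : ℤ_[ℓ]) * (if hj : 2 ≤ j then C (g j hj) * X ^ j else 0)) := by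
    intro j
    rcases Nat.lt_or_ge j 2 with h | h
    · interval_cases j
      · simp
      · simp
    · rw [if_neg (by omega), if_neg (by omega), dif_pos h, hg j h]
      simp only [C_mul, C_pow]
      ring
  rw [Finset.sum_congr rfl fun j _ => h2 j, Finset.sum_add_distrib, Finset.sum_add_distrib, ← Finset.mul_sum,
    ← Finset.mul_sum]
  rw [Finset.sum_ite_eq' (Finset.range (N + 1)) 0 (fun _ => (1 : ℤ_[ℓ][X])), if_pos (by simp)]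
  rcases Nat.eq_zero_or_pos N with h0 | hN
  · subst h0
    simp
  · rw [Finset.sum_ite_eq' (Finset.range (N + 1)) 1 (fun _ => C ((N : ℤ_[ℓ]) * ℓ) * (X : ℤ_[ℓ][X])),
      if_pos (by simp [hN])]
    ring

/-- an element of `ℤ_ℓ` divisible by all powers of `ℓ` is zero -/
theorem eq_zero_of_dvd {x : ℤ_[ℓ]} (h : ∀ t : ℕ, (ℓ : ℤ_[ℓ]) ^ t ∣ x) : x = 0 := by
  by_contra hx
  have h1 : ∀ t : ℕ, ‖x‖ ≤ (ℓ : ℝ) ^ (-(t : ℤ)) := fun t =>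
    (PadicInt.norm_le_pow_iff_mem_span_pow x t).2 (Ideal.mem_span_singleton.2 (h t))
  have h2 : 0 < ‖x‖ := norm_pos_iff.2 hx
  have h3 : (1 : ℝ) < ℓ := by exact_mod_cast hp.out.one_lt
  obtain ⟨t, ht⟩ := exists_pow_lt_of_lt_one h2 (inv_lt_one_of_one_lt₀ h3)
  have h4 := h1 t
  rw [zpow_neg, zpow_natCast, ← inv_pow] at h4
  linarith

variable (ℓ) in
/-- the elements `b` for which some nonzero multiple is a polynomial in `(1 + ℓ X) ^ N` -/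
noncomputable def Sat (N : ℕ) : Subalgebra ℤ_[ℓ] ℤ_[ℓ][X] where
  carrier := {b | ∃ d : ℤ_[ℓ], d ≠ 0 ∧ d • b ∈ Algebra.adjoin ℤ_[ℓ] {(B : ℤ_[ℓ][X]) ^ N}}
  mul_mem' := by
    rintro a b ⟨d, hd, ha⟩ ⟨e, he, hb⟩
    refine ⟨d * e, mul_ne_zero hd he, ?_⟩
    have : (d * e) • (a * b) = (d • a) * (e • b) := by
      rw [smul_mul_smul_comm]
    rw [this]
    exact mul_mem ha hb
  add_mem' := by
    rintro a b ⟨d, hd, ha⟩ ⟨e, he, hb⟩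
    refine ⟨d * e, mul_ne_zero hd he, ?_⟩
    have : (d * e) • (a + b) = e • (d • a) + d • (e • b) := by
      rw [smul_add, smul_smul, smul_smul, mul_comm e d]
    rw [this]
    exact add_mem (Subalgebra.smul_mem _ ha e) (Subalgebra.smul_mem _ hb d)
  algebraMap_mem' := fun r => ⟨1, one_ne_zero, by
    rw [one_smul]
    exact Subalgebra.algebraMap_mem _ r⟩

theorem mem_Sat {N : ℕ} {b : ℤ_[ℓ][X]} : b ∈ Sat ℓ N ↔ ∃ d : ℤ_[ℓ], d ≠ 0 ∧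
    d • b ∈ Algebra.adjoin ℤ_[ℓ] {(B : ℤ_[ℓ][X]) ^ N} := Iff.rfl

theorem Sat_zero {N : ℕ} (φ : ℤ_[ℓ][X] →ₗ[ℤ_[ℓ]] ℤ_[ℓ]) (h : ∀ k, φ ((B : ℤ_[ℓ][X]) ^ (N * k)) = 0)
    {b : ℤ_[ℓ][X]} (hb : b ∈ Sat ℓ N) : φ b = 0 := by
  obtain ⟨d, hd, hb⟩ := mem_Sat.1 hb
  rw [Algebra.adjoin_singleton_eq_range_aeval] at hb
  obtain ⟨p, hpp⟩ := hb
  have h1 : φ (d • b) = 0 := by
    rw [← hpp]
    change φ (aeval ((B : ℤ_[ℓ][X]) ^ N) p) = 0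
    rw [aeval_eq_sum_range, map_sum]
    apply Finset.sum_eq_zero
    intro k _
    rw [map_smul, ← pow_mul, h k, smul_zero]
  rw [map_smul, smul_eq_mul] at h1
  exact (mul_eq_zero.1 h1).resolve_left hd

theorem approx (hℓ : ℓ ≠ 2) {N : ℕ} (hN : 0 < N) (t : ℕ) : ∃ b ∈ Sat ℓ N, ∃ z : ℤ_[ℓ][X],
    (X : ℤ_[ℓ][X]) = b + C ((ℓ : ℤ_[ℓ]) ^ t) * z := by
  obtain ⟨G, hG⟩ := exists_G (ℓ := ℓ) hℓ N
  have hc : (X + C (ℓ : ℤ_[ℓ]) * G : ℤ_[ℓ][X]) ∈ Sat ℓ N := by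
    refine ⟨(N : ℤ_[ℓ]) * ℓ, mul_ne_zero (by exact_mod_cast hN.ne') (by exact_mod_cast hp.out.ne_zero), ?_⟩
    have : ((N : ℤ_[ℓ]) * ℓ) • (X + C (ℓ : ℤ_[ℓ]) * G : ℤ_[ℓ][X]) = (B : ℤ_[ℓ][X]) ^ N - 1 := by
      rw [hG, Polynomial.smul_eq_C_mul]
      ring
    rw [this]
    exact sub_mem (Algebra.subset_adjoin rfl) (one_mem _)
  induction t with
  | zero => exact ⟨0, zero_mem _, X, by simp⟩
  | succ t ih =>
    obtain ⟨b, hb, z, hz⟩ := ih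
    have h1 : (X : ℤ_[ℓ][X]) - b ∣ (G.map C).eval X - (G.map C).eval b := sub_dvd_eval_sub X b (G.map C)
    obtain ⟨y, hy⟩ := h1
    have h2 : (G.map C).eval (X : ℤ_[ℓ][X]) = G := by
      rw [eval_map, ← comp, comp_X]
    have h3 : (G.map C).eval b ∈ Sat ℓ N := by
      rw [eval_map]
      have : eval₂ C b G = aeval b G := rfl
      rw [this]
      have h9 := ((aeval (⟨b, hb⟩ : Sat ℓ N)) G).2
      rwa [← Subalgebra.aeval_coe] at h9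
    have h4 : (X : ℤ_[ℓ][X]) - b = C ((ℓ : ℤ_[ℓ]) ^ t) * z := by
      rw [hz]
      conv_lhs => rw [← hz]
      rw [hz]
      ring
    refine ⟨(X + C (ℓ : ℤ_[ℓ]) * G) - C (ℓ : ℤ_[ℓ]) * (G.map C).eval b,
      sub_mem hc (mul_mem (Subalgebra.algebraMap_mem _ (ℓ : ℤ_[ℓ])) h3), -(z * y), ?_⟩
    have h5 : G = (G.map C).eval b + C ((ℓ : ℤ_[ℓ]) ^ t) * z * y := by
      rw [← h4, ← hy, h2]
      ring
    have h6 : C ((ℓ : ℤ_[ℓ]) ^ (t + 1)) = C (ℓ : ℤ_[ℓ]) * (C ((ℓ : ℤ_[ℓ]) ^ t) : ℤ_[ℓ][X]) := by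
      rw [← C_mul]
      congr 1
      ring
    rw [h6]
    linear_combination (-(C (ℓ : ℤ_[ℓ]))) * h5

theorem key (hℓ : ℓ ≠ 2) {N : ℕ} (hN : 0 < N) (φ : ℤ_[ℓ][X] →ₗ[ℤ_[ℓ]] ℤ_[ℓ])
    (h : ∀ k, φ ((B : ℤ_[ℓ][X]) ^ (N * k)) = 0) (k : ℕ) : φ ((B : ℤ_[ℓ][X]) ^ k) = 0 := by
  apply eq_zero_of_dvd
  intro t
  obtain ⟨b, hb, z, hz⟩ := approx (ℓ := ℓ) hℓ hN t
  set b' : ℤ_[ℓ][X] := 1 + C (ℓ : ℤ_[ℓ]) * b with hb'
  have hmem : b' ∈ Sat ℓ N := add_mem (one_mem _) (mul_mem (Subalgebra.algebraMap_mem _ (ℓ : ℤ_[ℓ])) hb)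
  have h1 : (B : ℤ_[ℓ][X]) - b' = C ((ℓ : ℤ_[ℓ]) ^ t) * (C (ℓ : ℤ_[ℓ]) * z) := by
    rw [hb']
    unfold B
    linear_combination C (ℓ : ℤ_[ℓ]) * hz
  obtain ⟨y, hy⟩ := sub_dvd_pow_sub_pow (B : ℤ_[ℓ][X]) b' k
  have h2 : (B : ℤ_[ℓ][X]) ^ k = b' ^ k + ((ℓ : ℤ_[ℓ]) ^ t) • ((C (ℓ : ℤ_[ℓ]) * z) * y) := by
    rw [Polynomial.smul_eq_C_mul, ← mul_assoc, ← h1, ← hy]
    ring
  rw [h2, map_add, Sat_zero φ h (pow_mem hmem k), zero_add, map_smul, smul_eq_mul]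
  exact dvd_mul_right _ _

/-- the sequences `d⁻¹ φ ((1 + ℓ Y) ^ k)` -/
def Seq (s : ℕ → ℚ_[ℓ]) : Prop :=
  ∃ (R : Type) (_ : CommRing R) (_ : Algebra ℤ_[ℓ] R) (Y : R) (φ : R →ₗ[ℤ_[ℓ]] ℤ_[ℓ]) (d : ℤ_[ℓ]),
    d ≠ 0 ∧ ∀ k, (d : ℚ_[ℓ]) * s k = ((φ ((1 + algebraMap ℤ_[ℓ] R ℓ * Y) ^ k) : ℤ_[ℓ]) : ℚ_[ℓ])

theorem Seq.vanish (hℓ : ℓ ≠ 2) {s : ℕ → ℚ_[ℓ]} (hs : Seq s) {N : ℕ} (hN : 0 < N)
    (h : ∀ k, s (N * k) = 0) (k : ℕ) : s k = 0 := by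
  obtain ⟨R, _, _, Y, φ, d, hd, hs⟩ := hs
  have h1 : ∀ k, (φ.comp (aeval Y).toLinearMap) ((B : ℤ_[ℓ][X]) ^ k) =
      φ ((1 + algebraMap ℤ_[ℓ] R ℓ * Y) ^ k) := by
    intro k
    rw [LinearMap.comp_apply, AlgHom.toLinearMap_apply, map_pow]
    congr 2
    unfold B
    rw [map_add, map_one, map_mul, aeval_C, aeval_X]
  have h2 := key hℓ hN (φ.comp (aeval Y).toLinearMap) (fun k => by
    rw [h1]
    have h3 := hs (N * k)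
    rw [h k, mul_zero] at h3
    exact Subtype.ext h3.symm) k
  rw [h1] at h2
  have h3 := hs k
  rw [h2] at h3
  have hd' : (d : ℚ_[ℓ]) ≠ 0 := fun h => hd (Subtype.ext h)
  have h4 : (d : ℚ_[ℓ]) * s k = 0 := by rw [h3]; simp
  exact (mul_eq_zero.1 h4).resolve_left hd'

theorem Seq.const (c : ℚ_[ℓ]) : Seq (fun _ => c) := by
  obtain ⟨a, d, hd, hc⟩ : ∃ a d : ℤ_[ℓ], d ≠ 0 ∧ (d : ℚ_[ℓ]) * c = (a : ℚ_[ℓ]) := by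
    obtain ⟨⟨a, d⟩, h⟩ := IsLocalization.surj (nonZeroDivisors ℤ_[ℓ]) c
    refine ⟨a, d, nonZeroDivisors.ne_zero d.2, ?_⟩
    rw [mul_comm]
    exact h
  refine ⟨ℤ_[ℓ], inferInstance, inferInstance, 0, a • LinearMap.id, d, hd, fun k => ?_⟩
  rw [hc]
  simp

theorem Seq.add {s t : ℕ → ℚ_[ℓ]} (hs : Seq s) (ht : Seq t) : Seq (fun k => s k + t k) := by
  obtain ⟨R, _, _, Y, φ, d, hd, hs⟩ := hs
  obtain ⟨R', _, _, Y', φ', d', hd', ht⟩ := ht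
  refine ⟨R × R', inferInstance, inferInstance, (Y, Y'),
    (d' • φ).comp (LinearMap.fst ℤ_[ℓ] R R') + (d • φ').comp (LinearMap.snd ℤ_[ℓ] R R'), d * d',
    mul_ne_zero hd hd', fun k => ?_⟩
  have e : ((1 + algebraMap ℤ_[ℓ] (R × R') ℓ * (Y, Y')) ^ k : R × R') =
      ((1 + algebraMap ℤ_[ℓ] R ℓ * Y) ^ k, (1 + algebraMap ℤ_[ℓ] R' ℓ * Y') ^ k) := rfl
  rw [e]
  simp only [LinearMap.add_apply, LinearMap.comp_apply, LinearMap.fst_apply, LinearMap.snd_apply,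
    LinearMap.smul_apply, smul_eq_mul, PadicInt.coe_mul, PadicInt.coe_add]
  rw [← hs, ← ht]
  ring

theorem Seq.mul {s t : ℕ → ℚ_[ℓ]} (hs : Seq s) (ht : Seq t) : Seq (fun k => s k * t k) := by
  obtain ⟨R, _, _, Y, φ, d, hd, hs⟩ := hs
  obtain ⟨R', _, _, Y', φ', d', hd', ht⟩ := ht
  refine ⟨TensorProduct ℤ_[ℓ] R R', inferInstance, inferInstance,
    TensorProduct.tmul _ Y 1 + TensorProduct.tmul _ 1 Y' +
      algebraMap ℤ_[ℓ] (TensorProduct ℤ_[ℓ] R R') ℓ * TensorProduct.tmul _ Y Y',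
    (LinearMap.mul' ℤ_[ℓ] ℤ_[ℓ]).comp (TensorProduct.map φ φ'), d * d', mul_ne_zero hd hd', fun k => ?_⟩
  have e : (1 + algebraMap ℤ_[ℓ] (TensorProduct ℤ_[ℓ] R R') ℓ * (TensorProduct.tmul _ Y 1 +
      TensorProduct.tmul _ 1 Y' + algebraMap ℤ_[ℓ] (TensorProduct ℤ_[ℓ] R R') ℓ * TensorProduct.tmul _ Y Y')) =
      (TensorProduct.tmul ℤ_[ℓ] (1 + algebraMap ℤ_[ℓ] R ℓ * Y) (1 + algebraMap ℤ_[ℓ] R' ℓ * Y') :
        TensorProduct ℤ_[ℓ] R R') := by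
    simp only [← Algebra.smul_def, TensorProduct.add_tmul, TensorProduct.tmul_add, TensorProduct.smul_tmul',
      TensorProduct.tmul_smul, smul_add, smul_smul]
    rw [← Algebra.TensorProduct.one_def]
    abel
  rw [e, Algebra.TensorProduct.tmul_pow, LinearMap.comp_apply, TensorProduct.map_tmul, LinearMap.mul'_apply,
    PadicInt.coe_mul, PadicInt.coe_mul, ← hs, ← ht]
  ring

theorem Seq.sum {ι : Type*} (u : Finset ι) (s : ι → ℕ → ℚ_[ℓ]) (h : ∀ i ∈ u, Seq (s i)) :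
    Seq (fun k => ∑ i ∈ u, s i k) := by
  classical
  induction u using Finset.induction_on with
  | empty => simpa using Seq.const (ℓ := ℓ) 0
  | insert a u ha ih =>
    have h1 := (h a (Finset.mem_insert_self a u)).add (ih fun i hi => h i (Finset.mem_insert_of_mem hi))
    refine Eq.mp ?_ h1
    congr 1
    funext k
    rw [Finset.sum_insert ha]

/-- the entries of the powers of a matrix which is congruent to `1` modulo `ℓ` -/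
theorem Seq.entry {n : ℕ} (M Y : Matrix (Fin n) (Fin n) ℤ_[ℓ]) (hM : M = 1 + (ℓ : ℤ_[ℓ]) • Y) (a b : Fin n) :
    Seq (fun k => (((M ^ k) a b : ℤ_[ℓ]) : ℚ_[ℓ])) := by
  refine ⟨ℤ_[ℓ][X], inferInstance, inferInstance, X,
    (Matrix.entryLinearMap ℤ_[ℓ] ℤ_[ℓ] a b).comp (aeval Y).toLinearMap, 1, one_ne_zero, fun k => ?_⟩
  rw [PadicInt.coe_one, one_mul]
  have h1 : (aeval Y) ((1 + algebraMap ℤ_[ℓ] ℤ_[ℓ][X] ℓ * X) ^ k) = M ^ k := by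
    rw [map_pow, map_add, map_one, map_mul, aeval_X, hM]
    congr 2
    rw [Algebra.algebraMap_eq_smul_one, map_smul, map_one, smul_mul_assoc, one_mul]
  change (((M ^ k) a b : ℤ_[ℓ]) : ℚ_[ℓ]) = ((((aeval Y) ((1 + algebraMap ℤ_[ℓ] ℤ_[ℓ][X] ℓ * X) ^ k)) a b : ℤ_[ℓ]) : ℚ_[ℓ])
  rw [h1]

end Pool.Agent.X320.OP
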