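import Pool.Agent.X320.OP.Dims

/-! Finite families: the density of the places at which all Newton polygons meet the Hodge polygons. -/

set_option autoImplicit false
set_option linter.all false

namespace Pool.Agent.X320.OP

open MeasureTheory Topology Filter Polynomial NumberField IsDedekindDomain Module
open Pool.Agent.W401.Cheb Pool.Agent.W528.Ord
open Pool.Agent.W528.Ord.MultSystem (IsDeg1)

section gen

variable {G : Type} [Group G] [TopologicalSpace G] [IsTopologicalGroup G] [CompactSpace G] [T2Space G]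
  [MeasurableSpace G] [BorelSpace G] {Ω : Type} [Field Ω] [TopologicalSpace Ω] [T2Space Ω]

/-- a function whose translates span a space of dimension `r` and which vanishes on a set of measure larger than
`1 - 1 / r` is zero -/
theorem zero_of_measure (μ : Measure G) [IsProbabilityMeasure μ] [μ.IsMulLeftInvariant]
    (f : G → Ω) (hf : Continuous f) (W : Submodule Ω (G → Ω)) [FiniteDimensional Ω W]
    (hW : ∀ g, (fun x => f (g * x)) ∈ W) {δ : ℝ} (hδ0 : 0 ≤ δ) (hδ1 : δ ≤ 1)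
    (hδ : (1 - δ) * (finrank Ω W : ℝ) < 1) (hμ : ENNReal.ofReal δ ≤ μ {x | f x = 0}) : f = 0 := by
  classical
  set L : G → (G → Ω) := fun g x => f (g * x) with hL
  have hsW : Submodule.span Ω (Set.range L) ≤ W := Submodule.span_le.2 (by rintro _ ⟨g, rfl⟩; exact hW g)
  haveI : FiniteDimensional Ω (Submodule.span Ω (Set.range L)) := Submodule.finiteDimensional_of_le hsW
  obtain ⟨m, b, hmW, hb1, hb2⟩ : ∃ (m : ℕ) (b : Fin m → (G → Ω)), (m : ℝ) ≤ finrank Ω W ∧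
      (∀ i, b i ∈ Set.range L) ∧ Submodule.span Ω (Set.range b) = Submodule.span Ω (Set.range L) := by
    obtain ⟨b, hb1, hb2, -⟩ := Submodule.exists_fun_fin_finrank_span_eq Ω (Set.range L)
    exact ⟨_, b, by exact_mod_cast Submodule.finrank_mono hsW, hb1, hb2⟩
  choose g hg using hb1
  set C : Set G := {x | f x = 0} with hC
  have hCcl : IsClosed C := isClosed_eq hf continuous_const
  set D : Set G := ⋂ i, (fun x => g i * x) ⁻¹' C with hD
  have hDcl : IsClosed D := isClosed_iInter fun i => hCcl.preimage (continuous_const_mul _)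
  have hDpos : μ D ≠ 0 := by
    intro h0
    have h1 : μ Dᶜ ≤ m * ENNReal.ofReal (1 - δ) := by
      have e1 : Dᶜ = ⋃ i, ((fun x => g i * x) ⁻¹' C)ᶜ := by rw [hD, Set.compl_iInter]
      rw [e1]
      refine (measure_iUnion_fintype_le _ _).trans ?_
      have h2 : ∀ i, μ ((fun x => g i * x) ⁻¹' C)ᶜ ≤ ENNReal.ofReal (1 - δ) := by
        intro i
        rw [← Set.preimage_compl, measure_preimage_mul, prob_compl_eq_one_sub hCcl.measurableSet,
          ENNReal.ofReal_sub _ hδ0, ENNReal.ofReal_one]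
        exact tsub_le_tsub_left hμ 1
      refine (Finset.sum_le_sum fun i _ => h2 i).trans ?_
      rw [Finset.sum_const, Finset.card_univ, Fintype.card_fin, nsmul_eq_mul]
    rw [prob_compl_eq_one_sub hDcl.measurableSet, h0, tsub_zero] at h1
    have h2 := (ENNReal.toReal_le_toReal ENNReal.one_ne_top (ENNReal.mul_ne_top (ENNReal.natCast_ne_top _)
      ENNReal.ofReal_ne_top)).2 h1
    rw [ENNReal.toReal_one, ENNReal.toReal_mul, ENNReal.toReal_natCast, ENNReal.toReal_ofReal (by linarith)] at h2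
    have h3 : (m : ℝ) * (1 - δ) ≤ (finrank Ω W : ℝ) * (1 - δ) := mul_le_mul_of_nonneg_right hmW (by linarith)
    nlinarith
  obtain ⟨x, hx⟩ : D.Nonempty := nonempty_of_measure_ne_zero hDpos
  have hall : ∀ F ∈ Submodule.span Ω (Set.range L), F x = 0 := by
    intro F hF
    rw [← hb2] at hF
    refine Submodule.span_induction (p := fun F _ => F x = 0) ?_ ?_ ?_ ?_ hF
    · rintro _ ⟨i, rfl⟩
      rw [← hg i]
      exact Set.mem_iInter.1 hx i
    · rfl
    · intro a b _ _ ha hb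
      rw [Pi.add_apply, ha, hb, add_zero]
    · intro c a _ ha
      rw [Pi.smul_apply, ha, smul_zero]
  funext y
  have h1 := hall (L (y * x⁻¹)) (Submodule.subset_span ⟨_, rfl⟩)
  rw [hL] at h1
  change f (y * x⁻¹ * x) = 0 at h1
  rwa [inv_mul_cancel_right] at h1

end gen

/-- products of elements of spans -/
theorem prod_mem_span {Ω : Type} [Field Ω] {G : Type} {ι : Type} [Fintype ι] [DecidableEq ι] {κ : ι → Type}
    [∀ i, Fintype (κ i)] (b : ∀ i, κ i → (G → Ω)) (F : ι → G → Ω)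
    (hF : ∀ i, F i ∈ Submodule.span Ω (Set.range (b i))) :
    (∏ i, F i) ∈ Submodule.span Ω (Set.range fun s : ∀ i, κ i => ∏ i, b i (s i)) := by
  classical
  have h1 : ∀ i, ∃ c : κ i → Ω, ∑ s, c s • b i s = F i := fun i =>
    (Submodule.mem_span_range_iff_exists_fun Ω).1 (hF i)
  choose c hc using h1
  have e : ∏ i, F i = ∑ s : ∀ i, κ i, (∏ i, c i (s i)) • ∏ i, b i (s i) := by
    rw [Finset.prod_congr rfl fun i _ => (hc i).symm, Finset.prod_univ_sum, Fintype.piFinset_univ]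
    refine Finset.sum_congr rfl fun s _ => ?_
    funext x
    simp only [Finset.prod_apply, Pi.smul_apply, smul_eq_mul, Finset.prod_mul_distrib]
  rw [e]
  exact Submodule.sum_mem _ fun s _ => Submodule.smul_mem _ _ (Submodule.subset_span ⟨s, rfl⟩)

section field

variable {K : Type} [Field K] [NumberField K] {ℓ : ℕ} [hp : Fact ℓ.Prime]

/-- the matrices over `ℚ_ℓ` -/
noncomputable def mat (A : HodgePoint K ℓ) (g : GK K) : Matrix (Fin A.n) (Fin A.n) ℚ_[ℓ] :=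
  (A.ρ g : Matrix (Fin A.n) (Fin A.n) ℤ_[ℓ]).map (algebraMap ℤ_[ℓ] ℚ_[ℓ])

/-- the coefficient -/
noncomputable def cf' (A : HodgePoint K ℓ) (g : GK K) : ℚ_[ℓ] := (mat A g).charpoly.coeff (A.n - A.k)

/-- the character with values in `ℚ_ℓ` -/
noncomputable def chr (χ : GK K →* ℤ_[ℓ]ˣ) : GK K →* ℚ_[ℓ]ˣ := (Units.map (algebraMap ℤ_[ℓ] ℚ_[ℓ]).toMonoidHom).comp χ

theorem mat_mul (A : HodgePoint K ℓ) (x y : GK K) : mat A (x * y) = mat A x * mat A y := by
  unfold mat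
  rw [map_mul, Units.val_mul, Matrix.map_mul]

theorem mat_one (A : HodgePoint K ℓ) : mat A 1 = 1 := by
  unfold mat
  rw [map_one, Units.val_one]
  exact Matrix.map_one _ (map_zero _) (map_one _)

theorem mat_pow (A : HodgePoint K ℓ) (γ : GK K) (j : ℕ) : mat A (γ ^ j) = mat A γ ^ j := by
  induction j with
  | zero => rw [pow_zero, pow_zero, mat_one]
  | succ j ih => rw [pow_succ, pow_succ, mat_mul, ih]

theorem cf'_frob {A : HodgePoint K ℓ} {S : Finset ℕ} (hA : A.IsPoint S) {v : HeightOneSpectrum (𝓞 K)}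
    (hv : IsDeg1 S v) {γ : GK K} (hγ : IsFrob v γ) : cf' A γ = (((A.P v).coeff (A.n - A.k) : ℤ) : ℚ_[ℓ]) := by
  unfold cf' mat
  rw [Matrix.charpoly_map, hA.compat v hv γ hγ, coeff_map, coeff_map, eq_intCast, map_intCast]

theorem chr_frob {χ : GK K →* ℤ_[ℓ]ˣ} {S : Finset ℕ}
    (hχ : ∀ v, IsDeg1 S v → ∀ γ, IsFrob v γ → ((χ γ : ℤ_[ℓ]ˣ) : ℤ_[ℓ]) = (Ideal.absNorm v.asIdeal : ℤ_[ℓ]))
    {v : HeightOneSpectrum (𝓞 K)} (hv : IsDeg1 S v) {γ : GK K} (hγ : IsFrob v γ) :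
    (chr χ γ : ℚ_[ℓ]) = (Ideal.absNorm v.asIdeal : ℚ_[ℓ]) := by
  change algebraMap ℤ_[ℓ] ℚ_[ℓ] ((χ γ : ℤ_[ℓ]ˣ) : ℤ_[ℓ]) = _
  rw [hχ v hv γ hγ, map_natCast]

/-- the coefficient is not a multiple of a power of the cyclotomic character on an open subgroup -/
theorem not_const {A : HodgePoint K ℓ} {χ : GK K →* ℤ_[ℓ]ˣ} {S : Finset ℕ} (hA : A.IsPoint S)
    (hχ : ∀ v, IsDeg1 S v → ∀ γ, IsFrob v γ → ((χ γ : ℤ_[ℓ]ˣ) : ℤ_[ℓ]) = (Ideal.absNorm v.asIdeal : ℤ_[ℓ]))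
    (hns : NotIsoclinic A S) (U : Subgroup (GK K)) (hU : IsOpen (U : Set (GK K))) (c : ℚ_[ℓ])
    (hc : ∀ u ∈ U, cf' A u = c * (chr χ u : ℚ_[ℓ]) ^ (A.h + 1)) : False := by
  have hkn := hA.k_lt
  have hc1 : c = (-1) ^ A.k * (A.n.choose A.k : ℚ_[ℓ]) := by
    have h1 := hc 1 U.one_mem
    rw [map_one, Units.val_one, one_pow, mul_one] at h1
    rw [← h1]
    change (mat A 1).charpoly.coeff (A.n - A.k) = _
    rw [mat_one, Matrix.charpoly_one, Fintype.card_fin,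
      show (X - 1 : Polynomial ℚ_[ℓ]) = X + C (-1) by rw [C_neg, C_1, sub_eq_add_neg], coeff_X_add_C_pow,
      Nat.choose_symm hkn.le]
    congr 2
    omega
  obtain ⟨v, hv, hroots⟩ := hns
  obtain ⟨γ, hγ⟩ := exists_isFrob v
  haveI : Finite (GK K ⧸ U) := Subgroup.quotient_finite_of_isOpen _ hU
  obtain ⟨N, hN, hNU⟩ := Subgroup.exists_pow_mem_of_index_ne_zero (H := U) (Subgroup.index_ne_zero_of_finite) γ
  obtain ⟨a, b, ha, hb, hab⟩ := hroots N (by omega)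
  apply hab
  refine isoclinic (mat A γ) (A.P v) (hA.monic v hv).1 (hA.monic v hv).2 ?_ hA.k_pos hkn hv.1.pos (w := A.w)
    (e := A.h + 1) (by have := hA.depth.2; omega) (hA.weil v hv) (by omega : 0 < N) ?_ a b ha hb
  · unfold mat
    rw [Matrix.charpoly_map, hA.compat v hv γ hγ, Polynomial.map_map]
    congr 1
  · have h1 := hc (γ ^ N) hNU.2
    change (mat A (γ ^ N)).charpoly.coeff (A.n - A.k) = _ at h1
    rw [mat_pow, map_pow, Units.val_pow_eq_pow_val, chr_frob hχ hv hγ, ← pow_mul, hc1] at h1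
    exact h1

variable {ι : Type} [Fintype ι] {A : ι → HodgePoint K ℓ} {χ : GK K →* ℤ_[ℓ]ˣ} {S : Finset ℕ}

theorem cf'_mem (A : ι → HodgePoint K ℓ) (χ : GK K →* ℤ_[ℓ]ˣ) (H : Subgroup (GK K)) (i : ι) :
    cf' (A i) ∈ alg (fun i => (A i).ρ) χ H :=
  coeff_mem (alg (fun i => (A i).ρ) χ H) (mat (A i))
    (fun a b => Algebra.subset_adjoin (s := Gen (fun i => (A i).ρ) χ H) (Or.inl (Or.inl ⟨i, a, b, rfl⟩)))
    ((A i).n - (A i).k)

theorem chr_mem (A : ι → HodgePoint K ℓ) (χ : GK K →* ℤ_[ℓ]ˣ) (H : Subgroup (GK K)) :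
    (fun g => (chr χ g : ℚ_[ℓ])) ∈ alg (fun i => (A i).ρ) χ H :=
  Algebra.subset_adjoin (s := Gen (fun i => (A i).ρ) χ H) (Or.inl (Or.inr rfl))

theorem cf'_conj (A : HodgePoint K ℓ) (σ τ : GK K) : cf' A (τ * σ * τ⁻¹) = cf' A σ := by
  have h1 : (A.ρ (τ * σ * τ⁻¹) : Matrix (Fin A.n) (Fin A.n) ℤ_[ℓ]).charpoly =
      (A.ρ σ : Matrix (Fin A.n) (Fin A.n) ℤ_[ℓ]).charpoly := by
    have h : (A.ρ (τ * σ * τ⁻¹) : Matrix (Fin A.n) (Fin A.n) ℤ_[ℓ]) =
        (A.ρ τ).val * (A.ρ σ).val * (A.ρ τ)⁻¹.val := by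
      rw [map_mul, map_mul, map_inv, Units.val_mul, Units.val_mul]
    rw [h, Matrix.coe_units_inv, Matrix.charpoly_units_conj]
  unfold cf' mat
  rw [Matrix.charpoly_map, Matrix.charpoly_map, h1]

/-- bad places -/
theorem bad_lin {A : HodgePoint K ℓ} (hA : A.IsPoint S)
    (hχ : ∀ v, IsDeg1 S v → ∀ γ, IsFrob v γ → ((χ γ : ℤ_[ℓ]ˣ) : ℤ_[ℓ]) = (Ideal.absNorm v.asIdeal : ℤ_[ℓ]))
    {v : HeightOneSpectrum (𝓞 K)} (hv : IsDeg1 S v) (hbad : ¬ A.Meets v) {σ : GK K} (hσ : IsFrob v σ) :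
    ∃ y ∈ Finset.Icc (-((A.n.choose A.k : ℕ) : ℤ)) ((A.n.choose A.k : ℕ) : ℤ),
      cf' A σ = (y : ℚ_[ℓ]) * (chr χ σ : ℚ_[ℓ]) ^ (A.h + 1) := by
  have hkn := hA.k_lt
  have h1 : (Ideal.absNorm v.asIdeal : ℤ) ^ (A.h + 1) ∣ (A.P v).coeff (A.n - A.k) := by
    by_contra hcon
    exact hbad ⟨hA.mazur v hv, hcon⟩
  obtain ⟨y, hy⟩ := h1
  have hbd := norm_coeff_sq_le ((A.P v).map (Int.castRingHom ℂ)) A.n A.k hkn.le
    ((hA.monic v hv).1.map _) (by rw [(hA.monic v hv).1.natDegree_map, (hA.monic v hv).2])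
    ((Ideal.absNorm v.asIdeal : ℝ) ^ A.w) (hA.weil v hv)
  rw [coeff_map, eq_intCast, Complex.norm_intCast, sq_abs, ← pow_mul, hy] at hbd
  have hq1 : (1 : ℝ) ≤ (Ideal.absNorm v.asIdeal : ℝ) := by exact_mod_cast hv.1.one_le
  have h2 : (Ideal.absNorm v.asIdeal : ℝ) ^ (A.w * A.k) ≤ ((Ideal.absNorm v.asIdeal : ℝ) ^ (A.h + 1)) ^ 2 := by
    rw [← pow_mul]
    exact pow_le_pow_right₀ hq1 (by have := hA.depth.2; omega)
  have hq0 : (0 : ℝ) < ((Ideal.absNorm v.asIdeal : ℝ) ^ (A.h + 1)) ^ 2 := by positivity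
  have h3 : ((y : ℝ)) ^ 2 ≤ ((A.n.choose A.k : ℕ) : ℝ) ^ 2 := by
    push_cast at hbd
    rw [mul_pow] at hbd
    have h4 : ((Ideal.absNorm v.asIdeal : ℝ) ^ (A.h + 1)) ^ 2 * (y : ℝ) ^ 2 ≤
        ((Ideal.absNorm v.asIdeal : ℝ) ^ (A.h + 1)) ^ 2 * ((A.n.choose A.k : ℕ) : ℝ) ^ 2 := by
      refine hbd.trans ?_
      rw [mul_comm (((Ideal.absNorm v.asIdeal : ℝ) ^ (A.h + 1)) ^ 2) (((A.n.choose A.k : ℕ) : ℝ) ^ 2)]
      exact mul_le_mul_of_nonneg_left h2 (by positivity)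
    exact le_of_mul_le_mul_left h4 hq0
  have h5 : |(y : ℝ)| ≤ ((A.n.choose A.k : ℕ) : ℝ) := abs_le_of_sq_le_sq h3 (Nat.cast_nonneg _)
  have h6 : |y| ≤ ((A.n.choose A.k : ℕ) : ℤ) := by exact_mod_cast h5
  refine ⟨y, Finset.mem_Icc.2 (abs_le.1 h6), ?_⟩
  rw [cf'_frob hA hv hσ, chr_frob hχ hv hσ, hy]
  push_cast
  ring

/-- **the joint bound** -/
theorem joint (hℓ : ℓ ≠ 2) (hA : ∀ i, (A i).IsPoint S)
    (hχc : Continuous fun g : GK K => ((χ g : ℤ_[ℓ]ˣ) : ℤ_[ℓ]))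
    (hχ : ∀ v, IsDeg1 S v → ∀ γ, IsFrob v γ → ((χ γ : ℤ_[ℓ]ˣ) : ℤ_[ℓ]) = (Ideal.absNorm v.asIdeal : ℤ_[ℓ]))
    (hns : ∀ i, NotIsoclinic (A i) S) {δ : ℝ} (hδ1 : δ ≤ 1)
    (hδ : (1 - δ) * (∏ i, ((A i).n.choose (A i).k : ℝ) ^ 2) < 1) :
    ¬ ∃ᶠ N in atTop, δ ≤ dens (fun v : HeightOneSpectrum (𝓞 K) => IsDeg1 S v ∧ ¬ ∀ i, (A i).Meets v) N := by
  classical
  intro hfreq
  letI : MeasurableSpace (GK K) := borel _
  haveI : BorelSpace (GK K) := ⟨rfl⟩
  set μ : Measure (GK K) := Measure.haarMeasure (⊤ : TopologicalSpace.PositiveCompacts (GK K)) with hμ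
  haveI : IsProbabilityMeasure μ := ⟨by
    have := Measure.haarMeasure_self (K₀ := (⊤ : TopologicalSpace.PositiveCompacts (GK K)))
    rw [hμ]
    rwa [TopologicalSpace.PositiveCompacts.coe_top] at this⟩
  have hH : IsOpen (ker A χ : Set (GK K)) := isOpen_ker hA hχc
  haveI : Finite (GK K ⧸ ker A χ) := Subgroup.quotient_finite_of_isOpen _ hH
  set 𝒜 := alg (fun i => (A i).ρ) χ (ker A χ) with h𝒜
  have hcont : ∀ F ∈ 𝒜, Continuous F := cont_mem (fun i => (A i).ρ) χ (ker A χ) hH (fun i => (hA i).cont) hχc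
  have hdich := fun F hF g => dichotomy (fun i => (A i).ρ) χ (ker A χ) hℓ hH le_rfl (fun i => (hA i).cont) hχc μ F hF g
  -- the elements `u i`
  have hu : ∀ i, ∃ u ∈ ker A χ, ∃ x ∈ ker A χ,
      cf' (A i) (u * x) ≠ (chr χ u : ℚ_[ℓ]) ^ ((A i).h + 1) * cf' (A i) x := by
    intro i
    by_contra hcon
    push Not at hcon
    refine not_const (hA i) hχ (hns i) (ker A χ) hH (cf' (A i) 1) fun u hu => ?_
    have h1 := hcon u hu 1 (ker A χ).one_mem
    rw [mul_one] at h1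
    rw [h1, mul_comm]
  choose u huk x hxk hux using hu
  let f' : ι → GK K → ℚ_[ℓ] := fun i g => cf' (A i) (u i * g) - (chr χ (u i) : ℚ_[ℓ]) ^ ((A i).h + 1) * cf' (A i) g
  have hf' : ∀ i, f' i ∈ 𝒜 := by
    intro i
    have e : f' i = (fun g => cf' (A i) (u i * g)) - ((chr χ (u i) : ℚ_[ℓ]) ^ ((A i).h + 1)) • cf' (A i) := rfl
    rw [e]
    exact sub_mem (trans_mem _ _ _ _ _ (cf'_mem A χ _ i)) (Subalgebra.smul_mem _ (cf'_mem A χ _ i) _)
  let Φ : GK K → ℚ_[ℓ] := ∏ i, f' i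
  have hΦ : Φ ∈ 𝒜 := prod_mem fun i _ => hf' i
  -- the closed sets
  let Cs : (Σ _ : ι, ℤ) → GK K → ℚ_[ℓ] := fun s g => cf' (A s.1) g - (s.2 : ℚ_[ℓ]) * (chr χ g : ℚ_[ℓ]) ^ ((A s.1).h + 1)
  have hCs : ∀ s, Cs s ∈ 𝒜 := by
    intro s
    have e : Cs s = cf' (A s.1) - (s.2 : ℚ_[ℓ]) • (fun g => (chr χ g : ℚ_[ℓ])) ^ ((A s.1).h + 1) := rfl
    rw [e]
    exact sub_mem (cf'_mem A χ _ s.1) (Subalgebra.smul_mem _ (pow_mem (chr_mem A χ _) _) _)
  let I : Finset (Σ _ : ι, ℤ) := Finset.univ.sigma fun i =>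
    Finset.Icc (-(((A i).n.choose (A i).k : ℕ) : ℤ)) (((A i).n.choose (A i).k : ℕ) : ℤ)
  set CC : Set (GK K) := ⋃ s ∈ I, {g | Cs s g = 0} with hCC
  have hCcl : IsClosed CC := isClosed_biUnion_finset fun s _ => isClosed_eq (hcont _ (hCs s)) continuous_const
  have hCconj : ∀ σ ∈ CC, ∀ τ : GK K, τ * σ * τ⁻¹ ∈ CC := by
    intro σ hσ τ
    rw [hCC] at hσ ⊢
    simp only [Set.mem_iUnion] at hσ ⊢
    obtain ⟨s, hs, h⟩ := hσ
    refine ⟨s, hs, ?_⟩
    have e2 : chr χ (τ * σ * τ⁻¹) = chr χ σ := by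
      rw [map_mul, map_mul, map_inv, mul_comm, inv_mul_cancel_left]
    change cf' (A s.1) (τ * σ * τ⁻¹) - (s.2 : ℚ_[ℓ]) * (chr χ (τ * σ * τ⁻¹) : ℚ_[ℓ]) ^ ((A s.1).h + 1) = 0
    rw [cf'_conj, e2]
    exact h
  have hbadC : ∀ v, (IsDeg1 S v ∧ ¬ ∀ i, (A i).Meets v) → ∀ σ, IsFrob v σ → σ ∈ CC := by
    rintro v ⟨hv, hbad⟩ σ hσ
    push Not at hbad
    obtain ⟨i, hi⟩ := hbad
    obtain ⟨y, hy, h⟩ := bad_lin (hA i) hχ hv hi hσ
    rw [hCC]
    simp only [Set.mem_iUnion]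
    exact ⟨⟨i, y⟩, Finset.mem_sigma.2 ⟨Finset.mem_univ _, hy⟩, sub_eq_zero.2 h⟩
  have hμC := measure_ge_freq' μ _ hfreq CC hCcl hCconj hbadC
  -- `Φ` vanishes almost everywhere on `CC`
  have hZ : μ (CC \ {g | Φ g = 0}) = 0 := by
    have hsub : CC \ {g | Φ g = 0} ⊆ ⋃ s ∈ I, ⋃ q : GK K ⧸ ker A χ,
        ({g | (QuotientGroup.mk g : GK K ⧸ ker A χ) = q ∧ Cs s g = 0} \ {g | Φ g = 0}) := by
      rintro g ⟨hg, h0⟩
      rw [hCC] at hg
      simp only [Set.mem_iUnion] at hg ⊢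
      obtain ⟨s, hs, h⟩ := hg
      exact ⟨s, hs, QuotientGroup.mk g, ⟨rfl, h⟩, h0⟩
    refine measure_mono_null hsub ?_
    rw [measure_iUnion_null_iff]
    intro s
    rw [measure_iUnion_null_iff]
    intro hs
    rw [measure_iUnion_null_iff]
    intro q
    obtain ⟨γ, rfl⟩ := QuotientGroup.mk_surjective q
    rcases hdich (Cs s) (hCs s) γ with h | h
    · -- the function vanishes on the coset
      have hempty : ({g | (QuotientGroup.mk g : GK K ⧸ ker A χ) = QuotientGroup.mk γ ∧ Cs s g = 0} \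
          {g | Φ g = 0}) = ∅ := by
        rw [Set.eq_empty_iff_forall_notMem]
        rintro g ⟨⟨hg, -⟩, h0⟩
        apply h0
        have hco : ∀ g', (QuotientGroup.mk g' : GK K ⧸ ker A χ) = QuotientGroup.mk γ →
            cf' (A s.1) g' = (s.2 : ℚ_[ℓ]) * (chr χ g' : ℚ_[ℓ]) ^ ((A s.1).h + 1) := by
          intro g' hg'
          have h1 := h (γ⁻¹ * g') (QuotientGroup.eq.1 hg'.symm)
          rw [mul_inv_cancel_left] at h1
          exact sub_eq_zero.1 h1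
        have hug : (QuotientGroup.mk (u s.1 * g) : GK K ⧸ ker A χ) = QuotientGroup.mk γ := by
          rw [← hg, eq_comm, QuotientGroup.eq]
          have e : g⁻¹ * (u s.1 * g) = g⁻¹ * u s.1 * (g⁻¹)⁻¹ := by group
          rw [e]
          exact (inferInstance : (ker A χ).Normal).conj_mem _ (huk s.1) _
        have hz : f' s.1 g = 0 := by
          change cf' (A s.1) (u s.1 * g) - (chr χ (u s.1) : ℚ_[ℓ]) ^ ((A s.1).h + 1) * cf' (A s.1) g = 0
          rw [hco _ hug, hco _ hg, map_mul, Units.val_mul]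
          ring
        change (∏ i, f' i) g = 0
        rw [Finset.prod_apply]
        exact Finset.prod_eq_zero (Finset.mem_univ s.1) hz
      rw [hempty, measure_empty]
    · exact measure_mono_null Set.diff_subset h
  have hμΦ : ENNReal.ofReal δ ≤ μ {g | Φ g = 0} := by
    refine hμC.trans ?_
    have h1 : CC ⊆ {g | Φ g = 0} ∪ (CC \ {g | Φ g = 0}) := by
      intro g hg
      by_cases h : Φ g = 0
      · exact Or.inl h
      · exact Or.inr ⟨hg, h⟩
    refine (measure_mono h1).trans ((measure_union_le _ _).trans ?_)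
    rw [hZ, add_zero]
  -- the dimension
  let b : ∀ i, (Sub (A i).n (A i).k × Sub (A i).n (A i).k) → (GK K → ℚ_[ℓ]) := fun i s x =>
    ((mat (A i) x).submatrix (s.1.1.orderEmbOfFin s.1.2) (s.2.1.orderEmbOfFin s.2.2)).det
  set W : Submodule ℚ_[ℓ] (GK K → ℚ_[ℓ]) := Submodule.span ℚ_[ℓ] (Set.range fun s : ∀ i, (Sub (A i).n (A i).k ×
    Sub (A i).n (A i).k) => ∏ i, b i (s i)) with hW
  haveI : FiniteDimensional ℚ_[ℓ] W := FiniteDimensional.span_of_finite _ (Set.finite_range _)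
  have hWr : (finrank ℚ_[ℓ] W : ℝ) ≤ ∏ i, ((A i).n.choose (A i).k : ℝ) ^ 2 := by
    have h1 : finrank ℚ_[ℓ] W ≤ ∏ i, ((A i).n.choose (A i).k) ^ 2 := by
      refine (finrank_range_le_card _).trans (le_of_eq ?_)
      rw [Fintype.card_pi]
      refine Finset.prod_congr rfl fun i _ => ?_
      rw [Fintype.card_prod, card_Sub, sq]
    exact_mod_cast h1
  have hWΦ : ∀ g, (fun x => Φ (g * x)) ∈ W := by
    intro g
    have e : (fun x => Φ (g * x)) = ∏ i, fun x => f' i (g * x) := by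
      funext x
      rw [Finset.prod_apply]
      change (∏ i, f' i) (g * x) = _
      rw [Finset.prod_apply]
    rw [e]
    refine prod_mem_span b _ fun i => ?_
    have e2 : (fun x => f' i (g * x)) = (fun x => cf' (A i) (u i * g * x)) -
        ((chr χ (u i) : ℚ_[ℓ]) ^ ((A i).h + 1)) • (fun x => cf' (A i) (g * x)) := by
      funext x
      change cf' (A i) (u i * (g * x)) - (chr χ (u i) : ℚ_[ℓ]) ^ ((A i).h + 1) * cf' (A i) (g * x) = _
      rw [← mul_assoc]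
      rfl
    rw [e2]
    exact Submodule.sub_mem _ (translates (hA i).k_lt.le (mat (A i)) (mat_mul (A i)) (u i * g))
      (Submodule.smul_mem _ _ (translates (hA i).k_lt.le (mat (A i)) (mat_mul (A i)) g))
  have hprod1 : (1 : ℝ) ≤ ∏ i, ((A i).n.choose (A i).k : ℝ) ^ 2 := by
    have e1 : (1 : ℝ) = ∏ _i : ι, (1 : ℝ) := by simp
    rw [e1]
    refine Finset.prod_le_prod (fun _ _ => zero_le_one) fun i _ => ?_
    have : 1 ≤ (A i).n.choose (A i).k := Nat.choose_pos (hA i).k_lt.le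
    have h2 : (1 : ℝ) ≤ ((A i).n.choose (A i).k : ℝ) := by exact_mod_cast this
    nlinarith
  have hδ0 : 0 ≤ δ := by
    by_contra hneg
    push Not at hneg
    nlinarith
  have hΦ0 := zero_of_measure μ Φ (hcont Φ hΦ) W hWΦ hδ0 hδ1
    (lt_of_le_of_lt (mul_le_mul_of_nonneg_left hWr (by linarith)) hδ) hμΦ
  -- some factor vanishes on the kernel
  have hker : μ (ker A χ : Set (GK K)) ≠ 0 := (hH.measure_pos μ ⟨1, (ker A χ).one_mem⟩).ne'
  apply hker
  have hsub : (ker A χ : Set (GK K)) ⊆ ⋃ i, {g | (QuotientGroup.mk g : GK K ⧸ ker A χ) = QuotientGroup.mk 1 ∧ f' i g = 0} := by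
    intro g hg
    have h1 : (∏ i, f' i) g = 0 := by
      change Φ g = 0
      rw [hΦ0]
      rfl
    rw [Finset.prod_apply] at h1
    obtain ⟨i, -, hi⟩ := Finset.prod_eq_zero_iff.1 h1
    rw [Set.mem_iUnion]
    refine ⟨i, ?_, hi⟩
    rw [eq_comm, QuotientGroup.eq, inv_one, one_mul]
    exact hg
  refine measure_mono_null hsub ?_
  rw [measure_iUnion_null_iff]
  intro i
  rcases hdich (f' i) (hf' i) 1 with h | h
  · exfalso
    apply hux i
    have h1 := h (x i) (hxk i)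
    rw [one_mul] at h1
    exact sub_eq_zero.1 h1
  · exact h

/-- the density exists, is rational, and is bounded below -/
theorem density (hℓ : ℓ ≠ 2) (hA : ∀ i, (A i).IsPoint S)
    (hχc : Continuous fun g : GK K => ((χ g : ℤ_[ℓ]ˣ) : ℤ_[ℓ]))
    (hχ : ∀ v, IsDeg1 S v → ∀ γ, IsFrob v γ → ((χ γ : ℤ_[ℓ]ˣ) : ℤ_[ℓ]) = (Ideal.absNorm v.asIdeal : ℤ_[ℓ]))
    (hns : ∀ i, NotIsoclinic (A i) S) :
    ∃ d : ℚ, Tendsto (ratio fun v : HeightOneSpectrum (𝓞 K) => IsDeg1 S v ∧ ∀ i, (A i).Meets v) atTop (𝓝 (d : ℝ)) ∧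
      1 / (∏ i, ((A i).n.choose (A i).k : ℝ) ^ 2) ≤ d := by
  classical
  have hgood := dens_good hℓ hA hχc hχ
  set a := ((QuotientGroup.mk : GK K → GK K ⧸ ker A χ) '' Sig A χ).ncard with ha
  set c := Nat.card (GK K ⧸ ker A χ) with hc
  refine ⟨(a : ℚ) / (c : ℚ), ?_, ?_⟩
  · push_cast
    exact ratio_of_dens hgood
  push_cast
  by_contra hlt
  push Not at hlt
  set d : ℝ := (a : ℝ) / (c : ℝ) with hd
  set R : ℝ := ∏ i, ((A i).n.choose (A i).k : ℝ) ^ 2 with hR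
  have hR1 : (1 : ℝ) ≤ R := by
    have e1 : (1 : ℝ) = ∏ _i : ι, (1 : ℝ) := by simp
    rw [e1]
    refine Finset.prod_le_prod (fun _ _ => zero_le_one) fun i _ => ?_
    have : 1 ≤ (A i).n.choose (A i).k := Nat.choose_pos (hA i).k_lt.le
    have h2 : (1 : ℝ) ≤ ((A i).n.choose (A i).k : ℝ) := by exact_mod_cast this
    nlinarith
  have hd0 : 0 ≤ d := by rw [hd]; positivity
  have hRpos : 0 < R := by linarith
  set δ : ℝ := 1 - (d + 1 / R) / 2 with hδ
  have hinv : 0 < 1 / R := by positivity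
  have h1 : (1 - δ) * R < 1 := by
    have e : (1 - δ) * R = (d * R + 1) / 2 := by
      rw [hδ]
      field_simp
      ring
    rw [e]
    have : d * R < 1 := by
      rw [lt_div_iff₀ hRpos] at hlt
      exact hlt
    linarith
  have h2 : δ ≤ 1 := by
    rw [hδ]
    linarith
  have h3 : δ < 1 - d := by
    rw [hδ]
    linarith
  apply joint hℓ hA hχc hχ hns h2 h1
  apply Filter.Eventually.frequently
  have e1 := (Pool.Agent.X320.DS.dens_all (K := K)).eventually (lt_mem_nhds (show 1 - (1 - d - δ) / 5 < 1 by linarith))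
  have e2 := hgood.eventually (gt_mem_nhds (show d < d + (1 - d - δ) / 5 by linarith))
  have e3 := (dens_not_prime (K := K)).eventually (gt_mem_nhds (show (0 : ℝ) < (1 - d - δ) / 5 by linarith))
  have e4 := (Pool.Agent.W528.Ord.dens_finite _ (finite_norm_mem (K := K) S)).eventually
    (gt_mem_nhds (show (0 : ℝ) < (1 - d - δ) / 5 by linarith))
  filter_upwards [e1, e2, e3, e4] with N h1 h2 h3 h4
  have hle : dens (fun _ : HeightOneSpectrum (𝓞 K) => True) N ≤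
      dens (fun v : HeightOneSpectrum (𝓞 K) => IsDeg1 S v ∧ ¬ ∀ i, (A i).Meets v) N +
      (dens (fun v : HeightOneSpectrum (𝓞 K) => IsDeg1 S v ∧ ∀ i, (A i).Meets v) N +
      (dens (fun v : HeightOneSpectrum (𝓞 K) => ¬ (Ideal.absNorm v.asIdeal).Prime) N +
      dens (fun v : HeightOneSpectrum (𝓞 K) => Ideal.absNorm v.asIdeal ∈ S) N)) := by
    refine le_trans (dens_mono (Q := fun v => _ ∨ (_ ∨ (_ ∨ _))) ?_ N)
      (le_trans (dens_or _ _ N) (add_le_add_right (le_trans (dens_or _ _ N)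
        (add_le_add_right (dens_or _ _ N) _)) _))
    intro v _
    by_cases hp : (Ideal.absNorm v.asIdeal).Prime
    · by_cases hS : Ideal.absNorm v.asIdeal ∈ S
      · exact Or.inr (Or.inr (Or.inr hS))
      · by_cases hd : ∀ i, (A i).Meets v
        · exact Or.inr (Or.inl ⟨⟨hp, hS⟩, hd⟩)
        · exact Or.inl ⟨⟨hp, hS⟩, hd⟩
    · exact Or.inr (Or.inr (Or.inl hp))
  linarith

end field

end Pool.Agent.X320.OP
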