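import Mathlib

/-! The formula of Cauchy and Binet (copied from the starting library, `Pool.Agent.TH461.SST.CB`), and the translates of
the coefficients of the characteristic polynomial of a matrix representation. -/

set_option autoImplicit false

open Finset Filter Topology

namespace Pool.Agent.X320.OP

theorem expand {R : Type} [CommRing R] (d n : ℕ) (A : Matrix (Fin d) (Fin n) R)
    (X : Matrix (Fin n) (Fin d) R) :
    (A * X).det = ∑ f : Fin d → Fin n, (∏ i, A i (f i)) * (X.submatrix f id).det := by
  classical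
  let D := (Matrix.detRowAlternating : (Fin d → R) [⋀^(Fin d)]→ₗ[R] R).toMultilinearMap
  have h1 : (A * X).det = D (fun i => ∑ l, A i l • X l) := by
    show (A * X).det = Matrix.det (fun i => ∑ l, A i l • X l)
    congr 1
    ext i j
    simp [Matrix.mul_apply, Finset.sum_apply]
  rw [h1, D.map_sum]
  apply Finset.sum_congr rfl
  intro f _
  rw [D.map_smul_univ]
  rfl

theorem cbR {R : Type} [CommRing R] (d n : ℕ) (A : Matrix (Fin d) (Fin n) R)
    (X : Matrix (Fin n) (Fin d) R) :
    (A * X).det = ∑ Q : {Q : Finset (Fin n) // Q.card = d},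
      (A.submatrix id (Q.1.orderEmbOfFin Q.2)).det * (X.submatrix (Q.1.orderEmbOfFin Q.2) id).det := by
  classical
  rw [expand]
  have h0 : ∑ f : Fin d → Fin n, (∏ i, A i (f i)) * (X.submatrix f id).det
      = ∑ f ∈ Finset.univ.filter (fun f : Fin d → Fin n => Function.Injective f),
        (∏ i, A i (f i)) * (X.submatrix f id).det := by
    symm
    apply Finset.sum_subset (Finset.filter_subset _ _)
    intro f _ hf
    simp only [Finset.mem_filter, Finset.mem_univ, true_and] at hf
    unfold Function.Injective at hf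
    push Not at hf
    obtain ⟨a, b, hab, hne⟩ := hf
    rw [Matrix.det_zero_of_row_eq hne, mul_zero]
    ext j
    simp [Matrix.submatrix_apply, hab]
  rw [h0]
  have himg : ∀ f : Fin d → Fin n, Function.Injective f → (Finset.univ.image f).card = d := by
    intro f hf
    rw [Finset.card_image_of_injective _ hf]; simp
  rw [show (∑ Q : {Q : Finset (Fin n) // Q.card = d},
      (A.submatrix id (Q.1.orderEmbOfFin Q.2)).det * (X.submatrix (Q.1.orderEmbOfFin Q.2) id).det)
      = ∑ Q : {Q : Finset (Fin n) // Q.card = d}, ∑ σ : Equiv.Perm (Fin d),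
        (∏ i, A i (Q.1.orderEmbOfFin Q.2 (σ i))) *
          (X.submatrix (fun i => Q.1.orderEmbOfFin Q.2 (σ i)) id).det from ?_]
  · rw [← Finset.sum_product' (Finset.univ : Finset {Q : Finset (Fin n) // Q.card = d})
      (Finset.univ : Finset (Equiv.Perm (Fin d)))
      (fun Q σ => (∏ i, A i (Q.1.orderEmbOfFin Q.2 (σ i))) *
          (X.submatrix (fun i => Q.1.orderEmbOfFin Q.2 (σ i)) id).det)]
    symm
    refine Finset.sum_bij (fun p _ => fun i => p.1.1.orderEmbOfFin p.1.2 (p.2 i)) ?_ ?_ ?_ ?_
    · intro p _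
      simp only [Finset.mem_filter, Finset.mem_univ, true_and]
      intro a b hab
      exact p.2.injective ((p.1.1.orderEmbOfFin p.1.2).injective hab)
    · intro p _ q _ hpq
      have hr : ∀ p : {Q : Finset (Fin n) // Q.card = d} × Equiv.Perm (Fin d),
          Finset.univ.image (fun i => p.1.1.orderEmbOfFin p.1.2 (p.2 i)) = p.1.1 := by
        intro p
        ext x
        simp only [Finset.mem_image, Finset.mem_univ, true_and]
        constructor
        · rintro ⟨i, rfl⟩
          exact Finset.orderEmbOfFin_mem _ _ _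
        · intro hx
          refine ⟨p.2.symm ((p.1.1.orderIsoOfFin p.1.2).symm ⟨x, hx⟩), ?_⟩
          rw [Equiv.apply_symm_apply, ← Finset.coe_orderIsoOfFin_apply]
          simp
      have h1 : p.1 = q.1 := by
        apply Subtype.ext
        rw [← hr p, ← hr q, hpq]
      obtain ⟨P, σ⟩ := p
      obtain ⟨P', σ'⟩ := q
      simp only at h1
      subst h1
      congr 1
      ext i
      have := congrFun hpq i
      simp only at this
      exact congrArg _ ((P.1.orderEmbOfFin P.2).injective this)
    · intro f hf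
      simp only [Finset.mem_filter, Finset.mem_univ, true_and] at hf
      set Q := Finset.univ.image f with hQ
      have hc : Q.card = d := himg f hf
      let g : Fin d → Fin d := fun i => (Q.orderIsoOfFin hc).symm
        ⟨f i, Finset.mem_image_of_mem _ (Finset.mem_univ i)⟩
      have hg : Function.Injective g := by
        intro a b hab
        have := (Q.orderIsoOfFin hc).symm.injective hab
        exact hf (Subtype.mk.inj this)
      refine ⟨(⟨Q, hc⟩, Equiv.ofBijective g (Finite.injective_iff_bijective.1 hg)),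
        Finset.mem_product.2 ⟨Finset.mem_univ _, Finset.mem_univ _⟩, ?_⟩
      ext i
      simp only [Equiv.ofBijective_apply]
      rw [← Finset.coe_orderIsoOfFin_apply]
      simp [g]
    · intro p _
      rfl
  · apply Finset.sum_congr rfl
    intro Q _
    have h2 : ∀ σ : Equiv.Perm (Fin d), (X.submatrix (fun i => Q.1.orderEmbOfFin Q.2 (σ i)) id).det
        = ((Equiv.Perm.sign σ : ℤ) : R) * (X.submatrix (Q.1.orderEmbOfFin Q.2) id).det := by
      intro σ
      have := Matrix.det_permute σ (X.submatrix (Q.1.orderEmbOfFin Q.2) id)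
      rw [← this]
      rfl
    simp_rw [h2]
    rw [← Matrix.det_transpose (A.submatrix id (Q.1.orderEmbOfFin Q.2)), Matrix.det_apply',
      Finset.sum_mul]
    apply Finset.sum_congr rfl
    intro σ _
    simp only [Matrix.transpose_apply, Matrix.submatrix_apply, id]
    ring


/-- the `k`-element subsets of `{1, ..., n}` -/
abbrev Sub (n k : ℕ) : Type := {Q : Finset (Fin n) // Q.card = k}

theorem card_Sub (n k : ℕ) : Fintype.card (Sub n k) = n.choose k := by
  rw [Fintype.card_finset_len, Fintype.card_fin]

theorem coeff_eq {R : Type} [CommRing R] {n k : ℕ} (hk : k ≤ n) (M : Matrix (Fin n) (Fin n) R) :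
    M.charpoly.coeff (n - k) = (-1) ^ k * ∑ Q : Sub n k,
      (M.submatrix (Q.1.orderEmbOfFin Q.2) (Q.1.orderEmbOfFin Q.2)).det := by
  classical
  have h := Matrix.charpoly_coeff_eq_sum_minors M k (by rw [Fintype.card_fin]; exact hk)
  rw [Fintype.card_fin] at h
  rw [h]
  congr 1
  have h2 : ∑ Q : Sub n k, (M.submatrix (Q.1.orderEmbOfFin Q.2) (Q.1.orderEmbOfFin Q.2)).det =
      ∑ Q : Sub n k, (M.submatrix (Subtype.val : Q.1 → Fin n) (Subtype.val : Q.1 → Fin n)).det := by
    refine Finset.sum_congr rfl fun Q _ => ?_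
    have e : M.submatrix (Q.1.orderEmbOfFin Q.2) (Q.1.orderEmbOfFin Q.2) =
        (M.submatrix (Subtype.val : Q.1 → Fin n) (Subtype.val : Q.1 → Fin n)).submatrix
          (Q.1.orderIsoOfFin Q.2).toEquiv (Q.1.orderIsoOfFin Q.2).toEquiv := by
      ext a b
      rfl
    rw [e, Matrix.det_submatrix_equiv_self]
  rw [h2]
  refine Finset.sum_bij' (fun s hs => (⟨s, (Finset.mem_powersetCard.1 hs).2⟩ : Sub n k)) (fun Q _ => Q.1)
    (fun _ _ => Finset.mem_univ _) (fun Q _ => Finset.mem_powersetCard.2 ⟨Finset.subset_univ _, Q.2⟩)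
    (fun _ _ => rfl) (fun _ _ => rfl) (fun _ _ => rfl)

/-- the translates of a coefficient of the characteristic polynomial are combinations of the minors -/
theorem translates {G : Type} [Group G] {R : Type} [CommRing R] {n k : ℕ} (hk : k ≤ n)
    (M : G → Matrix (Fin n) (Fin n) R) (hM : ∀ x y, M (x * y) = M x * M y) (g : G) :
    (fun x => (M (g * x)).charpoly.coeff (n - k)) ∈ Submodule.span R (Set.range fun s : Sub n k × Sub n k =>
      fun x => ((M x).submatrix (s.1.1.orderEmbOfFin s.1.2) (s.2.1.orderEmbOfFin s.2.2)).det) := by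
  classical
  have e : (fun x => (M (g * x)).charpoly.coeff (n - k)) = ∑ Q : Sub n k, ∑ Q' : Sub n k,
      ((-1) ^ k * ((M g).submatrix (Q.1.orderEmbOfFin Q.2) (Q'.1.orderEmbOfFin Q'.2)).det) •
        (fun x => ((M x).submatrix (Q'.1.orderEmbOfFin Q'.2) (Q.1.orderEmbOfFin Q.2)).det) := by
    funext x
    rw [coeff_eq hk, hM, Finset.mul_sum, Finset.sum_apply]
    refine Finset.sum_congr rfl fun Q _ => ?_
    rw [Finset.sum_apply]
    have e1 : (M g * M x).submatrix (Q.1.orderEmbOfFin Q.2) (Q.1.orderEmbOfFin Q.2) =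
        (M g).submatrix (Q.1.orderEmbOfFin Q.2) id * (M x).submatrix id (Q.1.orderEmbOfFin Q.2) := by
      ext a b
      simp [Matrix.mul_apply, Matrix.submatrix_apply]
    rw [e1, cbR, Finset.mul_sum]
    refine Finset.sum_congr rfl fun Q' _ => ?_
    rw [Pi.smul_apply, smul_eq_mul, Matrix.submatrix_submatrix, Matrix.submatrix_submatrix, mul_assoc]
    rfl
  rw [e]
  exact Submodule.sum_mem _ fun Q _ => Submodule.sum_mem _ fun Q' _ =>
    Submodule.smul_mem _ _ (Submodule.subset_span ⟨(Q', Q), rfl⟩)

end Pool.Agent.X320.OP
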