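import Pool.Agent.X320.OP.Ordin
import Pool.Agent.Y802.Cyc

/-! Ordinary places of pure motives: the density and its lower bound. -/

set_option autoImplicit false
set_option linter.all false

namespace Pool.Agent.X320.OP

open Polynomial Filter Topology NumberField IsDedekindDomain
open Pool.Agent.W401.Cheb (GK IsFrob)
open Pool.Agent.W528.Ord (NewtonSlopes ratio)
open Pool.Agent.W528.Ord.MultSystem (IsDeg1)

/-- Data attached to a pure motive `V` over `K` with rational coefficients, for example the intersection cohomology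
`IH^w(X)` of a projective variety `X` over `K`. -/
structure Motive (K : Type) [Field K] [NumberField K] (ℓ : ℕ) [Fact ℓ.Prime] where
  /-- the rank -/
  n : ℕ
  /-- the weight -/
  w : ℕ
  /-- the Hodge slopes (the Hodge-Tate weights) `slope 0 ≤ slope 1 ≤ ... ≤ slope (n - 1)`, with multiplicity -/
  slope : ℕ → ℕ
  /-- the characteristic polynomials of the geometric Frobenius elements -/
  P : HeightOneSpectrum (𝓞 K) → ℤ[X]
  /-- the dual of the `ℓ`-adic realisation, with a stable lattice -/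
  ρ : GK K →* Matrix.GeneralLinearGroup (Fin n) ℤ_[ℓ]

namespace Motive

variable {K : Type} [Field K] [NumberField K] {ℓ : ℕ} [Fact ℓ.Prime]

/-- the Hodge polygon: the sum of the `k` smallest Hodge slopes -/
def hodge (A : Motive K ℓ) (k : ℕ) : ℕ := ∑ i ∈ Finset.range k, A.slope i

/-- the first coordinates of the vertices of the Hodge polygon, apart from the end points, in its left half -/
def vertices (A : Motive K ℓ) : Finset ℕ :=
  (Finset.range A.n).filter fun k => 0 < k ∧ A.slope (k - 1) < A.slope k ∧ 2 * k ≤ A.n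

/-- the place `v` of degree one is ordinary: the Newton polygon at `v` is the Hodge polygon -/
def Ordinary (A : Motive K ℓ) (v : HeightOneSpectrum (𝓞 K)) : Prop :=
  NewtonSlopes (Ideal.absNorm v.asIdeal) (A.P v) ((Multiset.range A.n).map A.slope)

/-- The properties of these data for a pure motive of weight `w` with good reduction outside `S`, in which every vertex
of the Hodge polygon lies by at most `1` below the line with slope `w / 2`: the symmetry of the Hodge slopes, the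
theorems of Deligne (`weil`) and Mazur, Katz-Messing (`mazur`), continuity and compatibility of the `ℓ`-adic
realisation. -/
structure IsMotive (A : Motive K ℓ) (S : Finset ℕ) : Prop where
  mono : ∀ i j, i ≤ j → j < A.n → A.slope i ≤ A.slope j
  symm : ∀ i, i < A.n → A.slope i + A.slope (A.n - 1 - i) = A.w
  depth : ∀ k ∈ A.vertices, A.w * k ≤ 2 * A.hodge k + 2
  cont : ∀ a b, Continuous fun g : GK K => (A.ρ g : Matrix (Fin A.n) (Fin A.n) ℤ_[ℓ]) a b
  monic : ∀ v, IsDeg1 S v → (A.P v).Monic ∧ (A.P v).natDegree = A.n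
  weil : ∀ v, IsDeg1 S v → ∀ α : ℂ, ((A.P v).map (Int.castRingHom ℂ)).IsRoot α →
    ‖α‖ ^ 2 = (Ideal.absNorm v.asIdeal : ℝ) ^ A.w
  mazur : ∀ v, IsDeg1 S v → ∀ k ≤ A.n, (Ideal.absNorm v.asIdeal : ℤ) ^ A.hodge k ∣ (A.P v).coeff (A.n - k)
  compat : ∀ v, IsDeg1 S v → ∀ γ, IsFrob v γ →
    (A.ρ γ : Matrix (Fin A.n) (Fin A.n) ℤ_[ℓ]).charpoly = (A.P v).map (Int.castRingHom ℤ_[ℓ])

/-- at some place of degree one the quotient of two eigenvalues of the Frobenius element is not a root of unity -/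
def NotIsoclinic (A : Motive K ℓ) (S : Finset ℕ) : Prop :=
  ∃ v, IsDeg1 S v ∧ ∀ N : ℕ, 0 < N → ∃ a b : ℂ, ((A.P v).map (Int.castRingHom ℂ)).IsRoot a ∧
    ((A.P v).map (Int.castRingHom ℂ)).IsRoot b ∧ a ^ N ≠ b ^ N

/-- the point of the Hodge polygon with first coordinate `k` -/
def point (A : Motive K ℓ) (k : ℕ) : HodgePoint K ℓ := ⟨A.n, A.w, k, A.hodge k, A.P, A.ρ⟩

theorem mem_vertices (A : Motive K ℓ) (k : ℕ) : k ∈ A.vertices ↔
    k < A.n ∧ 0 < k ∧ A.slope (k - 1) < A.slope k ∧ 2 * k ≤ A.n := by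
  rw [vertices, Finset.mem_filter, Finset.mem_range]

theorem isSym {A : Motive K ℓ} {S : Finset ℕ} (hA : A.IsMotive S) : Sym A.slope A.n A.w := ⟨hA.mono, hA.symm⟩

theorem isPoint {A : Motive K ℓ} {S : Finset ℕ} (hA : A.IsMotive S) {k : ℕ} (hk : k ∈ A.vertices) :
    (A.point k).IsPoint S where
  k_pos := ((A.mem_vertices k).1 hk).2.1
  k_lt := ((A.mem_vertices k).1 hk).1
  depth := ⟨(isSym hA).lt k ((A.mem_vertices k).1 hk).2.1 ((A.mem_vertices k).1 hk).2.2.2
    ((A.mem_vertices k).1 hk).2.2.1, hA.depth k hk⟩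
  cont := hA.cont
  monic := hA.monic
  weil := hA.weil
  mazur := fun v hv => hA.mazur v hv k ((A.mem_vertices k).1 hk).1.le
  compat := hA.compat

theorem ordinary_iff {A : Motive K ℓ} {S : Finset ℕ} (hA : A.IsMotive S) {v : HeightOneSpectrum (𝓞 K)}
    (hv : IsDeg1 S v) : A.Ordinary v ↔ ∀ k ∈ A.vertices, (A.point k).Meets v := by
  haveI : Fact (Ideal.absNorm v.asIdeal).Prime := ⟨hv.1⟩
  unfold Ordinary
  rw [newton_iff (A.P v) A.n A.w (hA.monic v hv).1 (hA.monic v hv).2 A.slope (isSym hA) (hA.mazur v hv)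
    (hA.weil v hv)]
  constructor
  · intro h k hk
    obtain ⟨h1, h2, h3, h4⟩ := (A.mem_vertices k).1 hk
    exact ⟨hA.mazur v hv k h1.le, h k h2 h1 h3 h4⟩
  · intro h k hk0 hkn hv' h2k
    exact (h k ((A.mem_vertices k).2 ⟨hkn, hk0, hv', h2k⟩)).2

/-- the main theorem -/
theorem density_ordinary (hℓ : ℓ ≠ 2) {ι : Type} [Fintype ι] (V : ι → Motive K ℓ) (S : Finset ℕ) (hS : ℓ ∈ S)
    (hV : ∀ i, (V i).IsMotive S) (hns : ∀ i, (V i).slope 0 < (V i).slope ((V i).n - 1) → (V i).NotIsoclinic S) :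
    ∃ d : ℚ, Tendsto (ratio fun v : HeightOneSpectrum (𝓞 K) => IsDeg1 S v ∧ ∀ i, (V i).Ordinary v) atTop
        (𝓝 (d : ℝ)) ∧
      1 / (∏ i, ∏ k ∈ (V i).vertices, (((V i).n.choose k : ℕ) : ℝ) ^ 2) ≤ d := by
  classical
  let A : (Σ i, {k // k ∈ (V i).vertices}) → HodgePoint K ℓ := fun s => (V s.1).point s.2.1
  have hA : ∀ s, (A s).IsPoint S := fun s => isPoint (hV s.1) s.2.2
  have hχ : ∀ v, IsDeg1 S v → ∀ γ, IsFrob v γ →
      ((Pool.Agent.Y802.chi K ℓ γ : ℤ_[ℓ]ˣ) : ℤ_[ℓ]) = (Ideal.absNorm v.asIdeal : ℤ_[ℓ]) := by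
    intro v hv γ hγ
    refine Pool.Agent.Y802.chi_frob ?_ hγ
    intro hmem
    have h1 : ((Ideal.absNorm v.asIdeal : ℕ) : 𝓞 K) ∈ v.asIdeal := Ideal.absNorm_mem v.asIdeal
    have h2 : Ideal.absNorm v.asIdeal ≠ ℓ := fun h => hv.2 (h ▸ hS)
    have h3 : Nat.Coprime (Ideal.absNorm v.asIdeal) ℓ := (Nat.coprime_primes hv.1 (Fact.out : ℓ.Prime)).2 h2
    have h4 : IsCoprime ((Ideal.absNorm v.asIdeal : ℕ) : 𝓞 K) (ℓ : 𝓞 K) := by
      have := (Nat.isCoprime_iff_coprime.2 h3).map (Int.castRingHom (𝓞 K))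
      simpa using this
    obtain ⟨a, b, hab⟩ := h4
    apply v.isPrime.ne_top
    rw [Ideal.eq_top_iff_one, ← hab]
    exact v.asIdeal.add_mem (v.asIdeal.mul_mem_left _ h1) (v.asIdeal.mul_mem_left _ hmem)
  have hns' : ∀ s, OP.NotIsoclinic (A s) S := by
    rintro ⟨i, k, hk⟩
    obtain ⟨h1, h2, h3, h4⟩ := ((V i).mem_vertices k).1 hk
    refine hns i ?_
    have h5 := (hV i).mono 0 (k - 1) (Nat.zero_le _) (by omega)
    have h6 := (hV i).mono k ((V i).n - 1) (by omega) (by omega)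
    omega
  obtain ⟨d, hd, hle⟩ := density (A := A) (χ := Pool.Agent.Y802.chi K ℓ) hℓ hA
    (Units.continuous_val.comp (Pool.Agent.Y802.continuous_chi K ℓ)) hχ hns'
  refine ⟨d, ?_, ?_⟩
  · have e : (fun v : HeightOneSpectrum (𝓞 K) => IsDeg1 S v ∧ ∀ i, (V i).Ordinary v) =
        fun v : HeightOneSpectrum (𝓞 K) => IsDeg1 S v ∧ ∀ s, (A s).Meets v := by
      funext v
      apply propext
      constructor
      · rintro ⟨hv, h⟩
        refine ⟨hv, ?_⟩
        rintro ⟨i, k, hk⟩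
        exact (ordinary_iff (hV i) hv).1 (h i) k hk
      · rintro ⟨hv, h⟩
        refine ⟨hv, fun i => (ordinary_iff (hV i) hv).2 fun k hk => h ⟨i, k, hk⟩⟩
    rw [e]
    exact hd
  · refine le_trans (le_of_eq ?_) hle
    congr 1
    rw [Fintype.prod_sigma]
    refine Finset.prod_congr rfl fun i _ => ?_
    rw [← Finset.prod_coe_sort]
    rfl

end Motive

end Pool.Agent.X320.OP
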