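import Pool.Agent.X320.OP.Duality
import Pool.Agent.X320.OP.Joint
import Pool.Agent.W528.Ord.Newton
import Pool.Agent.W528.Ord.MotDefs

/-! Ordinary places of pure motives all of whose vertices have small depth. -/

set_option autoImplicit false
set_option linter.all false

namespace Pool.Agent.X320.OP

open Polynomial Filter Topology NumberField IsDedekindDomain
open Pool.Agent.W401.Cheb (GK IsFrob)
open Pool.Agent.W528.Ord (NewtonSlopes ratio)
open Pool.Agent.W528.Ord.MultSystem (IsDeg1)

theorem norm_int_le {p : ℕ} [Fact p.Prime] (c : ℤ) (h : ℕ) :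
    ‖(c : PadicAlgCl p)‖ ≤ (1 / (p : ℝ)) ^ h ↔ (p : ℤ) ^ h ∣ c := by
  have e : ((c : ℤ) : PadicAlgCl p) = ((c : ℚ_[p]) : PadicAlgCl p) := by simp
  rw [e, PadicAlgCl.norm_extends, ← Padic.norm_int_le_pow_iff_dvd, one_div, inv_pow, zpow_neg, zpow_natCast]

theorem norm_int_pos {p : ℕ} [Fact p.Prime] (h : ℕ) :
    ‖(((p : ℤ) ^ h : ℤ) : PadicAlgCl p)‖ = (1 / (p : ℝ)) ^ h := by
  have e : (((p : ℤ) ^ h : ℤ) : PadicAlgCl p) = (((p : ℚ_[p])) : PadicAlgCl p) ^ h := by simp
  rw [e, norm_pow, PadicAlgCl.norm_extends, Padic.norm_p, one_div]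

/-- the sum of the first `k` slopes -/
def height (a : ℕ → ℕ) (k : ℕ) : ℕ := ∑ i ∈ Finset.range k, a i

theorem height_succ (a : ℕ → ℕ) (k : ℕ) : height a (k + 1) = height a k + a k := Finset.sum_range_succ _ _

theorem height_list (a : ℕ → ℕ) (k : ℕ) : ((List.range k).map a).sum = height a k := by
  induction k with
  | zero => simp [height]
  | succ k ih => rw [List.range_succ, List.map_append, List.sum_append, ih, height_succ]; simp

section lists

variable (a : ℕ → ℕ) (n w : ℕ)

/-- the slopes are increasing and symmetric -/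
structure Sym : Prop where
  mono : ∀ i j, i ≤ j → j < n → a i ≤ a j
  symm : ∀ i, i < n → a i + a (n - 1 - i) = w

variable {a n w}

theorem Sym.two_mul (h : Sym a n w) : 2 * height a n = w * n := by
  have h1 : height a n = ∑ i ∈ Finset.range n, a (n - 1 - i) := (Finset.sum_range_reflect a n).symm
  have h2 : 2 * height a n = ∑ i ∈ Finset.range n, (a i + a (n - 1 - i)) := by
    rw [Finset.sum_add_distrib, ← h1, _root_.two_mul]
    rfl
  rw [h2, Finset.sum_congr rfl fun i hi => h.symm i (Finset.mem_range.1 hi)]
  simp [mul_comm]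

theorem Sym.dual (h : Sym a n w) (k : ℕ) (hk : k ≤ n) : height a (n - k) + w * k = height a n + height a k := by
  induction k with
  | zero => simp [height]
  | succ k ih =>
    have h1 := ih (by omega)
    have h2 := height_succ a (n - (k + 1))
    rw [show n - (k + 1) + 1 = n - k by omega] at h2
    have h3 := h.symm k (by omega)
    rw [show n - 1 - k = n - (k + 1) by omega] at h3
    have h4 := height_succ a k
    rw [Nat.mul_succ]
    omega

theorem Sym.lt (h : Sym a n w) (k : ℕ) (hk0 : 0 < k) (hk : 2 * k ≤ n) (hv : a (k - 1) < a k) :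
    2 * height a k < w * k := by
  have h1 : ∀ j, j < k → 2 * a j < w := by
    intro j hj
    have h2 := h.symm j (by omega)
    have h3 := h.mono j (k - 1) (by omega) (by omega)
    have h4 := h.mono k (n - 1 - j) (by omega) (by omega)
    omega
  have h5 : ∀ j, j ≤ k → 2 * height a j + j ≤ w * j := by
    intro j hj
    induction j with
    | zero => simp [height]
    | succ j ih =>
      have h6 := ih (by omega)
      have h7 := h1 j (by omega)
      rw [height_succ, Nat.mul_succ]
      omega
  have := h5 k le_rfl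
  omega

end lists

section newton

variable {p : ℕ} [hp : Fact p.Prime]

/-- the Newton polygon has the slopes `a` if and only if the coefficients at the vertices have the right valuation -/
theorem newton_iff (f : ℤ[X]) (n w : ℕ) (hm : f.Monic) (hn : f.natDegree = n) (a : ℕ → ℕ) (ha : Sym a n w)
    (hmaz : ∀ k ≤ n, (p : ℤ) ^ height a k ∣ f.coeff (n - k))
    (hroot : ∀ α : ℂ, (f.map (Int.castRingHom ℂ)).IsRoot α → ‖α‖ ^ 2 = (p : ℝ) ^ w) :
    NewtonSlopes p f ((Multiset.range n).map a) ↔
      ∀ k, 0 < k → k < n → a (k - 1) < a k → 2 * k ≤ n → ¬ (p : ℤ) ^ (height a k + 1) ∣ f.coeff (n - k) := by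
  classical
  set L := PadicAlgCl p with hL
  set F : L[X] := f.map (Int.castRingHom L) with hF
  have hFm : F.Monic := hm.map _
  have hFn : F.natDegree = n := by rw [hF, hm.natDegree_map, hn]
  have hFc : ∀ j, F.coeff j = ((f.coeff j : ℤ) : L) := fun j => by rw [hF, coeff_map]; rfl
  have hp1 : (1 : ℝ) < p := by exact_mod_cast hp.out.one_lt
  set q : ℝ := 1 / (p : ℝ) with hq
  have hq0 : 0 < q := by rw [hq]; positivity
  have hq1 : q < 1 := by
    rw [hq, div_lt_one (by linarith)]
    exact hp1
  have hle : ∀ k ≤ n, ‖F.coeff (n - k)‖ ≤ q ^ height a k := fun k hk => by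
    rw [hFc]
    exact (norm_int_le _ _).2 (hmaz k hk)
  obtain ⟨hfe, hc0⟩ := func_eq_int f n hm hn p w hroot
  have hcast : ∀ m : ℕ, (((p : ℤ) ^ m : ℤ) : L) ≠ 0 := by
    intro m hm0
    have := norm_int_pos (p := p) m
    rw [hm0, norm_zero] at this
    exact absurd this (pow_pos hq0 _).ne
  -- the constant coefficient
  have hend : ‖F.coeff 0‖ = q ^ height a n := by
    have h1 : ‖F.coeff 0‖ ^ 2 = (q ^ height a n) ^ 2 := by
      rw [← norm_pow, hFc, ← Int.cast_pow, hc0, norm_int_pos, ← pow_mul, mul_comm (height a n) 2, ha.two_mul]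
    exact (pow_left_inj₀ (norm_nonneg _) (by positivity) two_ne_zero).1 h1
  have hstep : ∀ c : ℤ, ∀ h : ℕ, ‖(c : L)‖ ≤ q ^ h → ¬ ‖(c : L)‖ ≤ q ^ (h + 1) → ‖(c : L)‖ = q ^ h := by
    intro c h h1 h2
    rw [norm_int_le] at h1 h2
    obtain ⟨d, rfl⟩ := h1
    have h3 : ¬ (p : ℤ) ∣ d := by
      rintro ⟨e, rfl⟩
      exact h2 ⟨e, by ring⟩
    have h4 : ‖(d : L)‖ = 1 := by
      have e : ((d : ℤ) : PadicAlgCl p) = ((d : ℚ_[p]) : PadicAlgCl p) := by simp
      have e6 : ‖(d : L)‖ = ‖((d : ℚ_[p]) : PadicAlgCl p)‖ := congrArg _ e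
      rw [e6, PadicAlgCl.norm_extends]
      have h5 := Padic.norm_int_le_one (p := p) d
      by_contra hne
      exact h3 ((Padic.norm_intCast_lt_one_iff).1 (lt_of_le_of_ne h5 hne))
    rw [Int.cast_mul, norm_mul, norm_int_pos, h4, mul_one]
  constructor
  · -- ordinary implies exact valuations
    rintro ⟨hp', hroots⟩ k hk0 hkn hv h2k hdvd
    have hsplit : F.Splits := IsAlgClosed.splits F
    have hprod : F = (F.roots.map fun y => X - C y).prod := by
      conv_lhs => rw [hsplit.eq_prod_roots, hFm.leadingCoeff, C_1, one_mul]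
    set v : AbsoluteValue L ℝ := NormedField.toAbsoluteValue L with hvdef
    have hvn : ∀ x : L, v x = ‖x‖ := fun x => rfl
    have hna : IsNonarchimedean v := fun x y => IsUltrametricDist.norm_add_le_max x y
    obtain ⟨r, hr1, hr2⟩ := exists_between (pow_lt_pow_right_of_lt_one₀ hq0 hq1 hv)
    have hr : 0 < r := (pow_pos hq0 _).trans hr1
    have h1 := Pool.Agent.W518.DN.gn_linear (v := v) hna hr F.roots
    rw [← hprod] at h1
    have h2 : (F.roots.map fun y => max r (v y)) = ((Multiset.range n).map fun i => max r (q ^ a i)) := by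
      have e1 : (F.roots.map fun y => max r (v y)) = (F.roots.map fun y => ‖y‖).map fun x => max r x := by
        rw [Multiset.map_map]
        rfl
      rw [e1, hroots, Multiset.map_map, Multiset.map_map]
      rfl
    rw [h2] at h1
    have h3 : ((Multiset.range n).map fun i => max r (q ^ a i)).prod = ∏ i ∈ Finset.range n, max r (q ^ a i) := rfl
    rw [h3] at h1
    -- bounds for the products
    have hlow : ∀ i, i < k → max r (q ^ a i) = q ^ a i := by
      intro i hi
      refine max_eq_right (hr2.le.trans ?_)
      exact pow_le_pow_of_le_one hq0.le hq1.le (ha.mono i (k - 1) (by omega) (by omega))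
    have hhigh : ∀ i, k ≤ i → i < n → max r (q ^ a i) = r := by
      intro i hi hin
      refine max_eq_left (le_trans ?_ hr1.le)
      exact pow_le_pow_of_le_one hq0.le hq1.le (ha.mono k i hi hin)
    have hQ : ∀ j, j ≤ n → ∏ i ∈ Finset.range n, max r (q ^ a i) =
        (∏ i ∈ Finset.range j, max r (q ^ a i)) * ∏ i ∈ Finset.Ico j n, max r (q ^ a i) := fun j hj =>
      (Finset.prod_range_mul_prod_Ico _ hj).symm
    have hpw : ∀ j, q ^ height a j = ∏ i ∈ Finset.range j, q ^ a i := fun j => by
      rw [height, Finset.prod_pow_eq_pow_sum]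
    have hrp : ∀ j, j ≤ n → r ^ (n - j) = ∏ i ∈ Finset.Ico j n, r := fun j hj => by
      rw [Finset.prod_const, Nat.card_Ico]
    obtain ⟨i, hi⟩ := exists_eq_gaussNorm v r F
    rw [h1, hvn] at hi
    have hPpos : 0 < ∏ i ∈ Finset.range n, max r (q ^ a i) := Finset.prod_pos fun i _ => lt_max_of_lt_left hr
    by_cases hin : i ≤ n
    · obtain ⟨j, hj, rfl⟩ : ∃ j, j ≤ n ∧ i = n - j := ⟨n - i, by omega, by omega⟩
      rcases eq_or_ne j k with rfl | hjk
      · -- the coefficient at the vertex is too small
        have h4 : ‖F.coeff (n - j)‖ ≤ q ^ (height a j + 1) := by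
          rw [hFc]
          exact (norm_int_le _ _).2 hdvd
        have h5 : ∏ i ∈ Finset.range n, max r (q ^ a i) = q ^ height a j * r ^ (n - j) := by
          rw [hQ j hkn.le, hpw, hrp j hkn.le]
          congr 1
          · exact Finset.prod_congr rfl fun i hi => hlow i (Finset.mem_range.1 hi)
          · exact Finset.prod_congr rfl fun i hi => hhigh i (Finset.mem_Ico.1 hi).1 (Finset.mem_Ico.1 hi).2
        have h6 : ‖F.coeff (n - j)‖ * r ^ (n - j) < q ^ height a j * r ^ (n - j) := by
          refine mul_lt_mul_of_pos_right (lt_of_le_of_lt h4 ?_) (pow_pos hr _)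
          exact pow_lt_pow_right_of_lt_one₀ hq0 hq1 (Nat.lt_succ_self _)
        rw [← h5, hi] at h6
        exact lt_irrefl _ h6
      · have h4 := hle j hj
        have h6 : ‖F.coeff (n - j)‖ * r ^ (n - j) ≤ q ^ height a j * r ^ (n - j) :=
          mul_le_mul_of_nonneg_right h4 (pow_nonneg hr.le _)
        have h7 : q ^ height a j * r ^ (n - j) < ∏ i ∈ Finset.range n, max r (q ^ a i) := by
          rw [hQ j hj, hpw, hrp j hj]
          rcases lt_or_gt_of_ne hjk with hlt | hgt
          · have e1 : ∏ i ∈ Finset.range j, max r (q ^ a i) = ∏ i ∈ Finset.range j, q ^ a i :=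
              Finset.prod_congr rfl fun i hi => hlow i (by have := Finset.mem_range.1 hi; omega)
            rw [e1]
            refine mul_lt_mul_of_pos_left ?_ (Finset.prod_pos fun i _ => pow_pos hq0 _)
            refine Finset.prod_lt_prod (fun i _ => hr) (fun i _ => le_max_left _ _) ⟨j, ?_, ?_⟩
            · exact Finset.mem_Ico.2 ⟨le_rfl, by omega⟩
            · rw [hlow j hlt]
              refine lt_of_lt_of_le hr2 ?_
              exact pow_le_pow_of_le_one hq0.le hq1.le (ha.mono j (k - 1) (by omega) (by omega))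
          · have e1 : ∏ i ∈ Finset.Ico j n, max r (q ^ a i) = ∏ i ∈ Finset.Ico j n, r :=
              Finset.prod_congr rfl fun i hi => hhigh i (by have := Finset.mem_Ico.1 hi; omega)
                (Finset.mem_Ico.1 hi).2
            rw [e1]
            refine mul_lt_mul_of_pos_right ?_ (Finset.prod_pos fun i _ => hr)
            refine Finset.prod_lt_prod (fun i _ => pow_pos hq0 _) (fun i _ => le_max_right _ _) ⟨k, ?_, ?_⟩
            · exact Finset.mem_range.2 hgt
            · rw [hhigh k le_rfl hkn]
              exact hr1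
        rw [hi] at h7
        exact lt_irrefl _ (lt_of_le_of_lt h6 h7)
    · have h4 : F.coeff i = 0 := coeff_eq_zero_of_natDegree_lt (by omega)
      rw [h4, norm_zero, zero_mul] at hi
      rw [hi] at hPpos
      exact lt_irrefl _ hPpos
  · -- exact valuations imply ordinary
    intro hex
    refine ⟨hp, ?_⟩
    have hex1 : ∀ k, 0 < k → k < n → a (k - 1) < a k → 2 * k ≤ n → ‖F.coeff (n - k)‖ = q ^ height a k := by
      intro k hk0 hkn hv h2k
      have h1 := hex k hk0 hkn hv h2k
      rw [hFc]
      refine hstep _ _ ?_ ?_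
      · rw [← hFc]; exact hle k hkn.le
      · intro h
        exact h1 ((norm_int_le _ _).1 h)
    have hex2 : ∀ k, 0 < k → k < n → a (k - 1) < a k → ‖F.coeff (n - k)‖ = q ^ height a k := by
      intro k hk0 hkn hv
      by_cases h2k : 2 * k ≤ n
      · exact hex1 k hk0 hkn hv h2k
      · -- the dual vertex
        push Not at h2k
        set j := n - k with hj
        have hjn : j ≤ n := by omega
        have hkj : k = n - j := by omega
        have hvj : a (j - 1) < a j := by
          have h1 := ha.symm (k - 1) (by omega)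
          have h2 := ha.symm k (by omega)
          rw [show n - 1 - (k - 1) = j by omega] at h1
          rw [show n - 1 - k = j - 1 by omega] at h2
          omega
        have h1 := hex1 j (by omega) (by omega) hvj (by omega)
        have h2 := hfe j hjn
        have h3 : ‖F.coeff (n - j)‖ * q ^ (w * (n - j)) = ‖F.coeff 0‖ * ‖F.coeff j‖ := by
          rw [hFc, hFc, hFc, ← norm_mul, ← Int.cast_mul, ← h2, Int.cast_mul, norm_mul, norm_int_pos]
        rw [h1, hend, ← pow_add] at h3
        have h4 : height a j + w * (n - j) = height a n + height a k := by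
          have h5 := ha.dual j hjn
          rw [← hkj] at h5
          have h6 := ha.two_mul
          have h7 : w * (n - j) + w * j = w * n := by
            rw [← Nat.mul_add]
            congr 1
            omega
          omega
        rw [h4, pow_add] at h3
        exact (mul_left_cancel₀ (pow_pos hq0 _).ne' h3).symm
    have key := Pool.Agent.W528.Ord.roots_norm F n hFm hFn (IsAlgClosed.splits F) q hq0 hq1
      ((List.range n).map a) ?_ (by simp) ?_ ?_ ?_
    · rw [key]
      change (((((List.range n).map a).map fun b => q ^ b : List ℝ)) : Multiset ℝ) =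
        ((((List.range n : List ℕ) : Multiset ℕ).map a).map fun b => q ^ b)
      rw [Multiset.map_coe, Multiset.map_coe]
    · rw [List.pairwise_map]
      refine List.Pairwise.imp_of_mem ?_ (List.pairwise_lt_range (n := n))
      intro i j hi hj hij
      exact ha.mono i j hij.le (List.mem_range.1 hj)
    · intro k hk
      rw [← List.map_take, List.take_range, height_list, Nat.min_eq_left hk]
      exact hle k hk
    · intro k hk0 hkn hv
      rw [← List.map_take, List.take_range, height_list, Nat.min_eq_left hkn.le]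
      refine hex2 k hk0 hkn ?_
      rw [List.getD_eq_getElem _ _ (by simp; omega), List.getD_eq_getElem _ _ (by simp; omega)] at hv
      simpa using hv
    · rw [height_list]
      exact hend

end newton

end Pool.Agent.X320.OP
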